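import Pool.Agent.K7.H18.NH.Vdef

/-!
# Elementary properties of `chi`
-/

set_option autoImplicit false

namespace Pool.Agent.K7.H18.NH

open Polynomial

section
variable {κ : Type} [Fintype κ] [DecidableEq κ] {E : Type} [CommRing E] [Nontrivial E]

omit [DecidableEq κ] in
theorem prod_opt (x : Option κ → E) : (∏ l, (X + C (x l)) : E[X]).Monic ∧
    (∏ l, (X + C (x l)) : E[X]).natDegree = Fintype.card κ + 1 ∧
    (∏ l, (X + C (x l)) : E[X]).coeff (Fintype.card κ) = ∑ l, x l := by
  have h0 : (∏ l, (X + C (x l)) : E[X]).Monic := monic_prod_of_monic _ _ fun l _ => monic_X_add_C _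
  refine ⟨h0, ?_, ?_⟩
  · rw [natDegree_prod_of_monic _ _ fun l _ => monic_X_add_C _]
    rw [Finset.sum_congr rfl fun l _ => natDegree_X_add_C _]
    rw [Finset.sum_const, Finset.card_univ, Fintype.card_option]; simp
  · have h1 := prod_X_sub_C_coeff_card_pred (Finset.univ : Finset (Option κ)) (fun l => - x l)
      (by rw [Finset.card_univ, Fintype.card_option]; omega)
    rw [Finset.card_univ, Fintype.card_option, Nat.add_sub_cancel, Finset.sum_neg_distrib,
      neg_neg] at h1
    rw [← h1]
    congr 1
    refine Finset.prod_congr rfl fun l _ => ?_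
    rw [C_neg, sub_neg_eq_add]

theorem chiB_coeff (a β : κ → E) (k : ℕ) (hk : Fintype.card κ ≤ k) :
    (∑ i, C (β i) * ∏ l ∈ Finset.univ.erase i, (X - C (a l)) : E[X]).coeff k = 0 := by
  rw [finsetSum_coeff]
  refine Finset.sum_eq_zero fun i _ => ?_
  rw [coeff_C_mul]
  apply mul_eq_zero_of_right
  apply coeff_eq_zero_of_natDegree_lt
  rw [natDegree_finsetProd_X_sub_C_eq_card, Finset.card_erase_of_mem (Finset.mem_univ i),
    Finset.card_univ]
  have : 0 < Fintype.card κ := Fintype.card_pos_iff.2 ⟨i⟩
  omega

omit [Nontrivial E] in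
theorem chi_eq_opt (a β : κ → E) (y : E) : chi a β y =
    ∏ l : Option κ, (X + C (l.elim y (fun l => - a l))) +
      ∑ i, C (β i) * ∏ l ∈ Finset.univ.erase i, (X - C (a l)) := by
  unfold chi
  rw [Fintype.prod_option]
  congr 2
  refine Finset.prod_congr rfl fun l _ => ?_
  show X - C (a l) = X + C (- a l)
  rw [C_neg, sub_eq_add_neg]

theorem chi_coeff_top (a β : κ → E) (y : E) : (chi a β y).coeff (Fintype.card κ + 1) = 1 := by
  rw [chi_eq_opt, coeff_add, chiB_coeff a β _ (by omega), add_zero]
  obtain ⟨h1, h2, -⟩ := prod_opt (fun l : Option κ => l.elim y (fun l => - a l))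
  have := h1.coeff_natDegree
  rwa [h2] at this

theorem chi_natDegree (a β : κ → E) (y : E) : (chi a β y).natDegree = Fintype.card κ + 1 := by
  apply le_antisymm
  · rw [natDegree_le_iff_coeff_eq_zero]
    intro k hk
    obtain ⟨h1, h2, -⟩ := prod_opt (fun l : Option κ => l.elim y (fun l => - a l))
    rw [chi_eq_opt, coeff_add, chiB_coeff a β _ (by omega), add_zero,
      coeff_eq_zero_of_natDegree_lt (by omega)]
  · apply le_natDegree_of_ne_zero
    rw [chi_coeff_top]
    exact one_ne_zero

theorem chi_monic (a β : κ → E) (y : E) : (chi a β y).Monic := by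
  unfold Monic leadingCoeff
  rw [chi_natDegree, chi_coeff_top]

theorem chi_coeff_next (a β : κ → E) (y : E) :
    (chi a β y).coeff (Fintype.card κ) = y - ∑ l, a l := by
  rw [chi_eq_opt, coeff_add, chiB_coeff a β _ le_rfl, add_zero]
  obtain ⟨-, -, h3⟩ := prod_opt (fun l : Option κ => l.elim y (fun l => - a l))
  rw [h3, Fintype.sum_option]
  simp [Finset.sum_neg_distrib, sub_eq_add_neg]

omit [Nontrivial E] in
/-- the value at `a_i` -/
theorem chi_eval (a β : κ → E) (y : E) (i : κ) : (chi a β y).eval (a i) =
    β i * ∏ l ∈ Finset.univ.erase i, (a i - a l) := by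
  unfold chi
  rw [eval_add, eval_mul, eval_prod, Finset.prod_eq_zero (Finset.mem_univ i) (by simp), mul_zero,
    zero_add, eval_finsetSum, Finset.sum_eq_single i]
  · rw [eval_mul, eval_C, eval_prod]
    simp
  · intro j _ hj
    rw [eval_mul, eval_prod]
    apply mul_eq_zero_of_right
    exact Finset.prod_eq_zero (Finset.mem_erase.2 ⟨hj.symm, Finset.mem_univ i⟩) (by simp)
  · intro h; exact absurd (Finset.mem_univ i) h

/-- A polynomial with the right degree, enough roots and the right second coefficient. -/
theorem chi_factor {L : Type} [Field L] (a β : κ → L) (y : L) (t : κ → L)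
    (ht : Function.Injective t) (h0 : ∀ l, (chi a β y).eval (t l) = 0) :
    chi a β y = ∏ l : Option κ, (X + C (l.elim (y - ∑ l, a l + ∑ l, t l) (fun l => - t l))) := by
  classical
  obtain ⟨h1, h2, h3⟩ := prod_opt (E := L)
    (fun l : Option κ => l.elim (y - ∑ l, a l + ∑ l, t l) (fun l => - t l))
  rw [← sub_eq_zero]
  by_contra hne
  apply hne
  apply eq_zero_of_natDegree_lt_card_of_eval_eq_zero' _ (Finset.univ.image t)
  · intro x hx
    obtain ⟨l, -, rfl⟩ := Finset.mem_image.1 hx
    rw [eval_sub, h0, zero_sub, neg_eq_zero, eval_prod]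
    exact Finset.prod_eq_zero (Finset.mem_univ (some l)) (by simp)
  · rw [Finset.card_image_of_injective _ ht, Finset.card_univ]
    have hc : ∀ k, Fintype.card κ ≤ k → (chi a β y -
        ∏ l : Option κ, (X + C (l.elim (y - ∑ l, a l + ∑ l, t l) (fun l => - t l)))).coeff k = 0 := by
      intro k hk
      rw [coeff_sub]
      rcases Nat.lt_or_ge (Fintype.card κ + 1) k with h | h
      · rw [coeff_eq_zero_of_natDegree_lt (by rw [chi_natDegree]; exact h),
          coeff_eq_zero_of_natDegree_lt (by rw [h2]; exact h), sub_self]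
      · rcases Nat.eq_or_lt_of_le hk with h' | h'
        · rw [← h', chi_coeff_next, h3, Fintype.sum_option]
          simp
        · have h'' : k = Fintype.card κ + 1 := by omega
          subst h''
          have := h1.coeff_natDegree
          rw [h2] at this
          rw [chi_coeff_top, this, sub_self]
    by_contra hlt
    apply hne
    rw [← leadingCoeff_eq_zero, leadingCoeff]
    exact hc _ (not_lt.1 hlt)

end

end Pool.Agent.K7.H18.NH
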