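import Pool.Agent.K7.H18.NH.Param
import Pool.Agent.K7.H18.NG.Geom1

/-!
# The labels, and descent to the fixed field
-/

set_option autoImplicit false

namespace Pool.Agent.K7.H18.NH

open Polynomial NG

theorem bfam_map {κ k0 F : Type} [Fintype κ] [DecidableEq κ] [Field k0] [Field F] (f : k0 →+* F)
    (a b : κ → k0) (l : κ) :
    (bfam a b l).map f = bfam (fun l => f (a l)) (fun l => f (b l)) l := by
  unfold bfam Lagrange.basis Lagrange.basisDivisor
  rw [Polynomial.map_mul, map_C, Polynomial.map_prod]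
  congr 1
  refine Finset.prod_congr rfl fun j _ => ?_
  rw [Polynomial.map_mul, map_C, Polynomial.map_sub, map_X, map_C, map_inv₀, map_sub]

theorem bfam_ne {κ k0 : Type} [Fintype κ] [DecidableEq κ] [Field k0] (a b : κ → k0)
    (ha : Function.Injective a) (l : κ) (hb : b l ≠ 0) : bfam a b l ≠ 0 := by
  intro h0
  have h1 := congrFun (bfam_eval a b ha l) l
  simp only [h0, eval_zero] at h1
  unfold bet at h1
  rw [if_pos rfl] at h1
  exact hb h1.symm

theorem kap_map {κ S S' : Type} [Fintype κ] [DecidableEq κ] [CommRing S] [CommRing S']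
    (φ : S →+* S') (a : κ → S) (A : Option κ → S) (i : κ) (π : Equiv.Perm (Option κ)) :
    kap (fun l => φ (a l)) (fun l => φ (A l)) i π = φ (kap a A i π) := by
  unfold kap
  rw [map_prod]
  exact Finset.prod_congr rfl fun l _ => (map_sub _ _ _).symm

theorem Wv_map {κ S S' : Type} [Fintype κ] [DecidableEq κ] [CommRing S] [CommRing S']
    (φ : S →+* S') (a : κ → S) (A : Option κ → S) (i : κ) (π : Equiv.Perm (Option κ)) :
    Wv (fun l => φ (a l)) (fun l => φ (A l)) i π = φ (Wv a A i π) := by
  unfold Wv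
  rw [kap_map, map_mul, map_mul, map_sub, map_sub]

section
variable {K F : Type} [Field K] [Field F] [Algebra K F] {m : ℕ} (c : Cyc K F m)

theorem descend_two (P : F[X][X]) (h : P.map (mapRingHom c.σ) = P) :
    ∃ P' : K[X][X], P'.map (mapRingHom (algebraMap K F)) = P := by
  classical
  have h1 : ∀ d, (P.coeff d).map c.σ = P.coeff d := by
    intro d
    rw [← coe_mapRingHom, ← coeff_map, h]
  choose a ha using fun d => c.descend_one _ (h1 d)
  refine ⟨∑ d ∈ P.support, monomial d (a d), ?_⟩
  rw [Polynomial.map_sum]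
  conv_rhs => rw [P.as_sum_support]
  refine Finset.sum_congr rfl fun d _ => ?_
  rw [map_monomial, coe_mapRingHom, ha]

include c in
theorem cyc_algebraic (hm : 0 < m) : Algebra.IsAlgebraic K F := by
  refine ⟨fun x => ?_⟩
  have h1 : (∏ k ∈ Finset.range m, (X - C ((c.σ ^ k) x)) : F[X]).map c.σ =
      ∏ k ∈ Finset.range m, (X - C ((c.σ ^ k) x)) := by
    rw [Polynomial.map_prod, ← Cyc.prod_shift m (fun k => (X - C ((c.σ ^ k) x) : F[X])) (by
      show (X - C ((c.σ ^ m) x) : F[X]) = X - C ((c.σ ^ 0) x)
      rw [c.pow_m_apply, pow_zero]; rfl)]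
    refine Finset.prod_congr rfl fun k _ => ?_
    rw [Polynomial.map_sub, map_X, map_C, c.pow_succ_apply]
  obtain ⟨p, hp⟩ := c.descend_one _ h1
  refine ⟨p, ?_, ?_⟩
  · rintro rfl
    rw [Polynomial.map_zero] at hp
    exact (monic_prod_X_sub_C (fun k => (c.σ ^ k) x) (Finset.range m)).ne_zero hp.symm
  · rw [← eval_map_algebraMap, hp, eval_prod]
    apply Finset.prod_eq_zero (Finset.mem_range.2 hm)
    rw [pow_zero]
    show (X - C x : F[X]).eval x = 0
    simp

end

section
variable {K F : Type} [Field K] [Field F] [Algebra K F] {n : ℕ} (c : Cyc K F (n + 1))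

/-- the conjugates, as labels -/
def lab (l : Option (Fin n)) : F := (c.σ ^ ((finSuccEquiv n).symm l).val) c.β

/-- the rotation -/
def rot (n : ℕ) : Equiv.Perm (Option (Fin n)) :=
  (finSuccEquiv n).symm.trans ((finRotate (n + 1)).trans (finSuccEquiv n))

theorem lab_inj : Function.Injective (lab c) := by
  intro l l' h
  apply (finSuccEquiv n).symm.injective
  apply Fin.ext
  exact c.σ_pow_inj (Fin.is_lt _) (Fin.is_lt _) h

theorem lab_rot (l : Option (Fin n)) : c.σ (lab c l) = lab c (rot n l) := by
  obtain ⟨i, rfl⟩ := (finSuccEquiv n).surjective l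
  unfold lab rot
  simp only [Equiv.symm_apply_apply, Equiv.trans_apply]
  rw [← c.pow_succ_apply]
  rcases lt_or_ge i.val n with h | h
  · have h1 : i = ⟨i.val, by omega⟩ := rfl
    rw [h1, finRotate_of_lt h]
  · have h1 : i = Fin.last n := Fin.ext (by have := i.is_lt; simp only [Fin.val_last]; omega)
    subst h1
    rw [finRotate_last, Fin.val_last, c.pow_m_apply]
    simp

theorem lab_K (hn : 1 ≤ n) (l : Option (Fin n)) (x : K) : lab c l ≠ algebraMap K F x := by
  intro h
  unfold lab at h
  set k := ((finSuccEquiv n).symm l).val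
  have h1 := congrArg c.σ h
  rw [c.com, ← c.pow_succ_apply, ← h, pow_succ, RingHom.mul_def, RingHom.comp_apply] at h1
  have h2 := (c.σ ^ k).injective h1
  have h3 := c.σβ_ne 1 (by norm_num) (by omega)
  rw [pow_one] at h3
  exact h3 h2

end

/-- irreducibility over every extension of the fixed field -/
theorem irr_over {κ K F k0 L : Type} [Fintype κ] [DecidableEq κ] [Field K] [Field F] [Algebra K F]
    [Algebra.IsAlgebraic K F] [Field k0] [Field L] [IsAlgClosed L] (al : k0 →+* L)
    (ι0 : k0 →+* F) (ε : F)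
    (hε : Function.Injective (eval₂RingHom ι0 ε : k0[X] →+* F))
    (a bb : κ → k0) (A : Option κ → k0) (ha : Function.Injective a)
    (hA : Function.Injective A) (hg0 : ∀ π, gam a A π ≠ 0) (hg : Function.Injective (gam a A))
    (hgood : ∀ i π, Good (fun l => al (a l)) (fun l => al (A l)) i (al (bb i)) π)
    (cw : Equiv.Perm (Option κ) → k0)
    (hcw : Function.Injective (fun g : Equiv.Perm (Equiv.Perm (Option κ)) =>
      ∑ π, cw π * (gam a A (g π))⁻¹))
    (h : K[X][X]) (hm : h.Monic)
    (hh : h.map (mapRingHom (algebraMap K F)) =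
      (hres (C (∏ π, (- gam a A π))⁻¹) (fun l => C (a l)) (bfam a bb)
      (fun l => C (A l)) (fun π => C (cw π))).map (mapRingHom (eval₂RingHom ι0 ε)))
    (W : Type) [Field W] [Algebra K W] : Irreducible (h.map (mapRingHom (algebraMap K W))) := by
  classical
  let LW := AlgebraicClosure W
  let ψ : F →ₐ[K] LW := IsAlgClosed.lift
  have hψ : (ψ : F →+* LW).comp (algebraMap K F) = (algebraMap W LW).comp (algebraMap K W) := by
    rw [← IsScalarTower.algebraMap_eq K W LW]
    exact ψ.comp_algebraMap
  have hj : Function.Injective ((ψ : F →+* LW).comp (eval₂RingHom ι0 ε)) := by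
    rw [RingHom.coe_comp]
    exact (ψ : F →+* LW).injective.comp hε
  have h1 := hres_irreducible al ((ψ : F →+* LW).comp (eval₂RingHom ι0 ε)) hj a bb A ha hA hg0 hg
    hgood cw hcw
  have hcomp : ∀ {A B C : Type} [CommRing A] [CommRing B] [CommRing C] (f : A →+* B) (g : B →+* C),
      mapRingHom (g.comp f) = (mapRingHom g).comp (mapRingHom f) := fun f g =>
    (mapRingHom_comp g f).symm
  rw [hcomp, ← Polynomial.map_map, ← hh, Polynomial.map_map, ← hcomp, hψ, hcomp,
    ← Polynomial.map_map] at h1
  exact Monic.irreducible_of_irreducible_map (mapRingHom (algebraMap W LW)) _ (hm.map _) h1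

end Pool.Agent.K7.H18.NH
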