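import Pool.Agent.K7.H18.NH.Config1
import Pool.Agent.K7.H18.NG.Geom2

/-!
# The configuration over a pseudo algebraically closed field
-/

set_option autoImplicit false

namespace Pool.Agent.K7.H18.NH

open Polynomial NG

section
variable {K F : Type} [Field K] [Field F] [Algebra K F] {n : ℕ} (c : Cyc K F (n + 1))

/-- the conjugates of a root -/
theorem conj_root (x : Option (Fin n) → F) (hx : ∀ l, c.σ (x l) = x (rot n l)) (k : ℕ)
    (hk : k < n + 1) : (c.σ ^ k) (x (finSuccEquiv n 0)) = x (finSuccEquiv n ⟨k, hk⟩) := by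
  induction k with
  | zero => rw [pow_zero]; rfl
  | succ k ih =>
    rw [c.pow_succ_apply, ih (by omega), hx]
    congr 1
    unfold rot
    simp only [Equiv.trans_apply, Equiv.symm_apply_apply]
    rw [finRotate_of_lt (by omega : k < n)]

theorem N_root (x : Option (Fin n) → F) (hx : ∀ l, c.σ (x l) = x (rot n l))
    (v : Option (Fin n) → F) (u : F)
    (hu : ∀ (k : ℕ) (hk : k < n + 1), (c.σ ^ k) u = v (finSuccEquiv n ⟨k, hk⟩)) :
    c.N (- x (finSuccEquiv n 0) + u) = ∏ l, (v l - x l) := by
  unfold Cyc.N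
  rw [Finset.prod_range, ← Equiv.prod_comp (finSuccEquiv n) (fun l => v l - x l)]
  refine Finset.prod_congr rfl fun k _ => ?_
  rw [map_add, map_neg, conj_root c x hx k.val k.is_lt, hu k.val k.is_lt]
  ring

/-- the main configuration -/
theorem config_fact (hn : 1 ≤ n) (hPAC : PAC K) [Uncountable K] :
    ∃ (a bc : Fin n → K) (w0 : K) (Xp : Equiv.Perm (Option (Fin n)) → F),
      Function.Injective a ∧ (∀ i, bc i ≠ 0) ∧ w0 ≠ 0 ∧ Function.Injective Xp ∧
      (∀ π i, c.N (Xp π + algebraMap K F (a i)) = algebraMap K F (bc i)) ∧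
      (∀ π, c.N (Xp π + c.β) = algebraMap K F w0) ∧ (∀ i, c.β ≠ algebraMap K F (a i)) := by
  classical
  have hinf : Infinite K := infinite_of_pac hPAC
  have halg : Algebra.IsAlgebraic K F := cyc_algebraic c (by omega)
  have : Nonempty (Fin n) := ⟨⟨0, by omega⟩⟩
  set A := lab c with hA
  have hAinj : Function.Injective A := lab_inj c
  obtain ⟨a, hainj, hγ, hW⟩ := exists_a (K := K) A hAinj (lab_K c hn)
  set a' : Fin n → F := fun l => algebraMap K F (a l) with ha'
  have ha'inj : Function.Injective a' := fun l l' h => hainj ((algebraMap K F).injective h)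
  have hg0 : ∀ π, gam a' A π ≠ 0 := fun π => Finset.prod_ne_zero_iff.2 fun l _ =>
    sub_ne_zero.2 (lab_K c hn _ _)
  set L := AlgebraicClosure F with hL
  set φ : F →+* L := algebraMap F L with hφ
  have hb : ∀ i, ∃ b : K, b ≠ 0 ∧ ∀ π, Good (fun l => φ (a' l)) (fun l => φ (A l)) i
      (φ (algebraMap K F b)) π := by
    intro i
    apply exists_b (φ.comp (algebraMap K F)) (fun l => φ (a' l)) (fun l => φ (A l))
    · intro l i h
      exact lab_K c hn l (a i) (φ.injective h)
    · intro π ρ h1 h2 h3
      rw [Wv_map, Wv_map] at h3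
      exact hW i π ρ h1 h2 (φ.injective h3)
  choose b hb0 hbg using hb
  obtain ⟨cw, hcw⟩ := exists_cw (K := K) (fun π => (gam a' A π)⁻¹) (fun π ρ h =>
    hγ (inv_injective h))
  set S : Set F := Set.range a' ∪ Set.range A ∪ (Set.range (fun l => algebraMap K F (b l)) ∪
    Set.range (fun π => algebraMap K F (cw π))) with hS
  have hSfin : S.Finite := ((Set.finite_range _).union (Set.finite_range _)).union
    ((Set.finite_range _).union (Set.finite_range _))
  obtain ⟨ε, hε⟩ := exists_transc (K := K) S hSfin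
  set k0 := Subfield.closure S with hk0
  set ι0 : k0 →+* F := k0.subtype with hι0
  have hSk : ∀ x ∈ S, x ∈ k0 := fun x hx => Subfield.subset_closure hx
  let a0 : Fin n → k0 := fun l => ⟨a' l, hSk _ (Or.inl (Or.inl ⟨l, rfl⟩))⟩
  let A0 : Option (Fin n) → k0 := fun l => ⟨A l, hSk _ (Or.inl (Or.inr ⟨l, rfl⟩))⟩
  let b0 : Fin n → k0 := fun l => ⟨algebraMap K F (b l), hSk _ (Or.inr (Or.inl ⟨l, rfl⟩))⟩
  let c0 : Equiv.Perm (Option (Fin n)) → k0 := fun π =>
    ⟨algebraMap K F (cw π), hSk _ (Or.inr (Or.inr ⟨π, rfl⟩))⟩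
  have ea : ∀ l, ι0 (a0 l) = a' l := fun l => rfl
  have eA : ∀ l, ι0 (A0 l) = A l := fun l => rfl
  have eb : ∀ l, ι0 (b0 l) = algebraMap K F (b l) := fun l => rfl
  have ec : ∀ π, ι0 (c0 π) = algebraMap K F (cw π) := fun π => rfl
  have eg : ∀ π, ι0 (gam a0 A0 π) = gam a' A π := fun π => gam_map ι0 a0 A0 π
  set jF : k0[X] →+* F := eval₂RingHom ι0 (algebraMap K F ε) with hjF
  have hjC : ∀ x, jF (C x) = ι0 x := fun x => by rw [hjF, coe_eval₂RingHom, eval₂_C]
  let β : Fin n → K := fun l => (bfam a b l).eval ε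
  set β' : Fin n → F := fun l => algebraMap K F (β l) with hβ'
  have eβ : ∀ l, jF (bfam a0 b0 l) = β' l := by
    intro l
    have h1 : (bfam a0 b0 l).map ι0 = (bfam a b l).map (algebraMap K F) := by
      rw [bfam_map, bfam_map]
      rfl
    rw [hjF, coe_eval₂RingHom, ← eval_map, h1, eval_map_apply]
  have hβ0 : ∀ l, β l ≠ 0 := by
    intro l h0
    have h1 : jF (bfam a0 b0 l) = 0 := by rw [eβ]; show algebraMap K F (β l) = 0; rw [h0, map_zero]
    rw [← map_zero jF] at h1
    refine bfam_ne a0 b0 ?_ l ?_ (hε h1)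
    · intro x y hxy
      exact ha'inj (congrArg ι0 hxy)
    · intro h2
      have h3 := congrArg ι0 h2
      rw [eb, map_zero] at h3
      exact hb0 l ((map_eq_zero_iff _ (algebraMap K F).injective).1 h3)
  -- the polynomial over `F`
  set ℓ : F := (∏ π, (- gam a' A π))⁻¹ with hℓ
  have hprod0 : (∏ π, (- gam a' A π)) ≠ 0 :=
    Finset.prod_ne_zero_iff.2 fun π _ => neg_ne_zero.2 (hg0 π)
  have hσℓ : c.σ ℓ = ℓ := by
    rw [hℓ, map_inv₀, map_prod]
    congr 1
    rw [← Equiv.prod_comp (Equiv.mulLeft (rot n)) (fun π => - gam a' A π)]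
    refine Finset.prod_congr rfl fun π _ => ?_
    rw [map_neg, gam_map c.σ]
    congr 1
    show ∏ l, (c.σ (A (π (some l))) - c.σ (a' l)) = ∏ l, (A (rot n (π (some l))) - a' l)
    refine Finset.prod_congr rfl fun l _ => ?_
    rw [hA, lab_rot, ha', c.com]
  set QF := Qm ℓ a' β' A with hQF
  have hQσ : QF.map (mapRingHom c.σ) = QF := by
    rw [hQF, Qm_map, hσℓ]
    have e1 : (fun l => c.σ (a' l)) = a' := funext fun l => c.com _
    have e2 : (fun l => c.σ (β' l)) = β' := funext fun l => c.com _
    have e3 : (fun l => c.σ (A l)) = fun l => A (rot n l) := funext fun l => lab_rot c l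
    rw [e1, e2, e3]
    unfold Qm
    rw [Psi_perm]
  obtain ⟨Q, hQe⟩ := descend_two c QF hQσ
  obtain ⟨η, hη0, -, hη⟩ := roots_ps (RingHom.id F) a' A β' ha'inj hg0 hγ
  simp only [RingHom.id_apply] at hη0 hη
  have hCC : ∀ x : F, toPS F (C x) = PowerSeries.C x := fun x => Polynomial.coe_C x
  have hQFη : QF.map (toPS F) = ∏ π, (X - C (η π)) := by
    rw [hQF]
    unfold Qm
    rw [Polynomial.map_mul, map_C, hCC]
    have h1 : (Psi a' β' A).map (toPS F) =
      C (PowerSeries.C (∏ π, (- gam a' A π))) * ∏ π, (X - C (η π)) := hη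
    rw [h1, ← mul_assoc, ← C_mul, ← map_mul, hℓ, inv_mul_cancel₀ hprod0, map_one, C_1, one_mul]
  have hQη : Q.map ((toPS F).comp (mapRingHom (algebraMap K F))) = ∏ π, (X - C (η π)) := by
    rw [← Polynomial.map_map, hQe, hQFη]
  have hfinj : Function.Injective ((toPS F).comp (mapRingHom (algebraMap K F))) := by
    rw [RingHom.coe_comp]
    refine toPS_inj.comp ?_
    rw [coe_mapRingHom]
    exact map_injective _ (algebraMap K F).injective
  have hQm : Q.Monic := by
    apply monic_of_injective hfinj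
    rw [hQη]
    exact monic_prod_X_sub_C _ _
  have hQd : Q.natDegree = Fintype.card (Equiv.Perm (Option (Fin n))) := by
    rw [← natDegree_map_eq_of_injective hfinj, hQη, natDegree_finsetProd_X_sub_C_eq_card,
      Finset.card_univ]
  -- the bad points
  have hbad := bad_finite (F := F) a β A hainj hβ0
  set bad : Set K := {w : K | ∃ y : K, ¬ (chi a β y).Separable ∧
      ((Phi (fun l => algebraMap K F (a l)) (fun l => algebraMap K F (β l)) A).eval
        (C (algebraMap K F w))).eval (algebraMap K F y) = 0} with hbaddef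
  have hZ : (insert 0 ((fun z : K => z⁻¹) ⁻¹' bad)).Finite :=
    Set.Finite.insert 0 (hbad.preimage (inv_injective.injOn))
  obtain ⟨z0, hz0, r, hr, hQr⟩ : ∃ z0 : K, z0 ∉ (insert 0 ((fun z : K => z⁻¹) ⁻¹' bad)) ∧
      ∃ r : Equiv.Perm (Option (Fin n)) → K, Function.Injective r ∧
      Q.map (evalRingHom z0) = ∏ π, (X - C (r π)) := by
    obtain ⟨z0, h1, r, h2, h3⟩ := split_fibre hPAC Q cw hQm hQd η hQη (by
        simp only [hη0]
        exact hcw) (by
      intro W _ _
      refine irr_over (φ.comp ι0) ι0 (algebraMap K F ε) hε a0 b0 A0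
        (fun x y h => ha'inj (congrArg ι0 h)) (fun x y h => hAinj (congrArg ι0 h)) ?_ ?_ ?_ c0 ?_
        (hQ Q cw) ?_ ?_ W
      · intro π h
        apply hg0 π
        rw [← eg, h, map_zero]
      · intro π ρ h
        apply hγ
        rw [← eg, ← eg, h]
      · intro i π
        exact hbg i π
      · intro g g' h
        apply hcw
        have h1 := congrArg ι0 h
        simp only [map_sum, map_mul, map_inv₀, eg, ec] at h1
        exact h1
      · have h1 := hQ_split ((toPS F).comp (mapRingHom (algebraMap K F))) Q cw η hQη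
        apply monic_of_injective hfinj
        rw [h1]
        exact monic_prod_X_sub_C _ _
      · rw [hQ_map, hQe, hres_map]
        simp only [← hjF, hjC, ea, eA, ec, eβ]
        have h1 : ι0 (∏ π, (- gam a0 A0 π))⁻¹ = ℓ := by
          rw [map_inv₀, map_prod, hℓ]
          congr 1
          refine Finset.prod_congr rfl fun π _ => ?_
          rw [map_neg, eg]
        rw [h1]
        rfl) (∏ z ∈ hZ.toFinset, (X - C z)) (Finset.prod_ne_zero_iff.2 fun z _ => X_sub_C_ne_zero z)
    refine ⟨z0, fun h => h1 ?_, r, h2, h3⟩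
    rw [eval_prod]
    exact Finset.prod_eq_zero (hZ.mem_toFinset.2 h) (by simp)
  rw [Set.mem_insert_iff, not_or] at hz0
  obtain ⟨hz00, hz0b⟩ := hz0
  set w0 : K := z0⁻¹ with hw0
  have hw00 : w0 ≠ 0 := inv_ne_zero hz00
  let y : Equiv.Perm (Option (Fin n)) → K := fun π => z0⁻¹ * r π
  have hyinj : Function.Injective y := fun π ρ h => hr (mul_left_cancel₀ (inv_ne_zero hz00) h)
  -- the roots of `Phi`
  have hroot : ∀ π, ((Phi a' β' A).eval (C (algebraMap K F w0))).eval
      (algebraMap K F (y π)) = 0 := by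
    intro π
    have h1 : (QF.map (evalRingHom (algebraMap K F z0))).eval (algebraMap K F (r π)) = 0 := by
      have h2 : QF.map (evalRingHom (algebraMap K F z0)) =
          (Q.map (evalRingHom z0)).map (algebraMap K F) := by
        rw [← hQe, Polynomial.map_map, Polynomial.map_map]
        congr 1
        apply Polynomial.ringHom_ext
        · intro x
          simp
        · simp
      rw [h2, eval_map_apply, hQr, eval_prod, Finset.prod_eq_zero (Finset.mem_univ π) (by simp),
        map_zero]
    rw [hQF] at h1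
    unfold Qm at h1
    rw [Polynomial.map_mul, map_C, coe_evalRingHom, eval_C, eval_mul, eval_C] at h1
    have h3 := (mul_eq_zero.1 h1).resolve_left (inv_ne_zero hprod0)
    rw [eval_map] at h3
    have h4 := Psi_eval (RingHom.id F) a' β' A ha'inj (algebraMap K F z0) (algebraMap K F w0)
      (algebraMap K F (y π)) (by rw [← map_mul, hw0, mul_inv_cancel₀ hz00, map_one])
    have h5 : algebraMap K F z0 * algebraMap K F (y π) = algebraMap K F (r π) := by
      rw [← map_mul]
      congr 1
      exact mul_inv_cancel_left₀ hz00 _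
    rw [h5] at h4
    have h6 : (Psi a' β' A).eval₂ (eval₂RingHom (RingHom.id F) (algebraMap K F z0))
      (algebraMap K F (r π)) = 0 := h3
    rw [h6, Phi_eval] at h4
    have h7 := (mul_eq_zero.1 h4.symm).resolve_left (pow_ne_zero _ ((_root_.map_ne_zero _).2 hz00))
    rw [Phi_ee]
    exact h7
  have hder : ∀ π, (derivative ((Phi a' β' A).eval (C (algebraMap K F w0)))).eval
      (algebraMap K F (y π)) ≠ 0 := by
    intro π
    obtain ⟨h1, h2⟩ := G_deg a' β' A ha'inj (algebraMap K F w0)
    have hyi : Function.Injective fun π => algebraMap K F (y π) := fun π ρ h =>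
      hyinj ((algebraMap K F).injective h)
    have h3 := eq_prod_of_roots _ (fun π => algebraMap K F (y π)) hyi h1 hroot
    rw [h3, derivative_C_mul, eval_mul, eval_C]
    refine mul_ne_zero ?_ (der_prod_ne _ hyi π)
    have h4 : ((Phi a' β' A).eval (C (algebraMap K F w0))).coeff
      (Fintype.card (Equiv.Perm (Option (Fin n)))) = ∏ π, (- gam a' A π) := h2
    rw [h4]
    exact hprod0
  have hsep : ∀ π, (chi a β (y π)).Separable := by
    intro π
    by_contra hcon
    exact hz0b ⟨y π, hcon, hroot π⟩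
  choose x hx1 hx2 hx3 using fun π => descend_point c.σ c.com a β A (rot n)
    (fun l => lab_rot c l) (y π) w0 (hroot π) (hder π) (hsep π)
  refine ⟨a, fun i => (chi a β (y 1)).eval (a i), w0, fun π => - x π (finSuccEquiv n 0), hainj,
    ?_, hw00, ?_, ?_, ?_, ?_⟩
  · intro i
    show (chi a β (y 1)).eval (a i) ≠ 0
    rw [chi_eval]
    refine mul_ne_zero (hβ0 i) (Finset.prod_ne_zero_iff.2 fun l hl => ?_)
    rw [sub_ne_zero]
    exact fun h => (Finset.mem_erase.1 hl).1 (hainj h).symm
  · intro π ρ h
    have h1 : x π (finSuccEquiv n 0) = x ρ (finSuccEquiv n 0) := neg_injective h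
    have h2 : x π = x ρ := by
      funext l
      obtain ⟨k, rfl⟩ := (finSuccEquiv n).surjective l
      have h3 := conj_root c (x π) (hx3 π) k.val k.is_lt
      have h4 := conj_root c (x ρ) (hx3 ρ) k.val k.is_lt
      rw [h1, h4] at h3
      exact h3.symm
    apply hyinj
    have h5 : chi a β (y π) = chi a β (y ρ) := by
      apply map_injective _ (algebraMap K F).injective
      rw [hx1, hx1, h2]
    have h6 := congrArg (fun p => p.coeff (Fintype.card (Fin n))) h5
    simp only [chi_coeff_next] at h6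
    exact sub_left_injective h6
  · intro π i
    have h1 := N_root c (x π) (hx3 π) (fun _ => a' i) (algebraMap K F (a i))
      (fun k _ => c.pow_com k _)
    rw [h1]
    have h2 : ∏ l, (a' i - x π l) = ((chi a β (y π)).map (algebraMap K F)).eval (a' i) := by
      rw [hx1, eval_prod]
      refine Finset.prod_congr rfl fun l _ => ?_
      rw [eval_sub, eval_X, eval_C]
    rw [h2]
    show ((chi a β (y π)).map (algebraMap K F)).eval (algebraMap K F (a i)) =
      algebraMap K F ((chi a β (y 1)).eval (a i))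
    rw [eval_map_apply, chi_eval, chi_eval]
  · intro π
    have h1 := N_root c (x π) (hx3 π) A c.β (by
      intro k hk
      rw [hA]
      unfold lab
      rw [Equiv.symm_apply_apply])
    rw [h1, hx2]
  · intro i
    have h1 := lab_K c hn (finSuccEquiv n 0) (a i)
    unfold lab at h1
    rw [Equiv.symm_apply_apply] at h1
    exact h1

end

end Pool.Agent.K7.H18.NH
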