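import Pool.Agent.K7.H18.NH.Split

/-!
# Descent of a point of a fibre
-/

set_option autoImplicit false

namespace Pool.Agent.K7.H18.NH

open Polynomial

section
variable {κ : Type} [Fintype κ] [DecidableEq κ]

theorem unique_order {L : Type} [Field L] (a β : κ → L) (A : Option κ → L) (y w : L)
    (r : Option κ → L) (hr : Function.Injective r) (hchi : chi a β y = ∏ l, (X - C (r l)))
    (g : Equiv.Perm (Option κ)) (hg : g ≠ 1) (h1 : ∏ l, (A l - r l) = w)
    (h2 : ∏ l, (A l - r (g l)) = w) :
    (derivative ((Phi a β A).eval (C w))).eval y = 0 := by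
  classical
  set φ : L →+* PowerSeries L := PowerSeries.C with hφ
  set yt : PowerSeries L := PowerSeries.C y + PowerSeries.X with hyt
  set p := chi (fun l => φ (a l)) (fun l => φ (β l)) yt with hp
  have hpc : p.map PowerSeries.constantCoeff = ∏ l, (X - C (r l)) := by
    rw [hp, chi_map, ← hchi, hyt]
    simp [hφ]
  have key : ∀ l, ∃ R : PowerSeries L, PowerSeries.constantCoeff R = r l ∧ p.eval R = 0 := by
    intro l
    apply hensel_ps
    · rw [← eval_map_apply, hpc, PowerSeries.constantCoeff_C, eval_prod]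
      exact Finset.prod_eq_zero (Finset.mem_univ l) (by simp)
    · rw [← eval_map_apply, ← derivative_map, hpc, PowerSeries.constantCoeff_C, isUnit_iff_ne_zero]
      exact der_prod_ne r hr l
  choose R hR0 hR using key
  have hRinj : Function.Injective R := by
    intro l l' h
    apply hr
    rw [← hR0, ← hR0, h]
  have hpR : p = ∏ l, (X + C (- R l)) := by
    have h3 := eq_prod_of_roots p R hRinj (by rw [hp, chi_natDegree, Fintype.card_option]) hR
    rw [Fintype.card_option, hp, chi_coeff_top, C_1, one_mul] at h3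
    rw [hp, h3]
    refine Finset.prod_congr rfl fun l _ => ?_
    rw [C_neg, sub_eq_add_neg]
  set G := (Phi a β A).eval (C w) with hG
  have hGe : G.eval₂ φ yt = ∏ ρ : Equiv.Perm (Option κ), (φ w - ∏ l, (- R l + φ (A (ρ l)))) := by
    have e1 := V_split (fun l => - R l) (fun l => φ (A l)) (φ w)
    rw [← e1, ← hpR, hp, ← Phi_eval, hG]
    show (eval₂RingHom φ yt) ((Phi a β A).eval (C w)) = _
    rw [← eval₂_id, hom_eval₂, RingHom.comp_id, coe_eval₂RingHom, eval₂_C]
  have hfac : ∀ ρ : Equiv.Perm (Option κ), ∏ l, (A (ρ l) - r l) = w →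
      (PowerSeries.X : PowerSeries L) ∣ φ w - ∏ l, (- R l + φ (A (ρ l))) := by
    intro ρ hρ
    rw [PowerSeries.X_dvd_iff, map_sub, map_prod, hφ, PowerSeries.constantCoeff_C, sub_eq_zero,
      ← hρ]
    refine Finset.prod_congr rfl fun l _ => ?_
    rw [map_add, map_neg, hR0, PowerSeries.constantCoeff_C]
    ring
  have hd1 := hfac 1 h1
  have hd2 := hfac g⁻¹ (by
    rw [← h2, ← Equiv.prod_comp g (fun l => A (g⁻¹ l) - r l)]
    refine Finset.prod_congr rfl fun l _ => ?_
    simp)
  have hne : g⁻¹ ≠ 1 := by simpa using hg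
  have hdvd : (PowerSeries.X : PowerSeries L) ^ 2 ∣ G.eval₂ φ yt := by
    rw [hGe, ← Finset.mul_prod_erase Finset.univ _ (Finset.mem_univ (1 : Equiv.Perm (Option κ))),
      ← Finset.mul_prod_erase (Finset.univ.erase 1) _
        (Finset.mem_erase.2 ⟨hne, Finset.mem_univ _⟩), ← mul_assoc, pow_two]
    exact Dvd.dvd.mul_right (mul_dvd_mul hd1 hd2) _
  have hT : G.eval₂ φ yt = toPS L (taylor y G) := by
    have h3 : G.eval₂ φ yt = (eval₂RingHom φ yt) G := rfl
    have h4 : (eval₂RingHom φ yt) = (toPS L).comp (compRingHom (X + C y)) := by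
      apply Polynomial.ringHom_ext
      · intro a
        simp [toPS, hφ]
      · simp [toPS, hyt, add_comm]
    rw [h3, h4, taylor_apply]
    rfl
  rw [← taylor_coeff_one]
  have h5 := PowerSeries.X_pow_dvd_iff.1 hdvd 1 (by norm_num)
  rw [hT] at h5
  have h6 : PowerSeries.coeff 1 (toPS L (taylor y G)) = (taylor y G).coeff 1 :=
    Polynomial.coeff_coe _ _
  rw [h6] at h5
  exact h5

/-- the degree of the fibre polynomial -/
theorem G_deg {L : Type} [Field L] (a β : κ → L) (A : Option κ → L) (ha : Function.Injective a)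
    (w : L) : ((Phi a β A).eval (C w)).natDegree ≤ NN κ ∧
      ((Phi a β A).eval (C w)).coeff (NN κ) = ∏ π, (- gam a A π) := by
  obtain ⟨h1, h2⟩ := cc_dom a β A ha
  have h3 : (Phi a β A).eval (C w) =
      ∑ j ∈ Finset.range (NN κ + 1), cc a β A j * C (w ^ (NN κ - j)) := by
    rw [eval_eq_sum_range, h1, ← Finset.sum_range_reflect]
    refine Finset.sum_congr rfl fun j hj => ?_
    rw [Finset.mem_range] at hj
    rw [show NN κ + 1 - 1 - j = NN κ - j by omega, C_pow]
    rfl
  constructor
  · rw [h3]
    apply natDegree_sum_le_of_forall_le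
    intro j hj
    rw [Finset.mem_range] at hj
    refine (natDegree_mul_C_le _ _).trans ((h2 j (by omega)).1.trans (by omega))
  · rw [h3, finsetSum_coeff, Finset.sum_eq_single (NN κ)]
    · rw [coeff_mul_C, Nat.sub_self, pow_zero, mul_one, (h2 _ le_rfl).2, Nat.sub_self,
        coeff_zero_eq_eval_zero, eval_prod]
      refine Finset.prod_congr rfl fun π _ => ?_
      simp
    · intro j hj hne
      rw [Finset.mem_range] at hj
      rw [coeff_mul_C, coeff_eq_zero_of_natDegree_lt (lt_of_le_of_lt (h2 j (by omega)).1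
        (by omega)), zero_mul]
    · intro h; exact absurd (Finset.mem_range.2 (Nat.lt_succ_self _)) h

/-- inseparable members -/
theorem insep_finite {K L : Type} [Field K] [Field L] [Algebra K L] [IsAlgClosed L] [Nonempty κ]
    (a β : κ → K) (ha : Function.Injective a) (hβ : ∀ l, β l ≠ 0) :
    {y : K | ¬ (chi a β y).Separable}.Finite := by
  classical
  set P : K[X] := ∏ l, (X - C (a l)) with hP
  set B : K[X] := ∑ i, C (β i) * ∏ l ∈ Finset.univ.erase i, (X - C (a l)) with hB
  have hchi : ∀ y, chi a β y = (X + C y) * P + B := fun y => rfl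
  have hPa : ∀ l, P.eval (a l) = 0 := by
    intro l
    rw [hP, eval_prod]
    exact Finset.prod_eq_zero (Finset.mem_univ l) (by simp)
  have hBa : ∀ l, B.eval (a l) ≠ 0 := by
    intro l h0
    have h1 := chi_eval a β 0 l
    rw [hchi, eval_add, eval_mul, hPa, mul_zero, zero_add, h0] at h1
    refine mul_ne_zero (hβ l) (Finset.prod_ne_zero_iff.2 fun i hi => ?_) h1.symm
    rw [sub_ne_zero]
    exact fun h => (Finset.mem_erase.1 hi).1 (ha h).symm
  set M : K[X] := P ^ 2 + derivative B * P - B * derivative P with hM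
  have hM0 : M ≠ 0 := by
    intro h0
    obtain ⟨l⟩ : Nonempty κ := inferInstance
    have h1 := congrArg (fun p => p.eval (a l)) h0
    simp only [hM, eval_sub, eval_add, eval_mul, eval_pow, hPa, eval_zero] at h1
    have h2 : B.eval (a l) * (derivative P).eval (a l) = 0 := by linear_combination -h1
    rcases mul_eq_zero.1 h2 with h | h
    · exact hBa l h
    · exact der_prod_ne a ha l h
  have hML : M.map (algebraMap K L) ≠ 0 :=
    (Polynomial.map_ne_zero_iff (algebraMap K L).injective).2 hM0
  let S : Set L := ((M.map (algebraMap K L)).roots.toFinset : Set L)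
  have hS : S.Finite := Finset.finite_toSet _
  let f : L → L := fun T => - T - aeval T B / aeval T P
  refine Set.Finite.subset (Set.Finite.preimage ((algebraMap K L).injective.injOn)
    (hS.image f)) ?_
  intro y hy
  have hy' : ¬ IsCoprime (chi a β y) (derivative (chi a β y)) := hy
  rw [isCoprime_iff_aeval_ne_zero_of_isAlgClosed K L] at hy'
  push Not at hy'
  obtain ⟨T, hT1, hT2⟩ := hy'
  rw [hchi] at hT1 hT2
  simp only [derivative_mul, derivative_X, derivative_C, add_zero, one_mul,
    map_add, map_mul, aeval_X, aeval_C] at hT1 hT2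
  have hPT : aeval T P ≠ 0 := by
    intro h0
    have h1 : aeval T B = 0 := by rw [h0, mul_zero, zero_add] at hT1; exact hT1
    have h2 : aeval T P = ∏ l, (T - algebraMap K L (a l)) := by
      rw [hP, map_prod]
      refine Finset.prod_congr rfl fun l _ => ?_
      rw [map_sub, aeval_X, aeval_C]
    rw [h2] at h0
    obtain ⟨l, -, hl⟩ := Finset.prod_eq_zero_iff.1 h0
    rw [sub_eq_zero] at hl
    rw [hl, aeval_algebraMap_apply] at h1
    exact hBa l ((map_eq_zero_iff _ (algebraMap K L).injective).1 h1)
  refine ⟨T, ?_, ?_⟩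
  · show T ∈ ((M.map (algebraMap K L)).roots.toFinset : Set L)
    rw [Finset.mem_coe, Multiset.mem_toFinset, mem_roots hML, IsRoot.def, eval_map_algebraMap, hM]
    simp only [map_sub, map_add, map_mul, map_pow]
    linear_combination aeval T P * hT2 - aeval T (derivative P) * hT1
  · show - T - aeval T B / aeval T P = algebraMap K L y
    have h3 : aeval T B = -(T + algebraMap K L y) * aeval T P := by linear_combination hT1
    rw [h3, neg_mul, neg_div, mul_div_cancel_right₀ _ hPT]
    ring

end

end Pool.Agent.K7.H18.NH
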