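import Pool.Agent.K7.H18.NH.Desc

/-!
# Descent of a point of a fibre, continued
-/

set_option autoImplicit false

namespace Pool.Agent.K7.H18.NH

open Polynomial

section
variable {κ : Type} [Fintype κ] [DecidableEq κ]

theorem Phi_ee {S : Type} [CommRing S] (a β : κ → S) (A : Option κ → S) (y w : S) :
    ((Phi a β A).eval (C w)).eval y = V (chi a β y) A w := by
  have h1 := Phi_eval (RingHom.id S) a β A y w
  simp only [RingHom.id_apply] at h1
  rw [← h1]
  have h2 := hom_eval₂ (Phi a β A) (RingHom.id _) (evalRingHom y) (C w)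
  rw [eval₂_id, RingHom.comp_id, coe_evalRingHom, eval_C] at h2
  exact h2

theorem bad_finite {K F : Type} [Field K] [Field F] [Algebra K F] [Nonempty κ]
    (a β : κ → K) (A : Option κ → F) (ha : Function.Injective a) (hβ : ∀ l, β l ≠ 0) :
    {w : K | ∃ y : K, ¬ (chi a β y).Separable ∧
      ((Phi (fun l => algebraMap K F (a l)) (fun l => algebraMap K F (β l)) A).eval
        (C (algebraMap K F w))).eval (algebraMap K F y) = 0}.Finite := by
  classical
  set a' : κ → F := fun l => algebraMap K F (a l) with ha'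
  set β' : κ → F := fun l => algebraMap K F (β l) with hβ'
  have ha'i : Function.Injective a' := fun l m h => ha ((algebraMap K F).injective h)
  have h1 := insep_finite (L := AlgebraicClosure K) a β ha hβ
  obtain ⟨hd, hc⟩ := cc_dom a' β' A ha'i
  have hp : ∀ y : K, (Phi a' β' A).map (evalRingHom (algebraMap K F y)) ≠ 0 := by
    intro y h0
    have h2 := congrArg (fun p => p.coeff (NN κ)) h0
    simp only [coeff_map, coeff_zero] at h2
    obtain ⟨h3, h4⟩ := hc 0 (Nat.zero_le _)
    rw [Nat.sub_zero] at h4
    have h5 : (∏ π, (X - C (gam a' A π)) : F[X]).coeff (NN κ) = 1 := by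
      have h6 := (monic_prod_X_sub_C (fun π => gam a' A π) Finset.univ).coeff_natDegree
      rw [natDegree_finsetProd_X_sub_C_eq_card, Finset.card_univ] at h6
      exact h6
    have h6 : (Phi a' β' A).coeff (NN κ) = C 1 := by
      have h7 : cc a' β' A 0 = (Phi a' β' A).coeff (NN κ) := rfl
      rw [← h7, eq_C_of_natDegree_le_zero h3, h4, h5]
    rw [h6, coe_evalRingHom, eval_C] at h2
    exact one_ne_zero h2
  refine Set.Finite.subset (Set.Finite.biUnion h1 (t := fun y => {w : K |
    ((Phi a' β' A).map (evalRingHom (algebraMap K F y))).eval (algebraMap K F w) = 0}) ?_) ?_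
  · intro y _
    refine Set.Finite.subset (Set.Finite.preimage ((algebraMap K F).injective.injOn)
      (Finset.finite_toSet
        ((Phi a' β' A).map (evalRingHom (algebraMap K F y))).roots.toFinset)) ?_
    intro w hw
    rw [Set.mem_preimage, Finset.mem_coe, Multiset.mem_toFinset, mem_roots (hp y)]
    exact hw
  · rintro w ⟨y, hy1, hy2⟩
    refine Set.mem_biUnion hy1 ?_
    show ((Phi a' β' A).map (evalRingHom (algebraMap K F y))).eval (algebraMap K F w) = 0
    rw [map_evalRingHom_eval]
    exact hy2

theorem Phi_L {F L : Type} [Field F] [Field L] (φ : F →+* L) (a β : κ → F) (A : Option κ → F)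
    (w : F) : (Phi (fun l => φ (a l)) (fun l => φ (β l)) (fun l => φ (A l))).eval (C (φ w)) =
      ((Phi a β A).eval (C w)).map φ := by
  rw [← Phi_map]
  have h1 : (C (φ w) : L[X]) = (mapRingHom φ) (C w) := by rw [coe_mapRingHom, map_C]
  rw [h1, eval_map_apply, coe_mapRingHom]

theorem descend_point {K F : Type} [Field K] [Field F] [Algebra K F] (σ : F →+* F)
    (hσ : ∀ x : K, σ (algebraMap K F x) = algebraMap K F x) (a β : κ → K) (A : Option κ → F)
    (s : Equiv.Perm (Option κ)) (hA : ∀ l, σ (A l) = A (s l)) (y w : K)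
    (hy : ((Phi (fun l => algebraMap K F (a l)) (fun l => algebraMap K F (β l)) A).eval
        (C (algebraMap K F w))).eval (algebraMap K F y) = 0)
    (hy' : (derivative ((Phi (fun l => algebraMap K F (a l)) (fun l => algebraMap K F (β l)) A).eval
        (C (algebraMap K F w)))).eval (algebraMap K F y) ≠ 0)
    (hsep : (chi a β y).Separable) :
    ∃ r : Option κ → F, (chi a β y).map (algebraMap K F) = ∏ l, (X - C (r l)) ∧
      ∏ l, (A l - r l) = algebraMap K F w ∧ ∀ l, σ (r l) = r (s l) := by
  classical
  set a' : κ → F := fun l => algebraMap K F (a l) with ha'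
  set β' : κ → F := fun l => algebraMap K F (β l) with hβ'
  set y' := algebraMap K F y with hyy
  set w' := algebraMap K F w with hww
  have hq : (chi a β y).map (algebraMap K F) = chi a' β' y' := chi_map _ _ _ _
  set L := AlgebraicClosure F with hL
  set φ : F →+* L := algebraMap F L with hφ
  obtain ⟨r0, hr0⟩ := exists_split (ι := Option κ) ((chi a' β' y').map φ) ((chi_monic _ _ _).map _)
    (by rw [(chi_monic _ _ _).natDegree_map, chi_natDegree, Fintype.card_option])
  obtain ⟨ρ, hρ⟩ : ∃ ρ : Equiv.Perm (Option κ), φ w' = ∏ l, (φ (A (ρ l)) - r0 l) := by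
    rw [Phi_ee] at hy
    have h1 := congrArg φ hy
    have h2 : ∏ l, (X - C (r0 l)) = ∏ l, (X + C (- r0 l)) := by
      refine Finset.prod_congr rfl fun l _ => ?_
      rw [C_neg, sub_eq_add_neg]
    rw [V_map, map_zero, hr0, h2, V_split] at h1
    obtain ⟨ρ, -, h3⟩ := Finset.prod_eq_zero_iff.1 h1
    rw [sub_eq_zero] at h3
    refine ⟨ρ, h3.trans (Finset.prod_congr rfl fun l _ => ?_)⟩
    ring
  set r : Option κ → L := fun l => r0 (ρ⁻¹ l) with hr
  have hrq : (chi a' β' y').map φ = ∏ l, (X - C (r l)) := by
    rw [hr0]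
    exact (Equiv.prod_comp ρ⁻¹ (fun l => (X - C (r0 l) : L[X]))).symm
  have hT : ∏ l, (φ (A l) - r l) = φ w' := by
    rw [hρ, ← Equiv.prod_comp ρ (fun l => φ (A l) - r l)]
    refine Finset.prod_congr rfl fun l _ => ?_
    show φ (A (ρ l)) - r0 (ρ⁻¹ (ρ l)) = _
    simp
  have hrinj : Function.Injective r := by
    have h1 : (((chi a β y).map (algebraMap K F)).map φ).Separable :=
      Separable.map (Separable.map hsep)
    rw [hq, hrq] at h1
    exact separable_prod_X_sub_C_iff.1 h1
  have huniqL : ∀ g : Equiv.Perm (Option κ), ∏ l, (φ (A l) - r (g l)) = φ w' → g = 1 := by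
    intro g hg
    by_contra hne
    apply hy'
    have h1 := unique_order (fun l => φ (a' l)) (fun l => φ (β' l)) (fun l => φ (A l)) (φ y') (φ w')
      r hrinj (by rw [← chi_map]; exact hrq) g hne hT hg
    rw [Phi_L φ a' β' A w', derivative_map, eval_map_apply] at h1
    exact (map_eq_zero_iff _ φ.injective).1 h1
  have key : ∀ l, ∃ x : F, algebraMap F L x = r l := by
    intro l
    refine fix_of_unique (chi a' β' y') r hrinj hrq
      (fun v => ∏ l, (φ (A l) - v l) = φ w') hT ?_ huniqL l
    intro ψ v hv
    have h1 := congrArg ψ hv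
    rw [map_prod, hφ, ψ.commutes] at h1
    refine Eq.trans (Finset.prod_congr rfl fun l _ => ?_) h1
    rw [map_sub, ψ.commutes]
  choose x hx using key
  have hxq : chi a' β' y' = ∏ l, (X - C (x l)) := by
    apply map_injective _ φ.injective
    rw [hrq, Polynomial.map_prod]
    refine Finset.prod_congr rfl fun l _ => ?_
    rw [Polynomial.map_sub, map_X, map_C, hφ, hx]
  have hxT : ∏ l, (A l - x l) = w' := by
    apply φ.injective
    rw [← hT, map_prod]
    refine Finset.prod_congr rfl fun l _ => ?_
    rw [map_sub, hφ, hx]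
  have hxinj : Function.Injective x := by
    intro l m h
    apply hrinj
    rw [← hx, ← hx, h]
  refine ⟨x, hq.trans hxq, hxT, ?_⟩
  have hmap : (chi a' β' y').map σ = chi a' β' y' := by
    rw [chi_map]
    simp only [ha', hβ', hyy, hσ]
  have h1 : ∀ l, ∃ l', σ (x l) = x l' := by
    intro l
    have h2 : (chi a' β' y').eval (σ (x l)) = 0 := by
      have h3 : (chi a' β' y').eval (x l) = 0 := by
        rw [hxq, eval_prod]
        exact Finset.prod_eq_zero (Finset.mem_univ l) (by simp)
      rw [← hmap, eval_map_apply, h3, map_zero]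
    rw [hxq, eval_prod] at h2
    obtain ⟨l', -, h5⟩ := Finset.prod_eq_zero_iff.1 h2
    rw [eval_sub, eval_X, eval_C, sub_eq_zero] at h5
    exact ⟨l', h5⟩
  choose g hg using h1
  have hginj : Function.Injective g := by
    intro l m h
    apply hxinj
    apply σ.injective
    rw [hg, hg, h]
  let G : Equiv.Perm (Option κ) := Equiv.ofBijective g (Finite.injective_iff_bijective.1 hginj)
  have hG : ∀ l, G l = g l := fun l => rfl
  have h2 : ∏ l, (A l - x ((G * s⁻¹) l)) = w' := by
    have h3 := congrArg σ hxT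
    rw [hww, hσ, ← hww, map_prod] at h3
    rw [← h3, ← Equiv.prod_comp s (fun l => A l - x ((G * s⁻¹) l))]
    refine Finset.prod_congr rfl fun l _ => ?_
    rw [map_sub, hA, hg]
    show A (s l) - x (G (s⁻¹ (s l))) = _
    simp [hG]
  have h3 : G * s⁻¹ = 1 := by
    by_contra hne
    exact hy' (unique_order a' β' A y' w' x hxinj hxq _ hne hxT h2)
  intro l
  rw [hg, ← hG, mul_inv_eq_one.1 h3]

end

end Pool.Agent.K7.H18.NH
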