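import Pool.Agent.K7.H18.NH.Irred
import Pool.Agent.K7.H18.NG.Pac

/-!
# Galois descent of the roots
-/

set_option autoImplicit false

namespace Pool.Agent.K7.H18.NH

open Polynomial

theorem exists_split {L ι : Type} [Field L] [IsAlgClosed L] [Fintype ι] (p : L[X]) (hp : p.Monic)
    (hd : p.natDegree = Fintype.card ι) : ∃ r : ι → L, p = ∏ i, (X - C (r i)) := by
  classical
  have h1 := IsAlgClosed.splits p
  have h2 := h1.eq_prod_roots_of_monic hp
  have h3 : p.roots.toList.length = Fintype.card ι := by
    rw [Multiset.length_toList, ← h1.natDegree_eq_card_roots, hd]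
  let e : ι ≃ Fin p.roots.toList.length := (Fintype.equivFin ι).trans (finCongr h3.symm)
  refine ⟨fun i => p.roots.toList.get (e i), ?_⟩
  have h4 : ∏ i, (X - C (p.roots.toList.get (e i))) =
      ∏ i : Fin p.roots.toList.length, (X - C (p.roots.toList.get i)) :=
    Fintype.prod_equiv e _ _ fun i => rfl
  rw [h4]
  have h5 : ∏ i : Fin p.roots.toList.length, (X - C (p.roots.toList.get i)) =
      (p.roots.toList.map (fun x => X - C x)).prod := by
    rw [← List.prod_ofFn]
    congr 1
    apply List.ext_get
    · simp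
    · intro n h6 h7
      simp
  rw [h5, ← Multiset.prod_coe, ← Multiset.map_coe, Multiset.coe_toList]
  exact h2

theorem fix_sep {K L : Type} [Field K] [Field L] [Algebra K L] [Normal K L] (x : L)
    (hs : IsSeparable K x) (h : ∀ φ : L ≃ₐ[K] L, φ x = x) : ∃ a : K, algebraMap K L a = x := by
  by_contra hcon
  have h1 : x ∉ (⊥ : Subalgebra K L) := by
    intro h2
    exact hcon (Algebra.mem_bot.1 h2)
  obtain ⟨y, hy, hxy⟩ := (notMem_iff_exists_ne_and_isConjRoot hs (Normal.splits inferInstance x)).1 h1
  obtain ⟨σ, hσ⟩ := isConjRoot_iff_exists_algEquiv.1 hxy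
  apply hy
  have := h σ.symm
  rw [← this, ← hσ, AlgEquiv.symm_apply_apply]

theorem fix_of_unique {K L P : Type} [Field K] [Field L] [Algebra K L] [Normal K L] [Fintype P]
    (q : K[X]) (r : P → L) (hr : Function.Injective r)
    (hq : q.map (algebraMap K L) = ∏ π, (X - C (r π))) (T : (P → L) → Prop) (hT : T r)
    (hinv : ∀ (φ : L ≃ₐ[K] L) (v : P → L), T v → T (fun π => φ (v π)))
    (huniq : ∀ g : Equiv.Perm P, T (fun π => r (g π)) → g = 1) (π : P) :
    ∃ a : K, algebraMap K L a = r π := by
  classical
  apply fix_sep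
  · have h1 : (q.map (algebraMap K L)).Separable := by
      rw [hq]
      exact separable_prod_X_sub_C_iff.2 hr
    have h2 : q.Separable := (separable_map _).1 h1
    have h3 : aeval (r π) q = 0 := by
      rw [← eval_map_algebraMap, hq, eval_prod]
      exact Finset.prod_eq_zero (Finset.mem_univ π) (by simp)
    exact h2.of_dvd (minpoly.dvd K _ h3)
  · intro φ
    have h1 : ∀ ρ, ∃ ρ', φ (r ρ) = r ρ' := by
      intro ρ
      have h2 : (q.map (algebraMap K L)).eval (φ (r ρ)) = 0 := by
        have h3 : aeval (r ρ) q = 0 := by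
          rw [← eval_map_algebraMap, hq, eval_prod]
          exact Finset.prod_eq_zero (Finset.mem_univ ρ) (by simp)
        have h4 := congrArg φ h3
        rw [map_zero, ← AlgEquiv.coe_toAlgHom, ← aeval_algHom_apply] at h4
        rw [eval_map_algebraMap]
        exact h4
      rw [hq, eval_prod] at h2
      obtain ⟨ρ', -, h5⟩ := Finset.prod_eq_zero_iff.1 h2
      rw [eval_sub, eval_X, eval_C, sub_eq_zero] at h5
      exact ⟨ρ', h5⟩
    choose g hg using h1
    have hginj : Function.Injective g := by
      intro ρ ρ' h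
      apply hr
      apply φ.injective
      rw [hg, hg, h]
    let G : Equiv.Perm P := Equiv.ofBijective g (Finite.injective_iff_bijective.1 hginj)
    have hG : ∀ ρ, G ρ = g ρ := fun ρ => rfl
    have h2 := hinv φ r hT
    have h3 : (fun π => φ (r π)) = fun π => r (G π) := by
      funext ρ
      rw [hg, hG]
    rw [h3] at h2
    have h4 := huniq G h2
    rw [hg, ← hG, h4]
    rfl

/-- clearing denominators -/
theorem clear_denoms {R B : Type} [CommRing R] [IsDomain R] [Field B] [Algebra R B]
    [IsFractionRing R B] (p q : R[X])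
    (h : IsCoprime (p.map (algebraMap R B)) (q.map (algebraMap R B))) :
    ∃ (A' B' : R[X]) (d : R), d ≠ 0 ∧ A' * p + B' * q = C d := by
  obtain ⟨a, b, hab⟩ := h
  obtain ⟨s, hs, hsa⟩ := IsLocalization.integerNormalization_spec (nonZeroDivisors R) a
  obtain ⟨t, ht, htb⟩ := IsLocalization.integerNormalization_spec (nonZeroDivisors R) b
  refine ⟨C t * IsLocalization.integerNormalization (nonZeroDivisors R) a,
    C s * IsLocalization.integerNormalization (nonZeroDivisors R) b, s * t,
    mul_ne_zero (nonZeroDivisors.ne_zero hs) (nonZeroDivisors.ne_zero ht), ?_⟩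
  apply map_injective (algebraMap R B) (IsFractionRing.injective R B)
  simp only [Polynomial.map_add, Polynomial.map_mul, map_C, hsa, htb, map_mul]
  rw [Algebra.smul_def, Algebra.smul_def]
  have h1 : ∀ x : R, (algebraMap R B[X] x : B[X]) = C (algebraMap R B x) := fun x => rfl
  rw [h1, h1]
  have h2 : (C (algebraMap R B s) * C (algebraMap R B t) : B[X]) =
    C (algebraMap R B s) * C (algebraMap R B t) * (a * p.map (algebraMap R B) +
      b * q.map (algebraMap R B)) := by rw [hab, mul_one]
  rw [h2]
  ring

/-! ### invariance under permutations of the labels -/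

theorem V_perm {E ι : Type} [CommRing E] [IsDomain E] [Fintype ι] [DecidableEq ι] (p : E[X])
    (hp : p.Monic) (hd : p.natDegree = Fintype.card ι) (A : ι → E) (w : E) (s : Equiv.Perm ι) :
    V p (fun l => A (s l)) w = V p A w := by
  classical
  let B := FractionRing E
  let L := AlgebraicClosure B
  let φ : E →+* L := (algebraMap B L).comp (algebraMap E B)
  have hφ : Function.Injective φ :=
    (algebraMap B L).injective.comp (IsFractionRing.injective E B)
  obtain ⟨r, hr⟩ := exists_split (ι := ι) (p.map φ) (hp.map φ) (by rw [hp.natDegree_map, hd])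
  have hr' : p.map φ = ∏ i, (X + C (- r i)) := by
    rw [hr]
    refine Finset.prod_congr rfl fun i _ => ?_
    rw [C_neg, sub_eq_add_neg]
  apply hφ
  rw [V_map, V_map, hr', V_split, V_split]
  refine Fintype.prod_equiv (Equiv.mulLeft s) _ _ fun π => ?_
  rfl

theorem Phi_perm {κ S : Type} [Fintype κ] [DecidableEq κ] [CommRing S] [IsDomain S] (a β : κ → S)
    (A : Option κ → S) (s : Equiv.Perm (Option κ)) : Phi a β (fun l => A (s l)) = Phi a β A := by
  have h1 := V_perm (chi (fun l => C (C (a l))) (fun l => C (C (β l))) (C X) : S[X][X][X])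
    (chi_monic _ _ _) (by rw [chi_natDegree, Fintype.card_option]) (fun l => C (C (A l))) X s
  exact h1

theorem Psi_perm {κ S : Type} [Fintype κ] [DecidableEq κ] [CommRing S] [IsDomain S] (a β : κ → S)
    (A : Option κ → S) (s : Equiv.Perm (Option κ)) : Psi a β (fun l => A (s l)) = Psi a β A := by
  unfold Psi cc
  rw [Phi_perm]

theorem gam_perm {κ S : Type} [Fintype κ] [DecidableEq κ] [CommRing S] (a : κ → S)
    (A : Option κ → S) (s π : Equiv.Perm (Option κ)) :
    gam a (fun l => A (s l)) π = gam a A (s * π) := rfl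

end Pool.Agent.K7.H18.NH
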