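import Pool.Agent.K7.H18.NH.Spec

/-!
# The transpositions generate the symmetric group
-/

set_option autoImplicit false

namespace Pool.Agent.K7.H18.NH

section
variable {κ : Type} [Fintype κ] [DecidableEq κ]

theorem star_closure : Subgroup.closure {g : Equiv.Perm (Option κ) | ∃ i : κ,
    g = Equiv.swap none (some i)} = ⊤ := by
  classical
  set S : Set (Equiv.Perm (Option κ)) := {g | ∃ i : κ, g = Equiv.swap none (some i)} with hS
  have h1 : ∀ σ ∈ S, σ.IsSwap := by
    rintro σ ⟨i, rfl⟩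
    exact ⟨none, some i, by simp, rfl⟩
  have h2 : ∀ x : Option κ, ∃ g : Subgroup.closure S, g • (none : Option κ) = x := by
    intro x
    cases x with
    | none => exact ⟨1, one_smul _ _⟩
    | some i =>
      refine ⟨⟨Equiv.swap none (some i), Subgroup.subset_closure ⟨i, rfl⟩⟩, ?_⟩
      show Equiv.swap none (some i) none = some i
      exact Equiv.swap_apply_left _ _
  have : MulAction.IsPretransitive (Subgroup.closure S) (Option κ) := by
    refine ⟨fun x y => ?_⟩
    obtain ⟨g, hg⟩ := h2 x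
    obtain ⟨g', hg'⟩ := h2 y
    exact ⟨g' * g⁻¹, by rw [mul_smul, ← hg, inv_smul_smul, hg']⟩
  exact closure_of_isSwap_of_isPretransitive h1

theorem big_closure : Subgroup.closure {g : Equiv.Perm (Equiv.Perm (Option κ)) |
    ∃ (i : κ) (π : Equiv.Perm (Option κ)), g = Equiv.swap π (sw i π)} = ⊤ := by
  classical
  set S : Set (Equiv.Perm (Equiv.Perm (Option κ))) := {g | ∃ (i : κ) (π : Equiv.Perm (Option κ)),
    g = Equiv.swap π (sw i π)} with hS
  have h1 : ∀ σ ∈ S, σ.IsSwap := by
    rintro σ ⟨i, π, rfl⟩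
    exact ⟨π, sw i π, (sw_ne i π).symm, rfl⟩
  have h2 : ∀ ρ ∈ Subgroup.closure {g : Equiv.Perm (Option κ) | ∃ i : κ,
      g = Equiv.swap none (some i)}, ∀ x : Equiv.Perm (Option κ),
      ∃ g : Subgroup.closure S, g • x = x * ρ := by
    intro ρ hρ
    induction hρ using Subgroup.closure_induction with
    | mem ρ hρ =>
      obtain ⟨i, rfl⟩ := hρ
      intro x
      refine ⟨⟨Equiv.swap x (sw i x), Subgroup.subset_closure ⟨i, x, rfl⟩⟩, ?_⟩
      show Equiv.swap x (sw i x) x = _
      rw [Equiv.swap_apply_left]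
      rfl
    | one => intro x; exact ⟨1, by rw [one_smul, mul_one]⟩
    | mul a b _ _ ha hb =>
      intro x
      obtain ⟨g, hg⟩ := ha x
      obtain ⟨g', hg'⟩ := hb (x * a)
      exact ⟨g' * g, by rw [mul_smul, hg, hg', mul_assoc]⟩
    | inv a _ ha =>
      intro x
      obtain ⟨g, hg⟩ := ha (x * a⁻¹)
      refine ⟨g⁻¹, ?_⟩
      rw [inv_smul_eq_iff, hg, inv_mul_cancel_right]
  have : MulAction.IsPretransitive (Subgroup.closure S) (Equiv.Perm (Option κ)) := by
    refine ⟨fun x y => ?_⟩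
    obtain ⟨g, hg⟩ := h2 (x⁻¹ * y) (by rw [star_closure]; trivial) x
    exact ⟨g, by rw [hg, mul_inv_cancel_left]⟩
  exact closure_of_isSwap_of_isPretransitive h1

theorem stable_all (t : Finset (Equiv.Perm (Equiv.Perm (Option κ))))
    (h : ∀ (i : κ) (π : Equiv.Perm (Option κ)), ∀ g ∈ t, Equiv.swap π (sw i π) * g ∈ t)
    (hne : t.Nonempty) : t = Finset.univ := by
  classical
  have h1 : ∀ s ∈ Subgroup.closure {g : Equiv.Perm (Equiv.Perm (Option κ)) |
    ∃ (i : κ) (π : Equiv.Perm (Option κ)), g = Equiv.swap π (sw i π)}, ∀ g, g ∈ t ↔ s * g ∈ t := by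
    intro s hs
    induction hs using Subgroup.closure_induction with
    | mem s hs =>
      obtain ⟨i, π, rfl⟩ := hs
      intro g
      refine ⟨h i π g, fun h2 => ?_⟩
      have := h i π _ h2
      rwa [← mul_assoc, Equiv.swap_mul_self, one_mul] at this
    | one => intro g; rw [one_mul]
    | mul a b _ _ ha hb => intro g; rw [hb g, ha (b * g), mul_assoc]
    | inv a _ ha => intro g; rw [ha (a⁻¹ * g), mul_inv_cancel_left]
  obtain ⟨g0, hg0⟩ := hne
  rw [Finset.eq_univ_iff_forall]
  intro g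
  have := (h1 (g * g0⁻¹) (by rw [big_closure]; trivial) g0).1 hg0
  rwa [inv_mul_cancel_right] at this

end

end Pool.Agent.K7.H18.NH
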