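import Mathlib

/-!
# Hensel's lemma for power series over a commutative ring
-/

set_option autoImplicit false

namespace Pool.Agent.K7.H18.NH

open PowerSeries (constantCoeff)

section
variable {R : Type} [CommRing R]

theorem hensel_ps (f : Polynomial (PowerSeries R)) (r0 : R)
    (h0 : constantCoeff (f.eval (PowerSeries.C r0)) = 0)
    (h1 : IsUnit (constantCoeff (f.derivative.eval (PowerSeries.C r0)))) :
    ∃ r : PowerSeries R, constantCoeff r = r0 ∧ f.eval r = 0 := by
  obtain ⟨v, hv⟩ := h1.exists_right_inv
  let step : PowerSeries R → PowerSeries R := fun r => r + -(PowerSeries.C v * f.eval r)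
  let rs : ℕ → PowerSeries R := fun n => Nat.rec (PowerSeries.C r0) (fun _ r => step r) n
  have hrs : ∀ n, rs (n + 1) = step (rs n) := fun n => rfl
  have hX : ∀ a : PowerSeries R, (PowerSeries.X : PowerSeries R) ∣ a ↔ constantCoeff a = 0 := fun a =>
    PowerSeries.X_dvd_iff
  have key : ∀ n, constantCoeff (rs n) = r0 ∧
      (PowerSeries.X : PowerSeries R) ^ (n + 1) ∣ f.eval (rs n) := by
    intro n
    induction n with
    | zero =>
      refine ⟨PowerSeries.constantCoeff_C _, ?_⟩
      rw [zero_add, pow_one, hX]
      exact h0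
    | succ n ih =>
      obtain ⟨h2, h3⟩ := ih
      have h4 : (PowerSeries.X : PowerSeries R) ∣ f.eval (rs n) :=
        (dvd_pow_self _ (Nat.succ_ne_zero n)).trans h3
      refine ⟨?_, ?_⟩
      · rw [hrs]
        show constantCoeff (rs n + -(PowerSeries.C v * f.eval (rs n))) = r0
        rw [map_add, h2, map_neg, map_mul, (hX _).1 h4, mul_zero, neg_zero, add_zero]
      · rw [hrs]
        obtain ⟨k, hk⟩ := Polynomial.binomExpansion f (rs n) (-(PowerSeries.C v * f.eval (rs n)))
        show _ ∣ f.eval (rs n + -(PowerSeries.C v * f.eval (rs n)))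
        rw [hk]
        have h5 : f.eval (rs n) + f.derivative.eval (rs n) * -(PowerSeries.C v * f.eval (rs n)) +
            k * (-(PowerSeries.C v * f.eval (rs n))) ^ 2 =
            f.eval (rs n) * (1 - f.derivative.eval (rs n) * PowerSeries.C v) +
            f.eval (rs n) * f.eval (rs n) * (k * PowerSeries.C v ^ 2) := by ring
        rw [h5]
        have h6 : (PowerSeries.X : PowerSeries R) ∣ 1 - f.derivative.eval (rs n) * PowerSeries.C v := by
          rw [hX, map_sub, map_one, map_mul, PowerSeries.constantCoeff_C]
          have h7 : (PowerSeries.X : PowerSeries R) ∣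
              f.derivative.eval (rs n) - f.derivative.eval (PowerSeries.C r0) := by
            refine Dvd.dvd.trans ?_ (Polynomial.sub_dvd_eval_sub _ _ _)
            rw [hX, map_sub, h2, PowerSeries.constantCoeff_C, sub_self]
          rw [hX, map_sub, sub_eq_zero] at h7
          rw [h7, hv, sub_self]
        refine dvd_add ?_ ?_
        · have := mul_dvd_mul h3 h6
          rwa [← pow_succ] at this
        · refine Dvd.dvd.mul_right ?_ _
          have := mul_dvd_mul h3 h4
          rwa [← pow_succ] at this
  have hdiff : ∀ n, (PowerSeries.X : PowerSeries R) ^ (n + 1) ∣ rs (n + 1) - rs n := by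
    intro n
    rw [hrs]
    show _ ∣ rs n + -(PowerSeries.C v * f.eval (rs n)) - rs n
    rw [add_sub_cancel_left]
    exact ((key n).2.mul_left _).neg_right
  have hdiff' : ∀ m n, m ≤ n → (PowerSeries.X : PowerSeries R) ^ (m + 1) ∣ rs n - rs m := by
    intro m n hmn
    induction n, hmn using Nat.le_induction with
    | base => rw [sub_self]; exact dvd_zero _
    | succ n hmn ih =>
      have h3 : rs (n + 1) - rs m = (rs (n + 1) - rs n) + (rs n - rs m) := by ring
      rw [h3]
      exact dvd_add ((pow_dvd_pow _ (by omega)).trans (hdiff n)) ih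
  let r : PowerSeries R := PowerSeries.mk fun n => PowerSeries.coeff n (rs n)
  have hr : ∀ n, (PowerSeries.X : PowerSeries R) ^ (n + 1) ∣ r - rs n := by
    intro n
    rw [PowerSeries.X_pow_dvd_iff]
    intro k hk
    have h2 := PowerSeries.X_pow_dvd_iff.1 (hdiff' k n (by omega)) k (by omega)
    rw [map_sub, sub_eq_zero] at h2
    rw [map_sub, PowerSeries.coeff_mk, h2, sub_self]
  refine ⟨r, ?_, ?_⟩
  · have h2 := hr 0
    rw [zero_add, pow_one, hX, map_sub, (key 0).1, sub_eq_zero] at h2
    exact h2
  · ext n
    have h2 : (PowerSeries.X : PowerSeries R) ^ (n + 1) ∣ f.eval r := by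
      have h3 : f.eval r = (f.eval r - f.eval (rs n)) + f.eval (rs n) := by ring
      rw [h3]
      exact dvd_add ((hr n).trans (Polynomial.sub_dvd_eval_sub _ _ _)) (key n).2
    rw [PowerSeries.X_pow_dvd_iff.1 h2 n (by omega), map_zero]

/-- uniqueness of the root -/
theorem hensel_ps_unique [IsDomain R] (f : Polynomial (PowerSeries R)) (r s : PowerSeries R)
    (hrs : constantCoeff r = constantCoeff s)
    (h1 : constantCoeff (f.derivative.eval r) ≠ 0) (hr : f.eval r = 0) (hs : f.eval s = 0) :
    r = s := by
  by_contra hne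
  obtain ⟨k, hk⟩ := Polynomial.binomExpansion f r (s - r)
  rw [add_sub_cancel, hr, hs, zero_add] at hk
  have h2 : (s - r) * (f.derivative.eval r + k * (s - r)) = 0 := by
    rw [hk]; ring
  rcases mul_eq_zero.1 h2 with h3 | h3
  · exact hne (sub_eq_zero.1 h3).symm
  · apply h1
    have h4 := congrArg constantCoeff h3
    rw [map_add, map_mul, map_sub, hrs, sub_self, mul_zero, add_zero, map_zero] at h4
    exact h4

end

end Pool.Agent.K7.H18.NH
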