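import Pool.Agent.K7.H18.NH.Chi
import Pool.Agent.K7.H18.NH.Hensel

/-!
# The behaviour at infinity
-/

set_option autoImplicit false

namespace Pool.Agent.K7.H18.NH

open Polynomial

section
variable {κ : Type} [Fintype κ] [DecidableEq κ] {L : Type} [Field L]

theorem der_prod_ne (a : κ → L) (ha : Function.Injective a) (l : κ) :
    (derivative (∏ i, (X - C (a i)) : L[X])).eval (a l) ≠ 0 := by
  rw [← Finset.mul_prod_erase Finset.univ (fun i => (X - C (a i) : L[X])) (Finset.mem_univ l),
    derivative_mul, eval_add, eval_mul, eval_mul, eval_sub, eval_X, eval_C, sub_self, zero_mul,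
    add_zero, derivative_sub, derivative_X, derivative_C, sub_zero, eval_one, one_mul, eval_prod,
    Finset.prod_ne_zero_iff]
  intro i hi
  rw [eval_sub, eval_X, eval_C, sub_ne_zero]
  exact fun h => (Finset.mem_erase.1 hi).1 (ha h).symm

theorem roots_at_infinity (a β : κ → L) (ha : Function.Injective a) :
    ∃ t : κ → PowerSeries L, (∀ l, PowerSeries.constantCoeff (t l) = a l) ∧
      ∀ l, ((C PowerSeries.X * X + 1) * ∏ i, (X - C (PowerSeries.C (a i))) + C PowerSeries.X *
        ∑ i, C (PowerSeries.C (β i)) * ∏ l ∈ Finset.univ.erase i,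
          (X - C (PowerSeries.C (a l))) : (PowerSeries L)[X]).eval (t l) = 0 := by
  set f : (PowerSeries L)[X] := (C PowerSeries.X * X + 1) * ∏ i, (X - C (PowerSeries.C (a i))) +
    C PowerSeries.X * ∑ i, C (PowerSeries.C (β i)) * ∏ l ∈ Finset.univ.erase i,
      (X - C (PowerSeries.C (a l))) with hf
  have hmap : f.map PowerSeries.constantCoeff = ∏ i, (X - C (a i)) := by
    rw [hf]
    simp only [Polynomial.map_add, Polynomial.map_mul, Polynomial.map_prod, Polynomial.map_sub,
      Polynomial.map_X, Polynomial.map_C, Polynomial.map_sum, Polynomial.map_one,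
      PowerSeries.constantCoeff_X, PowerSeries.constantCoeff_C, C_0, zero_mul, zero_add, one_mul,
      add_zero]
  have key : ∀ l, ∃ r : PowerSeries L, PowerSeries.constantCoeff r = a l ∧ f.eval r = 0 := by
    intro l
    apply hensel_ps f (a l)
    · rw [← eval_map_apply, hmap, PowerSeries.constantCoeff_C, eval_prod]
      exact Finset.prod_eq_zero (Finset.mem_univ l) (by simp)
    · rw [← eval_map_apply, ← derivative_map, hmap, PowerSeries.constantCoeff_C, isUnit_iff_ne_zero]
      exact der_prod_ne a ha l
  choose t ht using key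
  exact ⟨t, fun l => (ht l).1, fun l => (ht l).2⟩

/-- the embedding of power series -/
noncomputable abbrev inc (L : Type) [Field L] : PowerSeries L →+* LaurentSeries L :=
  HahnSeries.ofPowerSeries ℤ L

theorem inc_X : inc L PowerSeries.X = HahnSeries.single (1 : ℤ) (1 : L) := by
  simp [inc]

theorem uinv : HahnSeries.single (-1 : ℤ) (1 : L) * HahnSeries.single (1 : ℤ) (1 : L) = 1 := by
  rw [HahnSeries.single_mul_single]
  simp

/-- substituting `1 / u` -/
noncomputable def sb (L : Type) [Field L] : L[X] →+* LaurentSeries L :=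
  eval₂RingHom HahnSeries.C (HahnSeries.single (-1 : ℤ) (1 : L))

theorem sb_coeff (p : L[X]) (r : ℕ) : (sb L p).coeff (-(r : ℤ)) = p.coeff r := by
  induction p using Polynomial.induction_on' with
  | add p q hp hq => rw [map_add, HahnSeries.coeff_add, hp, hq, coeff_add]
  | monomial n a =>
    unfold sb
    rw [coe_eval₂RingHom, eval₂_monomial, HahnSeries.single_pow, HahnSeries.C_apply,
      HahnSeries.single_mul_single, one_pow, mul_one, zero_add, coeff_monomial]
    by_cases h : n = r
    · subst h
      rw [if_pos rfl]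
      have : (n : ℕ) • (-1 : ℤ) = -(n : ℤ) := by simp
      rw [this, HahnSeries.coeff_single_same]
    · rw [if_neg h, HahnSeries.coeff_single_of_ne]
      simp only [smul_neg, nsmul_eq_mul, mul_one, ne_eq, neg_inj, Nat.cast_inj]
      exact fun h' => h h'.symm

theorem extract {p : L[X]} {g : PowerSeries L} {j : ℕ}
    (h : sb L p * HahnSeries.single (j : ℤ) (1 : L) = inc L g) :
    p.natDegree ≤ j ∧ p.coeff j = PowerSeries.constantCoeff g := by
  have h1 : ∀ r : ℕ, p.coeff r = (inc L g).coeff ((j : ℤ) - r) := by
    intro r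
    rw [← h, ← sb_coeff, show ((j : ℤ) - r) = -(r : ℤ) + j by ring, HahnSeries.coeff_mul_single_add,
      mul_one]
  constructor
  · rw [natDegree_le_iff_coeff_eq_zero]
    intro r hr
    rw [h1, PowerSeries.coeff_coe, if_pos (by omega)]
  · rw [h1, sub_self, PowerSeries.coeff_coe, if_neg (by omega)]
    simp

/-- the leading coefficient belonging to an ordering -/
noncomputable def gam {S : Type} [CommRing S] (a : κ → S) (A : Option κ → S)
    (π : Equiv.Perm (Option κ)) : S := ∏ l : κ, (A (π (some l)) - a l)

/-- the factorisation of `Phi` at infinity -/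
theorem Phi_inf (a β : κ → L) (A : Option κ → L) (ha : Function.Injective a) :
    ∃ G : Equiv.Perm (Option κ) → PowerSeries L,
      (∀ π, PowerSeries.constantCoeff (G π) = gam a A π) ∧
      (Phi a β A).map (sb L) = ∏ π, (X - C (HahnSeries.single (-1 : ℤ) (1 : L) * inc L (G π))) := by
  classical
  obtain ⟨t, ht, ht0⟩ := roots_at_infinity a β ha
  set u : LaurentSeries L := HahnSeries.single (1 : ℤ) (1 : L) with hu
  set v : LaurentSeries L := HahnSeries.single (-1 : ℤ) (1 : L) with hv
  have huv : v * u = 1 := uinv
  have hinc : Function.Injective (inc L) := HahnSeries.ofPowerSeries_injective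
  let q0 : PowerSeries L := 1 + PowerSeries.X * (∑ l, t l - ∑ l, PowerSeries.C (a l))
  have hCa : ∀ b : L, inc L (PowerSeries.C b) = HahnSeries.C b := fun b => by simp [inc]
  -- the roots of chi
  have hroot : ∀ l, (chi (fun l => HahnSeries.C (a l)) (fun l => HahnSeries.C (β l)) v :
      (LaurentSeries L)[X]).eval (inc L (t l)) = 0 := by
    intro l
    have h1 := congrArg (inc L) (ht0 l)
    rw [map_zero, ← eval_map_apply] at h1
    have h2 : ((C PowerSeries.X * X + 1) * ∏ i, (X - C (PowerSeries.C (a i))) + C PowerSeries.X *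
        ∑ i, C (PowerSeries.C (β i)) * ∏ l ∈ Finset.univ.erase i,
          (X - C (PowerSeries.C (a l))) : (PowerSeries L)[X]).map (inc L) =
        C u * chi (fun l => HahnSeries.C (a l)) (fun l => HahnSeries.C (β l)) v := by
      unfold chi
      simp only [Polynomial.map_add, Polynomial.map_mul, Polynomial.map_prod, Polynomial.map_sub,
        Polynomial.map_X, Polynomial.map_C, Polynomial.map_sum, Polynomial.map_one, hCa, inc_X]
      rw [mul_add, ← mul_assoc (C u), mul_add (C u), ← C_mul, mul_comm u v, huv, C_1]
    rw [h2, eval_mul, eval_C] at h1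
    exact (mul_eq_zero.1 h1).resolve_left (right_ne_zero_of_mul_eq_one huv)
  have htinj : Function.Injective (fun l => inc L (t l)) := by
    intro l m h
    apply ha
    rw [← ht, ← ht, hinc h]
  have hfac := chi_factor (fun l => HahnSeries.C (a l)) (fun l => HahnSeries.C (β l)) v
    (fun l => inc L (t l)) htinj hroot
  set x : Option κ → LaurentSeries L := fun l =>
    l.elim (v - ∑ l, HahnSeries.C (a l) + ∑ l, inc L (t l)) (fun l => - inc L (t l)) with hx
  have hx0 : x none = v * inc L q0 := by
    show v - ∑ l, HahnSeries.C (a l) + ∑ l, inc L (t l) = v * inc L q0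
    have : inc L q0 = 1 + u * (∑ l, inc L (t l) - ∑ l, HahnSeries.C (a l)) := by
      show inc L (1 + PowerSeries.X * (∑ l, t l - ∑ l, PowerSeries.C (a l))) = _
      rw [map_add, map_one, map_mul, map_sub, map_sum, map_sum, inc_X]
      simp only [hCa]
      rfl
    rw [this, mul_add, mul_one, ← mul_assoc, huv]
    ring
  let G : Equiv.Perm (Option κ) → PowerSeries L := fun π =>
    (q0 + PowerSeries.X * PowerSeries.C (A (π none))) *
      ∏ l, (PowerSeries.C (A (π (some l))) - t l)
  refine ⟨G, fun π => ?_, ?_⟩
  · show PowerSeries.constantCoeff ((q0 + PowerSeries.X * PowerSeries.C (A (π none))) *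
      ∏ l, (PowerSeries.C (A (π (some l))) - t l)) = gam a A π
    have hq0 : PowerSeries.constantCoeff q0 = 1 := by
      show PowerSeries.constantCoeff (1 + PowerSeries.X *
        (∑ l, t l - ∑ l, PowerSeries.C (a l))) = 1
      simp
    rw [map_mul, map_add, hq0, map_mul, PowerSeries.constantCoeff_X, zero_mul, add_zero, one_mul,
      map_prod]
    unfold gam
    refine Finset.prod_congr rfl fun l _ => ?_
    rw [map_sub, PowerSeries.constantCoeff_C, ht]
  · have h1 : (Phi a β A).map (sb L) = V (chi (fun l => C (HahnSeries.C (a l)))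
        (fun l => C (HahnSeries.C (β l))) (C v)) (fun l => C (HahnSeries.C (A l))) X := by
      have e1 : ∀ b : L, sb L (C b) = HahnSeries.C b := fun b => by
        unfold sb; rw [coe_eval₂RingHom, eval₂_C]
      have e2 : sb L X = v := by
        unfold sb; rw [coe_eval₂RingHom, eval₂_X]
      unfold Phi
      rw [← coe_mapRingHom, V_map, chi_map]
      simp only [coe_mapRingHom, Polynomial.map_C, Polynomial.map_X, e1, e2]
    have h2 : (chi (fun l => C (HahnSeries.C (a l))) (fun l => C (HahnSeries.C (β l))) (C v) :
        (LaurentSeries L)[X][X]) = ∏ l, (X + C (C (x l))) := by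
      have h3 := congrArg (fun p => p.map (C : LaurentSeries L →+* (LaurentSeries L)[X])) hfac
      rw [chi_map, Polynomial.map_prod] at h3
      rw [h3]
      refine Finset.prod_congr rfl fun l _ => ?_
      rw [Polynomial.map_add, Polynomial.map_X, Polynomial.map_C]
    rw [h1, h2, V_split]
    refine Finset.prod_congr rfl fun π _ => ?_
    have h3 : ∏ l, (C (x l) + C (HahnSeries.C (A (π l))) : (LaurentSeries L)[X]) =
        C (∏ l, (x l + HahnSeries.C (A (π l)))) := by
      rw [map_prod]
      exact Finset.prod_congr rfl fun l _ => C_add.symm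
    rw [h3]
    congr 2
    rw [Fintype.prod_option, hx0]
    have h4 : inc L (G π) = (inc L q0 + u * HahnSeries.C (A (π none))) *
        ∏ l, (HahnSeries.C (A (π (some l))) - inc L (t l)) := by
      show inc L ((q0 + PowerSeries.X * PowerSeries.C (A (π none))) *
        ∏ l, (PowerSeries.C (A (π (some l))) - t l)) = _
      rw [map_mul, map_add, map_mul, map_prod, inc_X]
      simp only [hCa, map_sub]
      rfl
    rw [h4, ← mul_assoc, mul_add, ← mul_assoc v u, huv, one_mul]
    congr 1
    refine Finset.prod_congr rfl fun l _ => ?_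
    show - inc L (t l) + HahnSeries.C (A (π (some l))) = _
    ring

theorem NN_pos (κ : Type) [Fintype κ] [DecidableEq κ] : 0 < NN κ := Fintype.card_pos

/-- the total degree bound -/
theorem cc_field (a β : κ → L) (A : Option κ → L) (ha : Function.Injective a) :
    (Phi a β A).natDegree = NN κ ∧ ∀ j ≤ NN κ, (cc a β A j).natDegree ≤ j ∧
      (cc a β A j).coeff j = (∏ π, (X - C (gam a A π))).coeff (NN κ - j) := by
  classical
  obtain ⟨G, hG, hPhi⟩ := Phi_inf a β A ha
  set u : LaurentSeries L := HahnSeries.single (1 : ℤ) (1 : L) with hu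
  set v : LaurentSeries L := HahnSeries.single (-1 : ℤ) (1 : L) with hv
  have huv : v * u = 1 := uinv
  have hsb : Function.Injective (sb L) := by
    rw [injective_iff_map_eq_zero]
    intro p hp
    ext r
    rw [← sb_coeff, hp]; simp
  constructor
  · rw [← natDegree_map_eq_of_injective hsb, hPhi, natDegree_finsetProd_X_sub_C_eq_card,
      Finset.card_univ]
  · intro j hj
    have h1 : (∏ π, (X - C (v * inc L (G π))) : (LaurentSeries L)[X]).comp (C v * X) *
        C (u ^ NN κ) = (∏ π, (X - C (G π)) : (PowerSeries L)[X]).map (inc L) := by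
      rw [prod_comp, Polynomial.map_prod]
      have h2 : (C (u ^ NN κ) : (LaurentSeries L)[X]) =
          ∏ _π : Equiv.Perm (Option κ), C u := by
        rw [Finset.prod_const, Finset.card_univ, C_pow]
      rw [h2, ← Finset.prod_mul_distrib]
      refine Finset.prod_congr rfl fun π _ => ?_
      rw [sub_comp, X_comp, C_comp, Polynomial.map_sub, Polynomial.map_X, Polynomial.map_C]
      rw [sub_mul, mul_assoc, mul_comm X, ← mul_assoc, ← C_mul, huv, C_1, one_mul, ← C_mul,
        mul_assoc, mul_comm (inc L (G π)), ← mul_assoc, huv, one_mul]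
    have h2 := congrArg (fun p => p.coeff (NN κ - j)) h1
    simp only [coeff_mul_C, comp_C_mul_X_coeff, coeff_map] at h2
    rw [← hPhi, coeff_map] at h2
    have h3 : sb L (cc a β A j) * HahnSeries.single (j : ℤ) (1 : L) =
        inc L ((∏ π, (X - C (G π)) : (PowerSeries L)[X]).coeff (NN κ - j)) := by
      rw [← h2]
      have h4 : HahnSeries.single (j : ℤ) (1 : L) = u ^ j := by
        rw [hu, HahnSeries.single_pow, one_pow]; simp
      have h5 : u ^ NN κ = u ^ (NN κ - j) * u ^ j := by
        rw [← pow_add, Nat.sub_add_cancel hj]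
      have h6 : v ^ (NN κ - j) * u ^ (NN κ - j) = 1 := by
        rw [← mul_pow, huv, one_pow]
      rw [h4, h5, mul_assoc, ← mul_assoc (v ^ _), h6, one_mul]
      rfl
    obtain ⟨h4, h5⟩ := extract h3
    refine ⟨h4, ?_⟩
    rw [h5, ← coeff_map, Polynomial.map_prod]
    congr 1
    refine Finset.prod_congr rfl fun π _ => ?_
    rw [Polynomial.map_sub, Polynomial.map_X, Polynomial.map_C, hG]

end

end Pool.Agent.K7.H18.NH
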