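import Pool.Agent.K7.H18.NH.Gen

/-!
# The resolvent is irreducible over every field
-/

set_option autoImplicit false

namespace Pool.Agent.K7.H18.NH

open Polynomial

section
variable {κ : Type} [Fintype κ] [DecidableEq κ]

/-- the rescaled polynomial -/
noncomputable def Qm {S : Type} [CommRing S] (ℓ : S) (a β : κ → S) (A : Option κ → S) : S[X][X] :=
  C (C ℓ) * Psi a β A

theorem Qm_map {S S' : Type} [CommRing S] [CommRing S'] (φ : S →+* S') (ℓ : S) (a β : κ → S)
    (A : Option κ → S) : (Qm ℓ a β A).map (mapRingHom φ) =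
      Qm (φ ℓ) (fun l => φ (a l)) (fun l => φ (β l)) (fun l => φ (A l)) := by
  unfold Qm
  rw [Polynomial.map_mul, Psi_map, map_C, coe_mapRingHom, map_C]

/-- the resolvent -/
noncomputable def hres {S : Type} [CommRing S] (ℓ : S) (a β : κ → S) (A : Option κ → S)
    (cw : Equiv.Perm (Option κ) → S) : S[X][X] :=
  H ((Qm ℓ a β A).map C) (fun π => C (C (cw π))) X

theorem hres_map {S S' : Type} [CommRing S] [CommRing S'] (φ : S →+* S') (ℓ : S) (a β : κ → S)
    (A : Option κ → S) (cw : Equiv.Perm (Option κ) → S) :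
    (hres ℓ a β A cw).map (mapRingHom φ) =
      hres (φ ℓ) (fun l => φ (a l)) (fun l => φ (β l)) (fun l => φ (A l)) (fun π => φ (cw π)) := by
  unfold hres
  rw [← coe_mapRingHom, H_map, coe_mapRingHom, Polynomial.map_map, Polynomial.map_X]
  congr 1
  · rw [← Qm_map, Polynomial.map_map]
    congr 1
    apply RingHom.ext
    intro p
    rw [RingHom.comp_apply, RingHom.comp_apply, coe_mapRingHom, map_C]
  · funext π
    rw [map_C, coe_mapRingHom, map_C]

theorem hres_split {S E : Type} [CommRing S] [CommRing E] (ψ : S[X] →+* E) (ℓ : S) (a β : κ → S)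
    (A : Option κ → S) (cw : Equiv.Perm (Option κ) → S) (η : Equiv.Perm (Option κ) → E)
    (h : (Qm ℓ a β A).map ψ = ∏ π, (X - C (η π))) :
    (hres ℓ a β A cw).map ψ =
      ∏ g : Equiv.Perm (Equiv.Perm (Option κ)), (X - C (∑ π, ψ (C (cw π)) * η (g π))) := by
  unfold hres
  rw [← coe_mapRingHom, H_map, coe_mapRingHom, Polynomial.map_map, Polynomial.map_X]
  have h1 : (Qm ℓ a β A).map ((mapRingHom ψ).comp C) = ∏ π, (X - C (C (η π))) := by
    have h2 : (mapRingHom ψ).comp C = (C : E →+* E[X]).comp ψ := by
      apply RingHom.ext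
      intro p
      rw [RingHom.comp_apply, RingHom.comp_apply, coe_mapRingHom, map_C]
    rw [h2, ← Polynomial.map_map, h, Polynomial.map_prod]
    refine Finset.prod_congr rfl fun π _ => ?_
    rw [Polynomial.map_sub, map_X, map_C]
  rw [h1, H_split]
  refine Finset.prod_congr rfl fun g _ => ?_
  rw [map_sum]
  congr 1
  refine Finset.sum_congr rfl fun π _ => ?_
  rw [map_C, C_mul]

/-- polynomials among power series -/
theorem toPS_of_map {O W : Type} [CommRing O] [CommRing W] (j : O →+* W)
    (hj : Function.Injective j) (s : PowerSeries O) (p : W[X])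
    (h : PowerSeries.map j s = toPS W p) : ∃ p' : O[X], toPS O p' = s := by
  refine ⟨PowerSeries.trunc (p.natDegree + 1) s, ?_⟩
  ext n
  show PowerSeries.coeff n ((PowerSeries.trunc (p.natDegree + 1) s : O[X]) : PowerSeries O) = _
  rw [Polynomial.coeff_coe, PowerSeries.coeff_trunc]
  split_ifs with h1
  · rfl
  · apply hj
    have h2 := congrArg (PowerSeries.coeff n) h
    rw [PowerSeries.coeff_map] at h2
    rw [map_zero, h2]
    show _ = PowerSeries.coeff n (p : PowerSeries W)
    rw [Polynomial.coeff_coe, coeff_eq_zero_of_natDegree_lt (by omega)]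

theorem toPS_map {O W : Type} [CommRing O] [CommRing W] (j : O →+* W) :
    (toPS W).comp (mapRingHom j) = (PowerSeries.map j).comp (toPS O) := by
  apply RingHom.ext
  intro p
  ext n
  show PowerSeries.coeff n ((p.map j : W[X]) : PowerSeries W) =
    PowerSeries.coeff n (PowerSeries.map j (p : PowerSeries O))
  rw [Polynomial.coeff_coe, coeff_map, PowerSeries.coeff_map, Polynomial.coeff_coe]

/-- a set of orderings which is invariant under the special transpositions -/
theorem invariant_swap {k : Type} [Field k] [IsAlgClosed k] (a : κ → k) (A : Option κ → k)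
    (ha : Function.Injective a)
    (hA : Function.Injective A) (hg0 : ∀ π, gam a A π ≠ 0) (hg : Function.Injective (gam a A))
    (i : κ) (b : k) (c : PowerSeries k) (hc : c ≠ 0)
    (η : Equiv.Perm (Option κ) → PowerSeries k)
    (h0 : ∀ π, PowerSeries.constantCoeff (η π) = (gam a A π)⁻¹)
    (h2 : (Psi a (bet i b) A).map (toPS k) = C c * ∏ π, (X - C (η π)))
    (π : Equiv.Perm (Option κ)) (hgood : Good a A i b π) (cw : Equiv.Perm (Option κ) → k)
    (hcw : Function.Injective (fun g : Equiv.Perm (Equiv.Perm (Option κ)) =>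
      ∑ π, cw π * (gam a A (g π))⁻¹))
    (t : Finset (Equiv.Perm (Equiv.Perm (Option κ)))) (p : k[X][X])
    (hp : p.map (toPS k) = ∏ g ∈ t, (X - C (∑ π, PowerSeries.C (cw π) * η (g π)))) :
    ∀ g ∈ t, Equiv.swap π (sw i π) * g ∈ t := by
  classical
  set f1 : k[X] →+* LaurentSeries k := (inc k).comp (toPS k) with hf1
  have hinj : Function.Injective (inc k) := HahnSeries.ofPowerSeries_injective
  let G : (MvPolynomial (Equiv.Perm (Option κ)) k[X])[X] :=
    ∏ g ∈ t, (X - C (∑ π, MvPolynomial.C (C (cw π)) * MvPolynomial.X (g π)))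
  have hGe : ∀ v : Equiv.Perm (Option κ) → LaurentSeries k,
      G.map (MvPolynomial.eval₂Hom f1 v) = ∏ g ∈ t, (X - C (∑ π, f1 (C (cw π)) * v (g π))) := by
    intro v
    rw [Polynomial.map_prod]
    refine Finset.prod_congr rfl fun g _ => ?_
    rw [Polynomial.map_sub, map_X, map_C, map_sum]
    congr 2
    refine Finset.sum_congr rfl fun ρ _ => ?_
    rw [map_mul, MvPolynomial.coe_eval₂Hom, MvPolynomial.eval₂_C, MvPolynomial.eval₂_X]
  have hpf : p.map f1 = ∏ g ∈ t, (X - C (∑ π, f1 (C (cw π)) * inc k (η (g π)))) := by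
    rw [hf1, ← Polynomial.map_map, hp, Polynomial.map_prod]
    refine Finset.prod_congr rfl fun g _ => ?_
    rw [Polynomial.map_sub, map_X, map_C, map_sum]
    congr 2
    refine Finset.sum_congr rfl fun ρ _ => ?_
    rw [map_mul, RingHom.comp_apply]
    have : toPS k (C (cw ρ)) = PowerSeries.C (cw ρ) := Polynomial.coe_C _
    rw [this]
  have hrel : ∀ n, (G.coeff n - MvPolynomial.C (p.coeff n)).eval₂ f1
      (fun ρ => inc k (η (Equiv.swap π (sw i π) ρ))) = 0 := by
    intro n
    apply spec_swap a A ha hA hg0 hg i b c hc η h0 h2 π hgood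
    have e1 := congrArg (fun q => q.coeff n) (hGe (fun ρ => inc k (η ρ)))
    have e2 := congrArg (fun q => q.coeff n) hpf
    simp only [coeff_map] at e1 e2
    rw [← MvPolynomial.coe_eval₂Hom, map_sub, e1, MvPolynomial.coe_eval₂Hom,
      MvPolynomial.eval₂_C, e2, sub_self]
  have hkey : ∏ g ∈ t, (X - C (∑ ρ, f1 (C (cw ρ)) *
      inc k (η (Equiv.swap π (sw i π) (g ρ))))) =
      ∏ g ∈ t, (X - C (∑ π, f1 (C (cw π)) * inc k (η (g π)))) := by
    rw [← hpf, ← hGe (fun ρ => inc k (η (Equiv.swap π (sw i π) ρ)))]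
    ext1 n
    have e1 := hrel n
    rw [← MvPolynomial.coe_eval₂Hom, map_sub, sub_eq_zero] at e1
    rw [coeff_map, coeff_map, e1, MvPolynomial.coe_eval₂Hom, MvPolynomial.eval₂_C]
  intro g hg1
  set τ := Equiv.swap π (sw i π) with hτ
  have e1 := congrArg (fun q => q.eval (∑ ρ, f1 (C (cw ρ)) * inc k (η (τ (g ρ))))) hkey
  simp only [eval_prod, eval_sub, eval_X, eval_C] at e1
  rw [Finset.prod_eq_zero hg1 (sub_self _)] at e1
  obtain ⟨g', hg', hgg⟩ := Finset.prod_eq_zero_iff.1 e1.symm
  rw [sub_eq_zero] at hgg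
  have e2 : ∀ v : Equiv.Perm (Option κ) → PowerSeries k, ∑ ρ, f1 (C (cw ρ)) * inc k (v ρ) =
      inc k (∑ ρ, PowerSeries.C (cw ρ) * v ρ) := by
    intro v
    rw [map_sum]
    refine Finset.sum_congr rfl fun ρ _ => ?_
    have : toPS k (C (cw ρ)) = PowerSeries.C (cw ρ) := Polynomial.coe_C _
    rw [map_mul, hf1, RingHom.comp_apply, this]
  rw [e2 (fun ρ => η (τ (g ρ))), e2 (fun ρ => η (g' ρ))] at hgg
  have e3 := congrArg PowerSeries.constantCoeff (hinj hgg)
  simp only [map_sum, map_mul, PowerSeries.constantCoeff_C, h0] at e3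
  have e4 : τ * g = g' := hcw e3
  rw [e4]
  exact hg'

/-- the parameters of the family -/
noncomputable def bfam {k0 : Type} [Field k0] (a bb : κ → k0) : κ → k0[X] := fun l =>
  C (bb l) * Lagrange.basis Finset.univ a l

theorem bfam_eval {k0 : Type} [Field k0] (a bb : κ → k0) (ha : Function.Injective a) (i : κ) :
    (fun l => (bfam a bb l).eval (a i)) = bet i (bb i) := by
  funext l
  unfold bfam bet
  rw [eval_mul, eval_C]
  split_ifs with h
  · subst h
    rw [Lagrange.eval_basis_self ha.injOn (Finset.mem_univ _), mul_one]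
  · rw [Lagrange.eval_basis_of_ne h (Finset.mem_univ _), mul_zero]

theorem hres_irreducible {k0 W kk : Type} [Field k0] [Field W] [Field kk] [IsAlgClosed kk]
    (al : k0 →+* kk) (j : k0[X] →+* W)
    (hj : Function.Injective j) (a bb : κ → k0) (A : Option κ → k0) (ha : Function.Injective a)
    (hA : Function.Injective A) (hg0 : ∀ π, gam a A π ≠ 0) (hg : Function.Injective (gam a A))
    (hgood : ∀ i π, Good (fun l => al (a l)) (fun l => al (A l)) i (al (bb i)) π)
    (cw : Equiv.Perm (Option κ) → k0)
    (hcw : Function.Injective (fun g : Equiv.Perm (Equiv.Perm (Option κ)) =>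
      ∑ π, cw π * (gam a A (g π))⁻¹)) :
    Irreducible ((hres (C (∏ π, (- gam a A π))⁻¹) (fun l => C (a l)) (bfam a bb)
      (fun l => C (A l)) (fun π => C (cw π))).map (mapRingHom j)) := by
  classical
  have hℓ0 : (∏ π, (- gam a A π)) ≠ 0 := Finset.prod_ne_zero_iff.2 fun π _ => neg_ne_zero.2 (hg0 π)
  obtain ⟨η, h0, -, h2⟩ := roots_ps (C : k0 →+* k0[X]) a A (bfam a bb) ha hg0 hg
  have hCO : ∀ x : k0[X], toPS k0[X] (C x) = PowerSeries.C x := fun x => Polynomial.coe_C x
  have hQ : (Qm (C (∏ π, (- gam a A π))⁻¹) (fun l => C (a l)) (bfam a bb)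
      (fun l => C (A l))).map (toPS k0[X]) = ∏ π, (X - C (η π)) := by
    unfold Qm
    rw [Polynomial.map_mul, h2, map_C, hCO, ← mul_assoc, ← C_mul, ← map_mul, ← map_mul,
      inv_mul_cancel₀ hℓ0]
    simp
  set hO := hres (C (∏ π, (- gam a A π))⁻¹) (fun l => C (a l)) (bfam a bb)
      (fun l => C (A l)) (fun π => C (cw π)) with hhO
  set θ : Equiv.Perm (Equiv.Perm (Option κ)) → PowerSeries k0[X] := fun g =>
    ∑ π, PowerSeries.C (C (cw π)) * η (g π) with hθ
  have hsplit : hO.map (toPS k0[X]) = ∏ g, (X - C (θ g)) := by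
    rw [hhO, hres_split (toPS k0[X]) _ _ _ _ _ η hQ]
    simp only [hCO, hθ]
  have hOm : hO.Monic := by
    apply monic_of_injective toPS_inj
    rw [hsplit]
    exact monic_prod_X_sub_C _ _
  have hjinj : Function.Injective (mapRingHom j) := by
    rw [coe_mapRingHom]; exact map_injective _ hj
  set h := hO.map (mapRingHom j) with hh
  have hm : h.Monic := hOm.map _
  have hpsinj : Function.Injective (PowerSeries.map j) := by
    intro s s' hss
    ext1 n
    apply hj
    rw [← PowerSeries.coeff_map, hss, PowerSeries.coeff_map]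
  have hsplit' : h.map (toPS W) = ∏ g, (X - C (PowerSeries.map j (θ g))) := by
    rw [hh, Polynomial.map_map, toPS_map, ← Polynomial.map_map, hsplit, Polynomial.map_prod]
    refine Finset.prod_congr rfl fun g _ => ?_
    rw [Polynomial.map_sub, map_X, map_C]
  have hdeg : h.natDegree = Fintype.card (Equiv.Perm (Equiv.Perm (Option κ))) := by
    rw [← natDegree_map_eq_of_injective toPS_inj, hsplit', natDegree_finsetProd_X_sub_C_eq_card,
      Finset.card_univ]
  have hne1 : h ≠ 1 := by
    intro h1
    rw [h1, natDegree_one] at hdeg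
    exact Fintype.card_ne_zero hdeg.symm
  rw [irreducible_of_monic hm hne1]
  intro f g hf hg' hfg
  have e1 : f.map (toPS W) * g.map (toPS W) = 1 * ∏ g, (X - C (PowerSeries.map j (θ g))) := by
    rw [one_mul, ← hsplit', ← hfg, Polynomial.map_mul]
  obtain ⟨t, u, b, c, htu, hdisj, hbc, hft, hgu⟩ := mul_eq_mul_prime_prod
    (fun i _ => prime_X_sub_C (PowerSeries.map j (θ i))) e1
  have hb : b = 1 := by
    have e2 : b.Monic := Monic.of_mul_monic_right (monic_prod_X_sub_C _ _)
      (by rw [← hft]; exact hf.map _)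
    exact e2.eq_one_of_isUnit (IsUnit.of_mul_eq_one c hbc.symm)
  have hc1 : c = 1 := by rw [hb, one_mul] at hbc; exact hbc.symm
  rw [hb, one_mul] at hft
  rw [hc1, one_mul] at hgu
  -- the coefficients are polynomials
  obtain ⟨p, hp⟩ : ∃ p : k0[X][X][X], p.map (toPS k0[X]) = ∏ g ∈ t, (X - C (θ g)) := by
    rw [← mem_lifts, lifts_iff_coeff_lifts]
    intro n
    have e3 : (∏ g ∈ t, (X - C (θ g))).map (PowerSeries.map j) = f.map (toPS W) := by
      rw [hft, Polynomial.map_prod]
      refine Finset.prod_congr rfl fun g _ => ?_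
      rw [Polynomial.map_sub, map_X, map_C]
    have e4 := congrArg (fun q => q.coeff n) e3
    simp only [coeff_map] at e4
    obtain ⟨p', hp'⟩ := toPS_of_map j hj _ _ e4
    exact ⟨p', hp'⟩
  -- specialisation
  have hstable : ∀ (i : κ) (π : Equiv.Perm (Option κ)), ∀ g ∈ t, Equiv.swap π (sw i π) * g ∈ t := by
    intro i π
    set ev : k0[X] →+* kk := al.comp (evalRingHom (a i)) with hev
    have hevC : ∀ x, ev (C x) = al x := fun x => by
      rw [hev, RingHom.comp_apply, coe_evalRingHom, eval_C]
    have hgal : ∀ π, gam (fun l => al (a l)) (fun l => al (A l)) π = al (gam a A π) := fun π =>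
      (gam_map al a A π).symm
    refine invariant_swap (fun l => al (a l)) (fun l => al (A l)) ?_ ?_ ?_ ?_ i (al (bb i))
      (PowerSeries.C (al (∏ π, (- gam a A π)))) ?_ (fun π => PowerSeries.map ev (η π)) ?_ ?_ π
      (hgood i π) (fun π => al (cw π)) ?_ t (p.map (mapRingHom ev)) ?_
    · exact fun l m e => ha (al.injective e)
    · exact fun l m e => hA (al.injective e)
    · intro π
      rw [hgal]
      exact (_root_.map_ne_zero _).2 (hg0 π)
    · intro π ρ e
      simp only [hgal] at e
      exact hg (al.injective e)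
    · intro e
      have := congrArg PowerSeries.constantCoeff e
      rw [PowerSeries.constantCoeff_C, map_zero] at this
      exact (_root_.map_ne_zero _).2 hℓ0 this
    · intro π
      rw [hgal, ← map_inv₀, ← hevC, ← h0, ← PowerSeries.coeff_zero_eq_constantCoeff_apply,
        PowerSeries.coeff_map, PowerSeries.coeff_zero_eq_constantCoeff_apply]
    · have e5 := congrArg (fun q => q.map (PowerSeries.map ev)) h2
      simp only [Polynomial.map_map, ← toPS_map] at e5
      rw [← Polynomial.map_map, Psi_map, Polynomial.map_mul, Polynomial.map_prod, map_C,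
        PowerSeries.map_C] at e5
      simp only [hevC, Polynomial.map_sub, map_X, map_C] at e5
      have e6 : (fun l => ev (bfam a bb l)) = bet i (al (bb i)) := by
        have := bfam_eval a bb ha i
        funext l
        have e7 := congrFun this l
        rw [hev, RingHom.comp_apply, coe_evalRingHom]
        show al ((bfam a bb l).eval (a i)) = _
        rw [e7]
        unfold bet
        split_ifs
        · rfl
        · exact map_zero _
      rw [e6] at e5
      exact e5
    · intro g g' e
      apply hcw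
      apply al.injective
      simp only [hgal] at e
      simp only [map_sum, map_mul, map_inv₀]
      exact e
    · have e5 := congrArg (fun q => q.map (PowerSeries.map ev)) hp
      simp only [Polynomial.map_map, ← toPS_map] at e5
      rw [← Polynomial.map_map, Polynomial.map_prod] at e5
      rw [e5]
      refine Finset.prod_congr rfl fun g _ => ?_
      rw [Polynomial.map_sub, map_X, map_C, hθ]
      simp only [map_sum, map_mul, PowerSeries.map_C, hevC]
  rcases t.eq_empty_or_nonempty with ht | ht
  · left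
    apply map_injective _ toPS_inj
    rw [hft, ht, Finset.prod_empty, Polynomial.map_one]
  · right
    have ht' := stable_all t hstable ht
    have hu : u = ∅ := by
      rw [ht'] at hdisj
      exact Finset.eq_empty_of_forall_notMem fun x hx =>
        Finset.disjoint_left.1 hdisj (Finset.mem_univ x) hx
    apply map_injective _ toPS_inj
    rw [hgu, hu, Finset.prod_empty, Polynomial.map_one]

end

end Pool.Agent.K7.H18.NH
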