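import Pool.Agent.K7.H18.NH.Roots

/-!
# The special quadratic polynomials and their local behaviour
-/

set_option autoImplicit false

namespace Pool.Agent.K7.H18.NH

open Polynomial

/-- the special quadratic polynomial, as a function of `(z, η)` -/
def qv {E : Type} [CommRing E] (c d d' a b z η : E) : E :=
  ((1 - c * z * (b + d * d')) - d * (c * (η + a * z))) *
    ((1 - c * z * (b + d * d')) - d' * (c * (η + a * z))) + c ^ 2 * z ^ 2 * (d - d') ^ 2 * b

theorem qv_symm {E : Type} [CommRing E] (c d d' a b z η : E) :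
    qv c d d' a b z η = qv c d' d a b z η := by
  unfold qv; ring

theorem qv_map {E E' : Type} [CommRing E] [CommRing E'] (φ : E →+* E') (c d d' a b z η : E) :
    φ (qv c d d' a b z η) = qv (φ c) (φ d) (φ d') (φ a) (φ b) (φ z) (φ η) := by
  unfold qv
  simp only [map_add, map_mul, map_sub, map_pow, map_one]

/-- the special quadratic polynomial -/
noncomputable def qt {S : Type} [CommRing S] (c d d' a b : S) : S[X][X] :=
  qv (C (C c)) (C (C d)) (C (C d')) (C (C a)) (C (C b)) (C X) X

/-- its middle coefficient -/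
def qm {E : Type} [CommRing E] (c d d' a b z : E) : E :=
  c * (2 * (d * d') * (c * (a * z)) - (d + d') * (1 - c * z * (b + d * d')))

/-- its constant coefficient -/
def qc {E : Type} [CommRing E] (c d d' a b z : E) : E :=
  (1 - c * z * (b + d * d')) ^ 2 - (d + d') * (1 - c * z * (b + d * d')) * (c * (a * z)) +
    d * d' * (c * (a * z)) ^ 2 + c ^ 2 * z ^ 2 * (d - d') ^ 2 * b

theorem qv_eq {E : Type} [CommRing E] (c d d' a b z η : E) :
    qv c d d' a b z η = d * d' * c ^ 2 * η ^ 2 + qm c d d' a b z * η + qc c d d' a b z := by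
  unfold qv qm qc; ring

theorem qm_map {E E' : Type} [CommRing E] [CommRing E'] (φ : E →+* E') (c d d' a b z : E) :
    φ (qm c d d' a b z) = qm (φ c) (φ d) (φ d') (φ a) (φ b) (φ z) := by
  unfold qm
  simp only [map_add, map_mul, map_sub, map_one, map_ofNat]

theorem qc_map {E E' : Type} [CommRing E] [CommRing E'] (φ : E →+* E') (c d d' a b z : E) :
    φ (qc c d d' a b z) = qc (φ c) (φ d) (φ d') (φ a) (φ b) (φ z) := by
  unfold qc
  simp only [map_add, map_mul, map_sub, map_pow, map_one]

theorem q_disc {E : Type} [CommRing E] (c d d' a b z : E) :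
    qm c d d' a b z ^ 2 - 4 * (d * d' * c ^ 2) * qc c d d' a b z =
      c ^ 2 * (d - d') ^ 2 * ((1 - c * z * (b + d * d')) ^ 2 - 4 * (d * d') * c ^ 2 * z ^ 2 * b) := by
  unfold qm qc; ring

theorem qt_eval {S E : Type} [CommRing S] [CommRing E] (φ : S[X] →+* E) (c d d' a b : S) (η : E) :
    (qt c d d' a b).eval₂ φ η = qv (φ (C c)) (φ (C d)) (φ (C d')) (φ (C a)) (φ (C b)) (φ X) η := by
  unfold qt
  rw [← coe_eval₂RingHom, qv_map]
  simp only [coe_eval₂RingHom, eval₂_C, eval₂_X]

theorem qt_eq {S : Type} [CommRing S] (c d d' a b : S) : qt c d d' a b =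
    C (C (d * d' * c ^ 2)) * X ^ 2 + C (qm (C c) (C d) (C d') (C a) (C b) X) * X +
      C (qc (C c) (C d) (C d') (C a) (C b) X) := by
  unfold qt
  rw [qv_eq, ← qm_map C, ← qc_map C]
  simp only [C_mul, C_pow]

theorem qt_natDegree {S : Type} [CommRing S] (c d d' a b : S) (h : d * d' * c ^ 2 ≠ 0) :
    (qt c d d' a b).natDegree = 2 := by
  rw [qt_eq]
  apply natDegree_quadratic
  rwa [Ne, C_eq_zero]

section
variable {k : Type} [Field k]

/-- the expansion at the point `z₁` -/
theorem taylor_k_inj (z1 : k) : Function.Injective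
    (eval₂RingHom PowerSeries.C (PowerSeries.C z1 + PowerSeries.X) : k[X] →+* PowerSeries k) := by
  have h1 : (eval₂RingHom PowerSeries.C (PowerSeries.C z1 + PowerSeries.X) : k[X] →+* PowerSeries k) =
      (toPS k).comp (compRingHom (X + C z1)) := by
    apply Polynomial.ringHom_ext
    · intro a
      simp [toPS]
    · simp [toPS, add_comm]
  rw [h1, RingHom.coe_comp]
  refine toPS_inj.comp ?_
  intro p q h
  apply taylor_injective z1
  rw [taylor_apply, taylor_apply]
  exact h

/-- the quadratic polynomial splits over power series when its discriminant does not vanish -/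
theorem quad_splits [IsAlgClosed k] (a b c : PowerSeries k)
    (ha : PowerSeries.constantCoeff a ≠ 0)
    (hd : PowerSeries.constantCoeff b ^ 2 -
      4 * PowerSeries.constantCoeff a * PowerSeries.constantCoeff c ≠ 0) :
    ((C a * X ^ 2 + C b * X + C c : (PowerSeries k)[X]).map (inc k)).Splits := by
  set f : (PowerSeries k)[X] := C a * X ^ 2 + C b * X + C c with hf
  have hmap : f.map PowerSeries.constantCoeff = C (PowerSeries.constantCoeff a) * X ^ 2 +
      C (PowerSeries.constantCoeff b) * X + C (PowerSeries.constantCoeff c) := by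
    rw [hf]
    simp only [Polynomial.map_add, Polynomial.map_mul, Polynomial.map_C, Polynomial.map_pow,
      Polynomial.map_X]
  have hdeg : (f.map PowerSeries.constantCoeff).natDegree = 2 := by
    rw [hmap]; exact natDegree_quadratic ha
  obtain ⟨r0, hr0⟩ := IsAlgClosed.exists_root (f.map PowerSeries.constantCoeff) (by
    intro h
    have := natDegree_eq_of_degree_eq_some h
    rw [hdeg] at this
    exact absurd this (by norm_num))
  have hr0' : (f.map PowerSeries.constantCoeff).eval r0 = 0 := hr0
  have hder : (derivative (f.map PowerSeries.constantCoeff)).eval r0 ≠ 0 := by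
    intro h
    apply hd
    rw [hmap] at h hr0'
    simp only [eval_add, eval_mul, eval_C, eval_pow, eval_X, derivative_add, derivative_mul,
      derivative_C, derivative_X_pow, derivative_X, zero_mul, zero_add, mul_one,
      add_zero, Nat.cast_ofNat, Nat.add_one_sub_one, pow_one] at h hr0'
    have h' : PowerSeries.constantCoeff a * (2 * r0) + PowerSeries.constantCoeff b = 0 := h
    linear_combination (PowerSeries.constantCoeff a * (2 * r0) + PowerSeries.constantCoeff b) * h' -
      4 * PowerSeries.constantCoeff a * hr0'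
  obtain ⟨r, -, hr⟩ := hensel_ps f r0 (by
    rw [← eval_map_apply, PowerSeries.constantCoeff_C]; exact hr0') (by
    rw [← eval_map_apply, ← derivative_map, PowerSeries.constantCoeff_C, isUnit_iff_ne_zero]
    exact hder)
  have hinj : Function.Injective (inc k) := HahnSeries.ofPowerSeries_injective
  apply Splits.of_natDegree_eq_two (x := inc k r)
  · rw [natDegree_map_eq_of_injective hinj, hf]
    apply natDegree_quadratic
    rintro rfl
    exact ha (map_zero _)
  · rw [eval_map_apply, hr, map_zero]

/-- a ramified quadratic polynomial has no root -/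
theorem no_root (a α γ γ' : k) (ha : a ≠ 0) (hγ : γ ≠ 0) (h : LaurentSeries k) :
    inc k (PowerSeries.C a) * h ^ 2 + inc k (PowerSeries.C α) * inc k PowerSeries.X * h +
      inc k PowerSeries.X * (inc k (PowerSeries.C γ) + inc k PowerSeries.X * inc k (PowerSeries.C γ'))
      ≠ 0 := by
  intro h0
  have halg : algebraMap (PowerSeries k) (LaurentSeries k) = inc k := rfl
  have hinj : Function.Injective (inc k) := HahnSeries.ofPowerSeries_injective
  have hint : IsIntegral (PowerSeries k) h := by
    refine ⟨X ^ 2 + C (PowerSeries.C (a⁻¹ * α) * PowerSeries.X) * X +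
      C (PowerSeries.C a⁻¹ * (PowerSeries.X * (PowerSeries.C γ + PowerSeries.X * PowerSeries.C γ'))),
      ?_, ?_⟩
    · have : (X ^ 2 + C (PowerSeries.C (a⁻¹ * α) * PowerSeries.X) * X +
          C (PowerSeries.C a⁻¹ * (PowerSeries.X * (PowerSeries.C γ + PowerSeries.X *
            PowerSeries.C γ'))) : (PowerSeries k)[X]) =
          C 1 * X ^ 2 + C (PowerSeries.C (a⁻¹ * α) * PowerSeries.X) * X +
          C (PowerSeries.C a⁻¹ * (PowerSeries.X * (PowerSeries.C γ + PowerSeries.X *
            PowerSeries.C γ'))) := by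
        rw [C_1, one_mul]
      rw [this]
      unfold Monic
      exact leadingCoeff_quadratic one_ne_zero
    · rw [halg]
      simp only [eval₂_add, eval₂_mul, eval₂_C, eval₂_pow, eval₂_X, map_mul, map_add]
      have h1 : inc k (PowerSeries.C a⁻¹) * inc k (PowerSeries.C a) = 1 := by
        rw [← map_mul, ← map_mul, inv_mul_cancel₀ ha, map_one, map_one]
      linear_combination inc k (PowerSeries.C a⁻¹) * h0 - h ^ 2 * h1
  obtain ⟨g, rfl⟩ := IsIntegrallyClosed.algebraMap_eq_of_integral hint
  rw [halg] at h0
  have h1 : PowerSeries.C a * g ^ 2 + PowerSeries.C α * PowerSeries.X * g +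
      PowerSeries.X * (PowerSeries.C γ + PowerSeries.X * PowerSeries.C γ') = 0 := by
    apply hinj
    rw [map_zero, ← h0]
    simp only [map_add, map_mul, map_pow]
  have h2 := congrArg PowerSeries.constantCoeff h1
  simp only [map_add, map_mul, map_pow, PowerSeries.constantCoeff_C, PowerSeries.constantCoeff_X,
    mul_zero, zero_mul, add_zero, map_zero] at h2
  have h3 : PowerSeries.constantCoeff g = 0 := by
    rcases mul_eq_zero.1 h2 with h | h
    · exact absurd h ha
    · exact pow_eq_zero_iff (by norm_num) |>.1 h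
  obtain ⟨g', rfl⟩ := PowerSeries.X_dvd_iff.2 h3
  have h4 : PowerSeries.X * (PowerSeries.C a * PowerSeries.X * g' ^ 2 +
      PowerSeries.C α * PowerSeries.X * g' +
      (PowerSeries.C γ + PowerSeries.X * PowerSeries.C γ')) = 0 := by
    rw [← h1]; ring
  rcases mul_eq_zero.1 h4 with h5 | h5
  · exact PowerSeries.X_ne_zero h5
  · have h6 := congrArg PowerSeries.constantCoeff h5
    simp only [map_add, map_mul, map_pow, PowerSeries.constantCoeff_C, PowerSeries.constantCoeff_X,
      mul_zero, zero_mul, add_zero, map_zero, zero_add] at h6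
    exact hγ h6

/-- the expansion at the double root -/
theorem qv_expand {E : Type} [CommRing E] (c d d' a ε z1 ζ h : E)
    (hz : z1 * (c * (d * d') * (1 + ε) ^ 2) = 1) :
    qv c d d' a (ε ^ 2 * (d * d')) (z1 + ζ) (z1 * (ε * (d + d') - a) + h) =
      d * d' * c ^ 2 * h ^ 2 + ((d + d') * (c * (ε ^ 2 * (d * d') + d * d')) * c +
        2 * (d * d') * c ^ 2 * a) * ζ * h +
      ζ * (c * ε * (d - d') ^ 2 + ζ * ((c * (ε ^ 2 * (d * d') + d * d')) ^ 2 +
        (d + d') * (c * (ε ^ 2 * (d * d') + d * d')) * c * a + d * d' * c ^ 2 * a ^ 2 +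
        c ^ 2 * (d - d') ^ 2 * (ε ^ 2 * (d * d')))) := by
  have hW : 1 - c * (z1 + ζ) * (ε ^ 2 * (d * d') + d * d') =
      2 * ε * c * (d * d') * z1 - c * (ε ^ 2 * (d * d') + d * d') * ζ := by
    linear_combination -hz
  unfold qv
  rw [hW]
  linear_combination (ζ * (c * ε * (d - d') ^ 2)) * hz

end

end Pool.Agent.K7.H18.NH
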