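import Pool.Agent.K7.H18.NH.Config2
import Pool.Agent.K7.H18.NG.FinCyc
import Pool.Agent.K7.H18.NG.Main

/-!
# Transfer to finite fields
-/

set_option autoImplicit false

namespace Pool.Agent.K7.H18.NH

open Polynomial NG Filter

/-- the configuration in a uniform format -/
theorem config_uniform {K F : Type} [Field K] [Field F] [Algebra K F] {n : ℕ}
    (c : Cyc K F (n + 1)) (hn : 1 ≤ n) (hPAC : PAC K) [Uncountable K] :
    ∃ (A : Fin (n + 1).factorial → F) (B b : Fin (n + 1) → F), Function.Injective A ∧
      Function.Injective B ∧ (∀ j, b j ≠ 0) ∧ (∀ j, c.σ (b j) = b j) ∧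
      ∀ s j, c.N (A s + B j) = b j := by
  classical
  obtain ⟨a, bc, w0, Xp, h1, h2, h3, h4, h5, h6, h7⟩ := config_fact c hn hPAC
  have hcard : Fintype.card (Equiv.Perm (Option (Fin n))) = (n + 1).factorial := by
    rw [Fintype.card_perm, Fintype.card_option, Fintype.card_fin]
  let e := (Fintype.equivFinOfCardEq hcard).symm
  refine ⟨fun s => Xp (e s), Fin.cons c.β (fun i => algebraMap K F (a i)),
    Fin.cons (algebraMap K F w0) (fun i => algebraMap K F (bc i)), ?_, ?_, ?_, ?_, ?_⟩
  · exact h4.comp e.injective
  · intro i j hij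
    revert hij
    refine Fin.cases ?_ (fun i => ?_) i
    · refine Fin.cases (fun _ => rfl) (fun j hij => ?_) j
      exact absurd hij (h7 j)
    · refine Fin.cases (fun hij => ?_) (fun j hij => ?_) j
      · exact absurd hij.symm (h7 i)
      · have h8 : algebraMap K F (a i) = algebraMap K F (a j) := hij
        exact congrArg Fin.succ (h1 ((algebraMap K F).injective h8))
  · intro j
    refine Fin.cases ?_ (fun j => ?_) j
    · exact (_root_.map_ne_zero _).2 h3
    · exact (_root_.map_ne_zero _).2 (h2 j)
  · intro j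
    refine Fin.cases ?_ (fun j => ?_) j
    · exact c.com _
    · exact c.com _
  · intro s j
    refine Fin.cases ?_ (fun j => ?_) j
    · exact h6 _
    · exact h5 _ _

section
variable {K F : ℕ → Type} [∀ n, Field (K n)] [∀ n, Field (F n)] [∀ n, Algebra (K n) (F n)]

/-- ultraproducts of growing finite fields are uncountable -/
theorem uncountable_UP (K : ℕ → Type) [∀ n, Field (K n)] [∀ i, Finite (K i)]
    (hcard : ∀ i, i ≤ Nat.card (K i)) :
    Uncountable (UP (Filter.hyperfilter ℕ) K) := by
  classical
  rw [← not_countable_iff]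
  intro hc
  obtain ⟨f, hf⟩ := exists_surjective_nat (UP (Filter.hyperfilter ℕ) K)
  choose g hg using fun n => mk_surjective (Filter.hyperfilter ℕ) K (f n)
  have h1 : ∀ i, ∃ x : K i, ∀ n, n + 1 < i → g n i ≠ x := by
    intro i
    by_contra hcon
    push Not at hcon
    have := Fintype.ofFinite (K i)
    have h2 : (Finset.univ : Finset (K i)) ⊆ (Finset.range (i - 1)).image (fun n => g n i) := by
      intro x _
      obtain ⟨n, hn, hx⟩ := hcon x
      exact Finset.mem_image.2 ⟨n, Finset.mem_range.2 (by omega), hx⟩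
    have h3 := (Finset.card_le_card h2).trans Finset.card_image_le
    rw [Finset.card_univ, Finset.card_range, Fintype.card_eq_nat_card] at h3
    have h4 := hcard i
    have h5 : 0 < Nat.card (K i) := Nat.card_pos
    omega
  choose x hx using h1
  obtain ⟨n, hn⟩ := hf (mk (Filter.hyperfilter ℕ) K x)
  rw [← hg, mk_eq_mk] at hn
  have h2 : ∀ᶠ i in (Filter.hyperfilter ℕ : Filter ℕ), n + 2 ≤ i :=
    Nat.hyperfilter_le_atTop (Filter.eventually_ge_atTop (n + 2))
  obtain ⟨i, hi1, hi2⟩ := (hn.and h2).exists
  exact hx i n (by omega) hi1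

/-- the configuration exists in some member of the family -/
theorem exists_config_fact (n : ℕ) (hn : 1 ≤ n) [∀ i, Finite (K i)]
    (c : ∀ i, Cyc (K i) (F i) (n + 1)) (hcard : ∀ i, i ≤ Nat.card (K i)) :
    ∃ i, ∃ (A : Fin (n + 1).factorial → F i) (B b : Fin (n + 1) → F i), Function.Injective A ∧
      Function.Injective B ∧ (∀ j, b j ≠ 0) ∧ (∀ j, (c i).σ (b j) = b j) ∧
      ∀ s j, (c i).N (A s + B j) = b j := by
  classical
  let V : Ultrafilter ℕ := Filter.hyperfilter ℕ
  let _ := algUP V K F
  have hcard' : ∀ M : ℕ, ∀ᶠ i in (V : Filter ℕ), M ≤ Nat.card (K i) := by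
    intro M
    have h1 : ∀ᶠ i in (V : Filter ℕ), M ≤ i :=
      Nat.hyperfilter_le_atTop (Filter.eventually_ge_atTop M)
    filter_upwards [h1] with i hi
    exact hi.trans (hcard i)
  have hP : PAC (UP V K) := pac_ultra V K hcard'
  have hU : Uncountable (UP V K) := uncountable_UP K hcard
  obtain ⟨A, B, b, hA, hB, hb, hbσ, hAB⟩ := config_uniform (cycUP V c) hn hP
  choose A' hA' using fun s => mk_surjective V F (A s)
  choose B' hB' using fun s => mk_surjective V F (B s)
  choose b' hb' using fun s => mk_surjective V F (b s)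
  have e1 : ∀ s t, s ≠ t → ∀ᶠ i in (V : Filter ℕ), A' s i ≠ A' t i := by
    intro s t hst
    refine Ultrafilter.eventually_not.2 fun h => hst (hA ?_)
    rw [← hA', ← hA', mk_eq_mk]
    exact h
  have e2 : ∀ s t, s ≠ t → ∀ᶠ i in (V : Filter ℕ), B' s i ≠ B' t i := by
    intro s t hst
    refine Ultrafilter.eventually_not.2 fun h => hst (hB ?_)
    rw [← hB', ← hB', mk_eq_mk]
    exact h
  have e3 : ∀ j, ∀ᶠ i in (V : Filter ℕ), b' j i ≠ 0 := by
    intro j
    refine Ultrafilter.eventually_not.2 fun h => hb j ?_
    rw [← hb', mk_eq_zero]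
    exact h
  have e4 : ∀ j, ∀ᶠ i in (V : Filter ℕ), (c i).σ (b' j i) = b' j i := by
    intro j
    have h1 := hbσ j
    rw [← hb'] at h1
    have h2 : upHom V (fun i => (c i).σ) (mk V F (b' j)) = mk V F (b' j) := h1
    rw [upHom_mk, mk_eq_mk] at h2
    exact h2
  have e5 : ∀ s j, ∀ᶠ i in (V : Filter ℕ), (c i).N (A' s i + B' j i) = b' j i := by
    intro s j
    have h1 := hAB s j
    rw [← hA', ← hB', ← hb', ← map_add, cycUP_N, mk_eq_mk] at h1
    exact h1
  have f1 : ∀ᶠ i in (V : Filter ℕ), ∀ s t, s ≠ t → A' s i ≠ A' t i := by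
    rw [Filter.eventually_all]; intro s
    rw [Filter.eventually_all]; intro t
    by_cases hst : s = t
    · exact Filter.Eventually.of_forall fun i h => absurd hst h
    · filter_upwards [e1 s t hst] with i hi _ using hi
  have f2 : ∀ᶠ i in (V : Filter ℕ), ∀ s t, s ≠ t → B' s i ≠ B' t i := by
    rw [Filter.eventually_all]; intro s
    rw [Filter.eventually_all]; intro t
    by_cases hst : s = t
    · exact Filter.Eventually.of_forall fun i h => absurd hst h
    · filter_upwards [e2 s t hst] with i hi _ using hi
  have f3 := Filter.eventually_all.2 e3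
  have f4 := Filter.eventually_all.2 e4
  have f5 : ∀ᶠ i in (V : Filter ℕ), ∀ s j, (c i).N (A' s i + B' j i) = b' j i := by
    rw [Filter.eventually_all]; intro s
    rw [Filter.eventually_all]; intro j
    exact e5 s j
  obtain ⟨i, g1, g2, g3, g4, g5⟩ := (f1.and (f2.and (f3.and (f4.and f5)))).exists
  refine ⟨i, fun s => A' s i, fun s => B' s i, fun s => b' s i, ?_, ?_, g3, g4, g5⟩
  · intro s t h
    by_contra hst
    exact g1 s t hst h
  · intro s t h
    by_contra hst
    exact g2 s t hst h

end

section
variable {K F : Type} [Field K] [Field F] [Algebra K F]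

open Classical in
theorem contained_of_points' [Finite F] {s t : ℕ} (B : Fin t → F) (A : Fin s → F)
    (b : Fin t → Kˣ) (a : Fin s → Kˣ)
    (hA : Function.Injective A) (hB : Function.Injective B)
    (h : ∀ i j, Algebra.norm K (A i + B j) = (a i : K) * (b j : K)) (hcard : s * t < Nat.card F) :
    (completeBipartiteGraph (Fin t) (Fin s)).IsContained (normGraph K F) := by
  have := Fintype.ofFinite F
  have hne : ∀ i j, A i + B j ≠ 0 := by
    intro i j h0
    have h1 := h i j
    rw [h0] at h1
    have : Algebra.norm K (0 : F) = 0 := by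
      have : Finite K := Finite.of_injective _ (algebraMap K F).injective
      have : FiniteDimensional K F := inferInstance
      exact Algebra.norm_zero
    rw [this] at h1
    exact mul_ne_zero (a i).ne_zero (b j).ne_zero h1.symm
  obtain ⟨v, hv⟩ : ∃ v : F, ∀ i j, A i + v ≠ B j - v := by
    by_cases h2 : (2 : F) = 0
    · refine ⟨0, fun i j h0 => hne i j ?_⟩
      rw [add_zero, sub_zero] at h0
      rw [h0, ← two_mul, h2, zero_mul]
    · let S : Finset F := Finset.univ.image fun p : Fin s × Fin t => (B p.2 - A p.1) / 2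
      have hS : S.card < Fintype.card F := by
        refine (Finset.card_image_le).trans_lt ?_
        rw [Finset.card_univ, Fintype.card_prod, Fintype.card_fin, Fintype.card_fin,
          Fintype.card_eq_nat_card]
        exact hcard
      obtain ⟨v, hv⟩ : ∃ v, v ∉ S := by
        by_contra hcon
        push Not at hcon
        have : S = Finset.univ := Finset.eq_univ_iff_forall.2 hcon
        rw [this, Finset.card_univ] at hS
        exact lt_irrefl _ hS
      refine ⟨v, fun i j h0 => hv ?_⟩
      refine Finset.mem_image.2 ⟨(i, j), Finset.mem_univ _, ?_⟩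
      rw [div_eq_iff h2]
      linear_combination -h0
  have hinj : Function.Injective (Sum.elim (fun j => (B j - v, b j)) (fun i => (A i + v, a i)) :
      Fin t ⊕ Fin s → F × Kˣ) := by
    rintro (i | i) (j | j) hij
    · have h1 : B i - v = B j - v := congrArg Prod.fst hij
      exact congrArg Sum.inl (hB (sub_left_injective h1))
    · exact absurd (congrArg Prod.fst hij).symm (hv j i)
    · exact absurd (congrArg Prod.fst hij) (hv i j)
    · have h1 : A i + v = A j + v := congrArg Prod.fst hij
      exact congrArg Sum.inr (hA (add_right_cancel h1))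
  refine ⟨⟨⟨Sum.elim (fun j => (B j - v, b j)) (fun i => (A i + v, a i)), ?_⟩, hinj⟩⟩
  rintro (i | i) (j | j) hij
  · simp at hij
  · refine ⟨fun h0 => by simpa using hinj h0, ?_⟩
    show Algebra.norm K (B i - v + (A j + v)) = _
    rw [show B i - v + (A j + v) = A j + B i by ring, h j i]
    exact mul_comm _ _
  · refine ⟨fun h0 => by simpa using hinj h0, ?_⟩
    show Algebra.norm K (A i + v + (B j - v)) = _
    rw [show A i + v + (B j - v) = A i + B j by ring]
    exact h i j
  · simp at hij

open Classical in
theorem contained_of_config' [Finite F] {n s : ℕ} (A : Fin s → F) (B : Fin (n + 1) → F)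
    (b : Fin (n + 1) → K) (hA : Function.Injective A) (hB : Function.Injective B)
    (hb : ∀ j, b j ≠ 0) (h : ∀ i j, Algebra.norm K (A i + B j) = b j)
    (hcard : s * (n + 2) + (s + n + 1) < Nat.card F) :
    (completeBipartiteGraph (Fin (n + 2)) (Fin s)).IsContained (normGraph K F) := by
  have := Fintype.ofFinite F
  have : Finite K := Finite.of_injective _ (algebraMap K F).injective
  have : FiniteDimensional K F := inferInstance
  obtain ⟨c, hc⟩ : ∃ c : F, c ∉ (Finset.univ.image fun i => - A i) ∪ (Finset.univ.image B) := by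
    by_contra hcon
    push Not at hcon
    have h1 : (Finset.univ.image fun i => - A i) ∪ (Finset.univ.image B) = Finset.univ :=
      Finset.eq_univ_iff_forall.2 hcon
    have h2 := Finset.card_union_le (Finset.univ.image fun i => - A i) (Finset.univ.image B)
    have h3 : (Finset.univ.image fun i => - A i).card ≤ s :=
      Finset.card_image_le.trans (by simp)
    have h4 : (Finset.univ.image B).card ≤ n + 1 := Finset.card_image_le.trans (by simp)
    rw [h1, Finset.card_univ, Fintype.card_eq_nat_card] at h2
    omega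
  rw [Finset.mem_union, not_or] at hc
  have hAc : ∀ i, A i + c ≠ 0 := by
    intro i h0
    apply hc.1
    refine Finset.mem_image.2 ⟨i, Finset.mem_univ _, ?_⟩
    linear_combination -h0
  have hBc : ∀ j, B j - c ≠ 0 := by
    intro j h0
    apply hc.2
    exact Finset.mem_image.2 ⟨j, Finset.mem_univ _, by linear_combination h0⟩
  have hN : ∀ x : F, x ≠ 0 → Algebra.norm K x ≠ 0 := fun x hx =>
    (Algebra.norm_ne_zero_iff).2 hx
  let A' : Fin s → F := fun i => (A i + c)⁻¹
  let B' : Fin (n + 2) → F := Fin.cons 0 (fun j => (B j - c)⁻¹)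
  let a' : Fin s → Kˣ := fun i => Units.mk0 (Algebra.norm K (A i + c)⁻¹)
    (hN _ (inv_ne_zero (hAc i)))
  let b' : Fin (n + 2) → Kˣ := Fin.cons 1 (fun j => Units.mk0 (b j * Algebra.norm K (B j - c)⁻¹)
    (mul_ne_zero (hb j) (hN _ (inv_ne_zero (hBc j)))))
  apply contained_of_points' B' A' b' a'
  · intro i j hij
    exact hA (add_right_cancel (inv_injective hij))
  · intro i j hij
    refine Fin.cases (fun hij => ?_) (fun i hij => ?_) i hij
    · refine Fin.cases (fun _ => rfl) (fun j hij => ?_) j hij
      exact absurd (show (0 : F) = (B j - c)⁻¹ from hij).symm (inv_ne_zero (hBc j))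
    · revert hij
      refine Fin.cases (fun hij => ?_) (fun j hij => ?_) j
      · exact absurd (show (B i - c)⁻¹ = (0 : F) from hij) (inv_ne_zero (hBc i))
      · have h1 : (B i - c)⁻¹ = (B j - c)⁻¹ := hij
        exact congrArg Fin.succ (hB (sub_left_injective (inv_injective h1)))
  · intro i j
    refine Fin.cases ?_ (fun j => ?_) j
    · show Algebra.norm K ((A i + c)⁻¹ + 0) = Algebra.norm K (A i + c)⁻¹ * 1
      rw [add_zero, mul_one]
    · show Algebra.norm K ((A i + c)⁻¹ + (B j - c)⁻¹) =
        Algebra.norm K (A i + c)⁻¹ * (b j * Algebra.norm K (B j - c)⁻¹)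
      have h1 : (A i + c)⁻¹ + (B j - c)⁻¹ = (A i + B j) * ((A i + c)⁻¹ * (B j - c)⁻¹) := by
        have := hAc i
        have := hBc j
        field_simp
        ring
      rw [h1, map_mul, map_mul, h i j]
      ring
  · omega

/-- For every `t ≥ 3` and all large `q`, the projective norm graph contains `K_{t,(t-1)!}`. -/
theorem normGraph_contains_fact (t : ℕ) (ht : 3 ≤ t) :
    ∃ q₀ : ℕ, ∀ (K F : Type) [Field K] [Finite K] [Field F] [Algebra K F],
      Module.finrank K F + 1 = t → q₀ ≤ Nat.card K →
      (completeBipartiteGraph (Fin t) (Fin (t - 1).factorial)).IsContained (normGraph K F) := by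
  obtain ⟨n, rfl⟩ : ∃ n, t = n + 2 := ⟨t - 2, by omega⟩
  rw [show n + 2 - 1 = n + 1 by omega]
  by_contra hcon
  push Not at hcon
  choose K F iK fK iF iA hfr hcard hnot using fun i : ℕ =>
    hcon (i + ((n + 1).factorial * (n + 2) + ((n + 1).factorial + n + 2)))
  have hm : ∀ i, Module.finrank (K i) (F i) = n + 1 := fun i => by have := hfr i; omega
  have hfd : ∀ i, Module.Finite (K i) (F i) := fun i =>
    Module.finite_of_finrank_pos (by rw [hm]; omega)
  have hF : ∀ i, Finite (F i) := fun i => Module.finite_of_finite (K i)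
  choose c hc using fun i => exists_cyc (K i) (F i) (n + 1) (hm i)
  obtain ⟨i, A, B, b, hA, hB, hb, hbσ, hAB⟩ := exists_config_fact n (by omega) c (fun i => by
    have := hcard i; omega)
  choose b' hb' using fun j => (c i).fix _ (hbσ j)
  refine not_isEmpty_iff.2 (contained_of_config' A B b' hA hB (fun j h0 => hb j ?_)
    (fun s j => ?_) ?_) (hnot i)
  · rw [← hb', h0, map_zero]
  · apply (algebraMap (K i) (F i)).injective
    rw [← hc, hAB, hb']
  · have h1 : Nat.card (K i) ≤ Nat.card (F i) :=
      Nat.card_le_card_of_injective _ (algebraMap (K i) (F i)).injective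
    have := hcard i
    omega

end

end Pool.Agent.K7.H18.NH
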