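import Pool.Agent.K7.H18.NH.Desc2

/-!
# Choice of the parameters
-/

set_option autoImplicit false

namespace Pool.Agent.K7.H18.NH

open Polynomial

section
variable {K F : Type} [Field K] [Field F] [Algebra K F]

theorem exists_point [Infinite K] {ι J : Type} [Fintype J] (p : J → MvPolynomial ι F)
    (hp : ∀ j, p j ≠ 0) :
    ∃ v : ι → K, ∀ j, MvPolynomial.eval (fun i => algebraMap K F (v i)) (p j) ≠ 0 := by
  classical
  by_contra hcon
  push Not at hcon
  have h1 : (∏ j, p j) ≠ 0 := Finset.prod_ne_zero_iff.2 fun j _ => hp j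
  apply h1
  apply MvPolynomial.funext_set (fun _ => Set.range (algebraMap K F))
  · intro i
    exact Set.infinite_range_of_injective (algebraMap K F).injective
  · intro x hx
    have h2 : ∀ i, ∃ v, algebraMap K F v = x i := fun i => hx i (Set.mem_univ i)
    choose v hv using h2
    obtain ⟨j, hj⟩ := hcon v
    simp only [hv] at hj
    rw [map_prod, map_zero]
    exact Finset.prod_eq_zero (Finset.mem_univ j) hj

variable {κ : Type} [Fintype κ] [DecidableEq κ]

/-- the special value -/
def Wv {S : Type} [CommRing S] (a : κ → S) (A : Option κ → S) (i : κ)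
    (π : Equiv.Perm (Option κ)) : S :=
  kap a A i π * ((A (π none) - a i) * (A (π (some i)) - a i))

theorem exists_a [Infinite K] (A : Option κ → F) (hA : Function.Injective A)
    (hAK : ∀ l (x : K), A l ≠ algebraMap K F x) :
    ∃ a : κ → K, Function.Injective a ∧
      Function.Injective (gam (fun l => algebraMap K F (a l)) A) ∧
      ∀ i π ρ, ρ ≠ π → ρ ≠ sw i π → Wv (fun l => algebraMap K F (a l)) A i π ≠
        Wv (fun l => algebraMap K F (a l)) A i ρ := by
  classical
  have hA0 : ∀ l, A l ≠ 0 := fun l => by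
    rw [← map_zero (algebraMap K F)]; exact hAK l 0
  let Γ : Equiv.Perm (Option κ) → MvPolynomial κ F := fun π =>
    ∏ l, (MvPolynomial.C (A (π (some l))) - MvPolynomial.X l)
  let WW : κ → Equiv.Perm (Option κ) → MvPolynomial κ F := fun i π =>
    (∏ l ∈ Finset.univ.erase i, (MvPolynomial.C (A (π (some l))) - MvPolynomial.X l)) *
      ((MvPolynomial.C (A (π none)) - MvPolynomial.X i) *
        (MvPolynomial.C (A (π (some i))) - MvPolynomial.X i))
  have hΓ : ∀ (x : κ → F) π, MvPolynomial.eval x (Γ π) = gam x A π := by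
    intro x π
    show MvPolynomial.eval x (∏ l, (MvPolynomial.C (A (π (some l))) - MvPolynomial.X l)) = _
    rw [map_prod]
    refine Finset.prod_congr rfl fun l _ => ?_
    rw [map_sub, MvPolynomial.eval_C, MvPolynomial.eval_X]
  have hWW : ∀ (x : κ → F) i π, MvPolynomial.eval x (WW i π) = Wv x A i π := by
    intro x i π
    show MvPolynomial.eval x ((∏ l ∈ Finset.univ.erase i,
      (MvPolynomial.C (A (π (some l))) - MvPolynomial.X l)) *
      ((MvPolynomial.C (A (π none)) - MvPolynomial.X i) *
        (MvPolynomial.C (A (π (some i))) - MvPolynomial.X i))) = _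
    rw [map_mul, map_mul, map_prod, map_sub, map_sub, MvPolynomial.eval_C, MvPolynomial.eval_C,
      MvPolynomial.eval_X]
    unfold Wv kap
    congr 1
    refine Finset.prod_congr rfl fun l _ => ?_
    rw [map_sub, MvPolynomial.eval_C, MvPolynomial.eval_X]
  -- the special point
  let pt : κ → F → κ → F := fun l0 y l => if l = l0 then y else 0
  have hpt : ∀ (π π' : Equiv.Perm (Option κ)) (l0 : κ), π (some l0) ≠ π' (some l0) →
      ∀ l, A (π (some l)) - pt l0 (A (π' (some l0))) l ≠ 0 := by
    intro π π' l0 h l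
    show A (π (some l)) - (if l = l0 then A (π' (some l0)) else 0) ≠ 0
    by_cases hl : l = l0
    · rw [if_pos hl, hl, sub_ne_zero]
      exact fun h' => h (hA h')
    · rw [if_neg hl, sub_zero]; exact hA0 _
  have hpt' : ∀ (π' : Equiv.Perm (Option κ)) (l0 : κ),
      A (π' (some l0)) - pt l0 (A (π' (some l0))) l0 = 0 := by
    intro π' l0
    show A (π' (some l0)) - (if l0 = l0 then A (π' (some l0)) else 0) = 0
    rw [if_pos rfl, sub_self]
  have hperm : ∀ π π' : Equiv.Perm (Option κ), (∀ l, π (some l) = π' (some l)) → π = π' := by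
    intro π π' h
    have h1 : π none = π' none := by
      obtain ⟨x, hx⟩ := π'.surjective (π none)
      cases x with
      | none => exact hx.symm
      | some l =>
        rw [← h l] at hx
        exact absurd (π.injective hx) (by simp)
    ext1 x
    cases x with
    | none => exact h1
    | some l => exact h l
  -- the three families
  let f1 : κ × κ → MvPolynomial κ F := fun q =>
    if q.1 = q.2 then 1 else MvPolynomial.X q.1 - MvPolynomial.X q.2
  let f2 : Equiv.Perm (Option κ) × Equiv.Perm (Option κ) → MvPolynomial κ F := fun q =>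
    if q.1 = q.2 then 1 else Γ q.1 - Γ q.2
  let f3 : κ × Equiv.Perm (Option κ) × Equiv.Perm (Option κ) → MvPolynomial κ F := fun q =>
    if q.2.2 = q.2.1 ∨ q.2.2 = sw q.1 q.2.1 then 1 else WW q.1 q.2.1 - WW q.1 q.2.2
  have h1 : ∀ q, f1 q ≠ 0 := by
    intro q
    show (if q.1 = q.2 then 1 else MvPolynomial.X q.1 - MvPolynomial.X q.2 :
      MvPolynomial κ F) ≠ 0
    split_ifs with h
    · exact one_ne_zero
    · rw [sub_ne_zero]
      exact fun h' => h (MvPolynomial.X_injective h')
  have h2 : ∀ q, f2 q ≠ 0 := by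
    intro q
    show (if q.1 = q.2 then 1 else Γ q.1 - Γ q.2) ≠ 0
    split_ifs with h
    · exact one_ne_zero
    · obtain ⟨l0, hl0⟩ : ∃ l0, q.1 (some l0) ≠ q.2 (some l0) := by
        by_contra hcon
        push Not at hcon
        exact h (hperm _ _ hcon)
      intro h0
      have h3 := congrArg (MvPolynomial.eval (pt l0 (A (q.2 (some l0))))) h0
      rw [map_sub, hΓ, hΓ, map_zero] at h3
      have h4 : gam (pt l0 (A (q.2 (some l0)))) A q.2 = 0 :=
        Finset.prod_eq_zero (Finset.mem_univ l0) (hpt' _ _)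
      have h5 : gam (pt l0 (A (q.2 (some l0)))) A q.1 ≠ 0 :=
        Finset.prod_ne_zero_iff.2 fun l _ => hpt _ _ _ hl0 l
      rw [h4, sub_zero] at h3
      exact h5 h3
  have h3 : ∀ q, f3 q ≠ 0 := by
    rintro ⟨i, π, ρ⟩
    show (if ρ = π ∨ ρ = sw i π then 1 else WW i π - WW i ρ) ≠ 0
    split_ifs with h
    · exact one_ne_zero
    · push Not at h
      obtain ⟨l0, hl0i, hl0⟩ : ∃ l0, l0 ≠ i ∧ π (some l0) ≠ ρ (some l0) := by
        by_contra hcon
        push Not at hcon
        -- then `ρ` is `π` or `sw i π`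
        rcases eq_or_ne (π (some i)) (ρ (some i)) with hi | hi
        · apply h.1
          apply hperm
          intro l
          rcases eq_or_ne l i with hl | hl
          · rw [hl, hi]
          · exact (hcon l hl).symm
        · apply h.2
          have hi2 : ρ (some i) = π none := by
            obtain ⟨x, hx⟩ := π.surjective (ρ (some i))
            cases x with
            | none => exact hx.symm
            | some l =>
              rcases eq_or_ne l i with hl | hl
              · rw [hl] at hx; exact absurd hx hi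
              · rw [hcon l hl] at hx
                exact absurd (ρ.injective hx) (by simpa using hl)
          apply hperm
          intro l
          rcases eq_or_ne l i with hl | hl
          · rw [hl, sw_some, hi2]
          · rw [sw_other i l hl, (hcon l hl).symm]
      intro h0
      have h4 := congrArg (MvPolynomial.eval (pt l0 (A (ρ (some l0))))) h0
      rw [map_sub, hWW, hWW, map_zero] at h4
      have hmem : l0 ∈ Finset.univ.erase i := Finset.mem_erase.2 ⟨hl0i, Finset.mem_univ _⟩
      have h5 : Wv (pt l0 (A (ρ (some l0)))) A i ρ = 0 :=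
        mul_eq_zero_of_left (Finset.prod_eq_zero hmem (hpt' _ _)) _
      have h6 : Wv (pt l0 (A (ρ (some l0)))) A i π ≠ 0 := by
        refine mul_ne_zero (Finset.prod_ne_zero_iff.2 fun l _ => hpt _ _ _ hl0 l) ?_
        have h7 : pt l0 (A (ρ (some l0))) i = 0 := if_neg (Ne.symm hl0i)
        rw [h7, sub_zero, sub_zero]
        exact mul_ne_zero (hA0 _) (hA0 _)
      rw [h5, sub_zero] at h4
      exact h6 h4
  obtain ⟨a, ha⟩ := exists_point (K := K) (Sum.elim f1 (Sum.elim f2 f3)) (by
    rintro (q | q | q)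
    · exact h1 q
    · exact h2 q
    · exact h3 q)
  refine ⟨a, ?_, ?_, ?_⟩
  · intro i j hij
    by_contra hne
    apply ha (Sum.inl (i, j))
    show MvPolynomial.eval _ (if i = j then 1 else MvPolynomial.X i - MvPolynomial.X j) = 0
    rw [if_neg hne, map_sub, MvPolynomial.eval_X, MvPolynomial.eval_X, hij, sub_self]
  · intro π ρ hπρ
    by_contra hne
    apply ha (Sum.inr (Sum.inl (π, ρ)))
    show MvPolynomial.eval _ (if π = ρ then 1 else Γ π - Γ ρ) = 0
    rw [if_neg hne, map_sub, hΓ, hΓ, hπρ, sub_self]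
  · intro i π ρ hρ1 hρ2 hW
    apply ha (Sum.inr (Sum.inr (i, π, ρ)))
    show MvPolynomial.eval _ (if ρ = π ∨ ρ = sw i π then 1 else WW i π - WW i ρ) = 0
    rw [if_neg (by push Not; exact ⟨hρ1, hρ2⟩), map_sub, hWW, hWW, hW, sub_self]

/-- the parameter `b` -/
theorem exists_b {L : Type} [Field L] [IsAlgClosed L] [Infinite K] (j : K →+* L) (a : κ → L)
    (A : Option κ → L) (hAa : ∀ l i, A l ≠ a i) (i : κ)
    (hW : ∀ π ρ, ρ ≠ π → ρ ≠ sw i π → Wv a A i π ≠ Wv a A i ρ) :
    ∃ b : K, b ≠ 0 ∧ ∀ π, Good a A i (j b) π := by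
  classical
  let p : Equiv.Perm (Option κ) → L := fun π => (A (π none) - a i) * (A (π (some i)) - a i)
  have hp0 : ∀ π, p π ≠ 0 := fun π =>
    mul_ne_zero (sub_ne_zero.2 (hAa _ _)) (sub_ne_zero.2 (hAa _ _))
  let R : Equiv.Perm (Option κ) → Equiv.Perm (Option κ) → L[X] := fun π ρ =>
    if ρ = π ∨ ρ = sw i π then 1 else
    (C (kap a A i π * p π) * (1 + X) ^ 2 - C (kap a A i ρ) * (X ^ 2 * C (p π) + C (p ρ))) ^ 2 -
      C (4 * p ρ * kap a A i ρ ^ 2 * p π) * X ^ 2
  have hR : ∀ π ρ, R π ρ ≠ 0 := by
    intro π ρ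
    show (if ρ = π ∨ ρ = sw i π then 1 else
      (C (kap a A i π * p π) * (1 + X) ^ 2 - C (kap a A i ρ) * (X ^ 2 * C (p π) + C (p ρ))) ^ 2 -
      C (4 * p ρ * kap a A i ρ ^ 2 * p π) * X ^ 2) ≠ 0
    split_ifs with h
    · exact one_ne_zero
    · push Not at h
      intro h0
      have h1 := congrArg (fun q => q.eval 0) h0
      simp only [eval_sub, eval_mul, eval_pow, eval_add, eval_C, eval_X, eval_one, eval_zero] at h1
      apply hW π ρ h.1 h.2
      have h2 : (Wv a A i π - Wv a A i ρ) ^ 2 = 0 := by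
        rw [← h1]
        unfold Wv
        ring
      exact sub_eq_zero.1 (pow_eq_zero_iff (by norm_num) |>.1 h2)
  let T : Equiv.Perm (Option κ) → Finset L := fun π =>
    (((X : L[X]) * (1 + X) * ∏ ρ, R π ρ).roots.toFinset).image (fun ε => ε ^ 2 * p π)
  have hne : ∀ π, ((X : L[X]) * (1 + X) * ∏ ρ, R π ρ) ≠ 0 := by
    intro π
    refine mul_ne_zero (mul_ne_zero X_ne_zero ?_) (Finset.prod_ne_zero_iff.2 fun ρ _ => hR π ρ)
    intro h
    have := congrArg (fun q => q.eval 0) h
    simp at this
  obtain ⟨b, hb⟩ : ∃ b : K, j b ∉ (Finset.univ.biUnion T) := by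
    by_contra hcon
    push Not at hcon
    have h1 : Set.Finite (Set.range j) := by
      refine Set.Finite.subset (Finset.finite_toSet (Finset.univ.biUnion T)) ?_
      rintro _ ⟨b, rfl⟩
      exact hcon b
    exact Set.infinite_range_of_injective j.injective h1
  have hb' : ∀ π ε, j b = ε ^ 2 * p π → ((X : L[X]) * (1 + X) * ∏ ρ, R π ρ).eval ε ≠ 0 := by
    intro π ε hε h0
    apply hb
    rw [Finset.mem_biUnion]
    refine ⟨π, Finset.mem_univ _, Finset.mem_image.2 ⟨ε, ?_, hε.symm⟩⟩
    rw [Multiset.mem_toFinset, mem_roots (hne π)]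
    exact h0
  refine ⟨b, ?_, ?_⟩
  · rintro rfl
    apply hb' 1 0
    · rw [map_zero]; ring
    · simp
  · intro π
    obtain ⟨ε, hε⟩ := IsAlgClosed.exists_pow_nat_eq (j b / p π) (n := 2) (by norm_num)
    have hε' : j b = ε ^ 2 * p π := by rw [hε, div_mul_cancel₀ _ (hp0 π)]
    have h1 := hb' π ε hε'
    rw [eval_mul, eval_mul, eval_prod, eval_add, eval_X, eval_one] at h1
    have h2 := left_ne_zero_of_mul h1
    have h3 := right_ne_zero_of_mul h1
    refine ⟨ε, hε', left_ne_zero_of_mul h2, right_ne_zero_of_mul h2, ?_⟩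
    intro ρ hρ1 hρ2 h0
    have h4 := Finset.prod_ne_zero_iff.1 h3 ρ (Finset.mem_univ ρ)
    apply h4
    show (if ρ = π ∨ ρ = sw i π then 1 else
      (C (kap a A i π * p π) * (1 + X) ^ 2 - C (kap a A i ρ) * (X ^ 2 * C (p π) + C (p ρ))) ^ 2 -
      C (4 * p ρ * kap a A i ρ ^ 2 * p π) * X ^ 2).eval ε = 0
    rw [if_neg (by push Not; exact ⟨hρ1, hρ2⟩)]
    simp only [eval_sub, eval_mul, eval_pow, eval_add, eval_C, eval_X, eval_one]
    rw [hε'] at h0
    rw [← h0]
    ring

/-- the coefficients of the resolvent -/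
theorem exists_cw [Infinite K] {P : Type} [Fintype P] [DecidableEq P] (γ : P → F)
    (hγ : Function.Injective γ) :
    ∃ cw : P → K, Function.Injective (fun g : Equiv.Perm P =>
      ∑ π, algebraMap K F (cw π) * γ (g π)) := by
  classical
  let f : Equiv.Perm P × Equiv.Perm P → MvPolynomial P F := fun q =>
    if q.1 = q.2 then 1 else
      ∑ π, MvPolynomial.X π * MvPolynomial.C (γ (q.1 π) - γ (q.2 π))
  have hf : ∀ q, f q ≠ 0 := by
    intro q
    show (if q.1 = q.2 then 1 else
      ∑ π, MvPolynomial.X π * MvPolynomial.C (γ (q.1 π) - γ (q.2 π)) : MvPolynomial P F) ≠ 0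
    split_ifs with h
    · exact one_ne_zero
    · obtain ⟨π, hπ⟩ : ∃ π, q.1 π ≠ q.2 π := by
        by_contra hcon
        push Not at hcon
        exact h (Equiv.ext hcon)
      intro h0
      have h1 := congrArg (MvPolynomial.eval (Pi.single π 1)) h0
      rw [map_sum, map_zero, Finset.sum_eq_single π] at h1
      · rw [map_mul, MvPolynomial.eval_X, MvPolynomial.eval_C, Pi.single_eq_same, one_mul,
          sub_eq_zero] at h1
        exact hπ (hγ h1)
      · intro ρ _ hρ
        rw [map_mul, MvPolynomial.eval_X, Pi.single_eq_of_ne hρ, zero_mul]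
      · intro h'; exact absurd (Finset.mem_univ _) h'
  obtain ⟨cw, hcw⟩ := exists_point (K := K) f hf
  refine ⟨cw, fun g g' hgg => ?_⟩
  by_contra hne
  apply hcw (g, g')
  show MvPolynomial.eval _ (if g = g' then 1 else
      ∑ π, MvPolynomial.X π * MvPolynomial.C (γ (g π) - γ (g' π))) = 0
  rw [if_neg hne, map_sum]
  have h1 : ∑ π, algebraMap K F (cw π) * γ (g π) = ∑ π, algebraMap K F (cw π) * γ (g' π) := hgg
  rw [← sub_eq_zero, ← Finset.sum_sub_distrib] at h1
  rw [← h1]
  refine Finset.sum_congr rfl fun π _ => ?_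
  rw [map_mul, MvPolynomial.eval_X, MvPolynomial.eval_C]
  ring

/-- a transcendental element -/
theorem exists_transc [Uncountable K] (S : Set F) (hS : S.Finite) :
    ∃ ε : K, Function.Injective
      (eval₂RingHom (Subfield.closure S).subtype (algebraMap K F ε) :
        (Subfield.closure S)[X] →+* F) := by
  classical
  set k0 := Subfield.closure S with hk0
  have hc : Countable k0 := by
    rw [← Cardinal.mk_le_aleph0_iff]
    refine (Subfield.cardinalMk_closure_le_max S).trans (max_le ?_ le_rfl)
    rw [Cardinal.mk_le_aleph0_iff]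
    exact hS.countable.to_subtype
  have h1 := Algebraic.countable k0 F
  obtain ⟨ε, hε⟩ : ∃ ε : K, ¬ IsAlgebraic k0 (algebraMap K F ε) := by
    by_contra hcon
    push Not at hcon
    have h2 : (Set.univ : Set K).Countable :=
      Set.Countable.mono (fun x _ => hcon x)
        (h1.preimage_of_injOn ((algebraMap K F).injective.injOn))
    exact Set.not_countable_univ h2
  refine ⟨ε, ?_⟩
  have h3 := transcendental_iff_injective.1 hε
  intro p q hpq
  apply h3
  exact hpq

end

end Pool.Agent.K7.H18.NH
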