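import Pool.Agent.K7.H18.NH.Inf

/-!
# Properties of `Psi`
-/

set_option autoImplicit false

namespace Pool.Agent.K7.H18.NH

open Polynomial

section
variable {κ : Type} [Fintype κ] [DecidableEq κ] {S : Type} [CommRing S] [IsDomain S]

omit [DecidableEq κ] [IsDomain S] in
theorem gam_map {S' : Type} [CommRing S'] (φ : S →+* S') (a : κ → S) (A : Option κ → S)
    (π : Equiv.Perm (Option κ)) : φ (gam a A π) = gam (fun l => φ (a l)) (fun l => φ (A l)) π := by
  unfold gam
  rw [map_prod]
  exact Finset.prod_congr rfl fun l _ => map_sub _ _ _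

theorem cc_dom (a β : κ → S) (A : Option κ → S) (ha : Function.Injective a) :
    (Phi a β A).natDegree = NN κ ∧ ∀ j ≤ NN κ, (cc a β A j).natDegree ≤ j ∧
      (cc a β A j).coeff j = (∏ π, (X - C (gam a A π))).coeff (NN κ - j) := by
  set φ := algebraMap S (FractionRing S) with hφ
  have hinj : Function.Injective φ := IsFractionRing.injective S (FractionRing S)
  have ha' : Function.Injective fun l => φ (a l) := fun l m h => ha (hinj h)
  obtain ⟨h1, h2⟩ := cc_field (fun l => φ (a l)) (fun l => φ (β l)) (fun l => φ (A l)) ha'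
  constructor
  · rw [← h1, ← Phi_map, natDegree_map_eq_of_injective]
    rw [coe_mapRingHom]
    exact map_injective _ hinj
  · intro j hj
    obtain ⟨h3, h4⟩ := h2 j hj
    rw [← cc_map] at h3 h4
    refine ⟨?_, ?_⟩
    · rwa [natDegree_map_eq_of_injective hinj] at h3
    · apply hinj
      rw [← coeff_map, h4, ← coeff_map, Polynomial.map_prod]
      congr 1
      refine Finset.prod_congr rfl fun π _ => ?_
      rw [Polynomial.map_sub, Polynomial.map_X, Polynomial.map_C, gam_map φ a A π]

omit [IsDomain S] in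
theorem Psi_natDegree (a β : κ → S) (A : Option κ → S) : (Psi a β A).natDegree ≤ NN κ := by
  unfold Psi
  apply natDegree_sum_le_of_forall_le
  intro j hj
  apply natDegree_sum_le_of_forall_le
  intro r hr
  rw [Finset.mem_range] at hj hr
  refine (natDegree_C_mul_X_pow_le _ _).trans (by omega)

omit [IsDomain S] in
theorem Psi_coeff (a β : κ → S) (A : Option κ → S) :
    (Psi a β A).coeff (NN κ) = C ((cc a β A (NN κ)).coeff (NN κ)) := by
  unfold Psi
  rw [finsetSum_coeff, Finset.sum_eq_single (NN κ)]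
  · rw [finsetSum_coeff, Finset.sum_eq_single (NN κ)]
    · rw [coeff_C_mul, coeff_X_pow, if_pos rfl, Nat.sub_self, pow_zero, mul_one, mul_one]
    · intro r _ hr
      rw [coeff_C_mul, coeff_X_pow, if_neg hr.symm, mul_zero]
    · intro h; exact absurd (Finset.mem_range.2 (Nat.lt_succ_self _)) h
  · intro j hj hne
    rw [finsetSum_coeff]
    refine Finset.sum_eq_zero fun r hr => ?_
    rw [Finset.mem_range] at hj hr
    rw [coeff_C_mul, coeff_X_pow, if_neg (by omega), mul_zero]
  · intro h; exact absurd (Finset.mem_range.2 (Nat.lt_succ_self _)) h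

theorem Psi_lead (a β : κ → S) (A : Option κ → S) (ha : Function.Injective a) :
    (Psi a β A).coeff (NN κ) = C (∏ π, (- gam a A π)) := by
  rw [Psi_coeff, ((cc_dom a β A ha).2 _ le_rfl).2, Nat.sub_self, coeff_zero_eq_eval_zero, eval_prod]
  congr 1
  refine Finset.prod_congr rfl fun π _ => ?_
  simp

/-- the relation with `Phi` -/
theorem Psi_eval {E : Type} [CommRing E] (φ : S →+* E) (a β : κ → S) (A : Option κ → S)
    (ha : Function.Injective a) (z w y : E) (hzw : z * w = 1) :
    (Psi a β A).eval₂ (eval₂RingHom φ z) (z * y) =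
      z ^ NN κ * (Phi a β A).eval₂ (eval₂RingHom φ y) w := by
  obtain ⟨h1, h2⟩ := cc_dom a β A ha
  have h3 : (Phi a β A).eval₂ (eval₂RingHom φ y) w =
      ∑ j ∈ Finset.range (NN κ + 1), (cc a β A j).eval₂ φ y * w ^ (NN κ - j) := by
    rw [eval₂_eq_sum_range, h1, ← Finset.sum_range_reflect]
    refine Finset.sum_congr rfl fun j hj => ?_
    rw [Finset.mem_range] at hj
    rw [show NN κ + 1 - 1 - j = NN κ - j by omega, coe_eval₂RingHom]
    rfl
  unfold Psi
  rw [eval₂_finsetSum, h3, Finset.mul_sum]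
  refine Finset.sum_congr rfl fun j hj => ?_
  rw [Finset.mem_range] at hj
  rw [eval₂_finsetSum]
  have h4 : (cc a β A j).eval₂ φ y = ∑ r ∈ Finset.range (j + 1), φ ((cc a β A j).coeff r) * y ^ r :=
    eval₂_eq_sum_range' _ (Nat.lt_succ_of_le (h2 j (by omega)).1) _
  rw [h4, Finset.sum_mul, Finset.mul_sum]
  refine Finset.sum_congr rfl fun r hr => ?_
  rw [Finset.mem_range] at hr
  rw [eval₂_mul, eval₂_C, eval₂_pow, eval₂_X, coe_eval₂RingHom, eval₂_mul, eval₂_C, eval₂_pow,
    eval₂_X]
  have h5 : z ^ NN κ * w ^ (NN κ - j) = z ^ j := by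
    have : z ^ NN κ = z ^ (NN κ - j) * z ^ j := by
      rw [← pow_add, Nat.sub_add_cancel (by omega)]
    rw [this, mul_comm (z ^ (NN κ - j)), mul_assoc, ← mul_pow, hzw, one_pow, mul_one]
  have h6 : z ^ j = z ^ (j - r) * z ^ r := by
    rw [← pow_add, Nat.sub_add_cancel (by omega)]
  calc φ ((cc a β A j).coeff r) * z ^ (j - r) * (z * y) ^ r
      = (φ ((cc a β A j).coeff r) * y ^ r) * (z ^ (j - r) * z ^ r) := by rw [mul_pow]; ring
    _ = (φ ((cc a β A j).coeff r) * y ^ r) * (z ^ NN κ * w ^ (NN κ - j)) := by rw [← h6, h5]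
    _ = _ := by ring

theorem reverse_prod' {ι : Type} (s : Finset ι) (f : ι → S[X]) :
    (∏ i ∈ s, f i).reverse = ∏ i ∈ s, (f i).reverse := by
  classical
  induction s using Finset.induction_on with
  | empty =>
    rw [Finset.prod_empty, Finset.prod_empty, ← C_1, reverse_C]
  | insert a s ha ih => rw [Finset.prod_insert ha, Finset.prod_insert ha, reverse_mul_of_domain, ih]

theorem reverse_X_sub (b : S) : (X - C b : S[X]).reverse = 1 - C b * X := by
  ext n
  rw [coeff_reverse, natDegree_X_sub_C]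
  match n with
  | 0 => rw [revAt_le (by omega)]; simp
  | 1 => rw [revAt_le (by omega)]; simp [coeff_one]
  | n + 2 => rw [revAt_eq_self_of_lt (by omega)]; simp [coeff_X, coeff_one]

/-- the value at `z = 0` -/
theorem Psi_zero (a β : κ → S) (A : Option κ → S) (ha : Function.Injective a) :
    (Psi a β A).map (evalRingHom 0) = ∏ π, (1 - C (gam a A π) * X) := by
  obtain ⟨h1, h2⟩ := cc_dom a β A ha
  have h3 : (Psi a β A).map (evalRingHom 0) =
      ∑ j ∈ Finset.range (NN κ + 1), C ((cc a β A j).coeff j) * X ^ j := by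
    unfold Psi
    rw [Polynomial.map_sum]
    refine Finset.sum_congr rfl fun j _ => ?_
    rw [Polynomial.map_sum, Finset.sum_eq_single j]
    · simp
    · intro r hr hne
      rw [Finset.mem_range] at hr
      have : j - r ≠ 0 := by omega
      simp [this]
    · intro h; exact absurd (Finset.mem_range.2 (Nat.lt_succ_self _)) h
  rw [h3]
  have h4 : ∏ π, (1 - C (gam a A π) * X) = (∏ π, (X - C (gam a A π)) : S[X]).reverse := by
    rw [reverse_prod']
    exact Finset.prod_congr rfl fun π _ => (reverse_X_sub _).symm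
  have h5 : (∏ π, (X - C (gam a A π)) : S[X]).natDegree = NN κ := by
    rw [natDegree_finsetProd_X_sub_C_eq_card, Finset.card_univ]
  rw [h4]
  ext n
  rw [coeff_reverse, h5, finsetSum_coeff]
  simp only [coeff_C_mul, coeff_X_pow, mul_ite, mul_one, mul_zero]
  rcases Nat.lt_or_ge (NN κ) n with hn | hn
  · rw [Finset.sum_eq_zero, revAt_eq_self_of_lt hn, coeff_eq_zero_of_natDegree_lt (by rw [h5]; exact hn)]
    intro j hj
    rw [Finset.mem_range] at hj
    rw [if_neg (by omega)]
  · rw [Finset.sum_eq_single n, if_pos rfl, revAt_le hn, (h2 n hn).2]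
    · intro j _ hj
      rw [if_neg hj.symm]
    · intro h; exact absurd (Finset.mem_range.2 (by omega)) h

end

end Pool.Agent.K7.H18.NH
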