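import Pool.Agent.K7.H18.NH.PsiP

/-!
# The roots of `Psi` over power series
-/

set_option autoImplicit false

namespace Pool.Agent.K7.H18.NH

open Polynomial

theorem eq_prod_of_roots {R ι : Type} [CommRing R] [IsDomain R] [Fintype ι] (p : R[X]) (r : ι → R)
    (hr : Function.Injective r) (hp : p.natDegree ≤ Fintype.card ι)
    (h0 : ∀ i, p.eval (r i) = 0) :
    p = C (p.coeff (Fintype.card ι)) * ∏ i, (X - C (r i)) := by
  classical
  have hm : (∏ i, (X - C (r i)) : R[X]).Monic := monic_prod_X_sub_C _ _
  have hd : (∏ i, (X - C (r i)) : R[X]).natDegree = Fintype.card ι := by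
    rw [natDegree_finsetProd_X_sub_C_eq_card, Finset.card_univ]
  have hc : (∏ i, (X - C (r i)) : R[X]).coeff (Fintype.card ι) = 1 := by
    have := hm.coeff_natDegree
    rwa [hd] at this
  rw [← sub_eq_zero]
  by_contra hne
  apply hne
  apply eq_zero_of_natDegree_lt_card_of_eval_eq_zero' _ (Finset.univ.image r)
  · intro x hx
    obtain ⟨i, -, rfl⟩ := Finset.mem_image.1 hx
    rw [eval_sub, h0, zero_sub, neg_eq_zero, eval_mul, eval_prod]
    apply mul_eq_zero_of_right
    exact Finset.prod_eq_zero (Finset.mem_univ i) (by simp)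
  · rw [Finset.card_image_of_injective _ hr, Finset.card_univ]
    by_contra hlt
    apply hne
    rw [← leadingCoeff_eq_zero, leadingCoeff]
    set k := (p - C (p.coeff (Fintype.card ι)) * ∏ i, (X - C (r i))).natDegree
    rw [coeff_sub, coeff_C_mul]
    rcases Nat.eq_or_lt_of_le (not_lt.1 hlt) with h | h
    · rw [← h, hc, mul_one, sub_self]
    · have e1 : p.coeff k = 0 := coeff_eq_zero_of_natDegree_lt (lt_of_le_of_lt hp h)
      have e2 : (∏ i, (X - C (r i)) : R[X]).coeff k = 0 :=
        coeff_eq_zero_of_natDegree_lt (by rw [hd]; exact h)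
      rw [e1, e2, mul_zero, sub_zero]

section
variable {κ : Type} [Fintype κ] [DecidableEq κ] {k S : Type} [Field k] [CommRing S] [IsDomain S]

/-- polynomials as power series -/
noncomputable abbrev toPS (S : Type) [CommRing S] : S[X] →+* PowerSeries S :=
  Polynomial.coeToPowerSeries.ringHom

omit [IsDomain S] in
theorem toPS_const (p : S[X]) : PowerSeries.constantCoeff (toPS S p) = p.eval 0 := by
  rw [← coeff_zero_eq_eval_zero]
  simp [toPS]

omit [IsDomain S] in
theorem toPS_inj : Function.Injective (toPS S) := Polynomial.coe_injective S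

/-- the roots of `Psi` over the power series ring -/
theorem roots_ps (i : k →+* S) (a : κ → k) (A : Option κ → k) (β : κ → S)
    (ha : Function.Injective a) (hg0 : ∀ π, gam a A π ≠ 0)
    (hg : Function.Injective (gam a A)) :
    ∃ η : Equiv.Perm (Option κ) → PowerSeries S,
      (∀ π, PowerSeries.constantCoeff (η π) = i (gam a A π)⁻¹) ∧
      (∀ π, ((Psi (fun l => i (a l)) β (fun l => i (A l))).map (toPS S)).eval (η π) = 0) ∧
      (Psi (fun l => i (a l)) β (fun l => i (A l))).map (toPS S) =
        C (PowerSeries.C (i (∏ π, (- gam a A π)))) * ∏ π, (X - C (η π)) := by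
  classical
  have hai : Function.Injective fun l => i (a l) := fun l m h => ha (i.injective h)
  have hgi : ∀ π, gam (fun l => i (a l)) (fun l => i (A l)) π = i (gam a A π) := fun π => by
    unfold gam
    rw [map_prod]
    exact Finset.prod_congr rfl fun l _ => (map_sub _ _ _).symm
  set P := (Psi (fun l => i (a l)) β (fun l => i (A l))).map (toPS S) with hP
  have hzero : P.map PowerSeries.constantCoeff = ∏ π, (1 - C (i (gam a A π)) * X) := by
    rw [hP, Polynomial.map_map]
    have h1 : (PowerSeries.constantCoeff).comp (toPS S) = evalRingHom (0 : S) := by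
      apply RingHom.ext
      intro p
      exact toPS_const p
    rw [h1, Psi_zero _ _ _ hai]
    exact Finset.prod_congr rfl fun π _ => by rw [hgi]
  have hroot : ∀ π, (∏ π, (1 - C (i (gam a A π)) * X) : S[X]).eval (i (gam a A π)⁻¹) = 0 := by
    intro π
    rw [eval_prod]
    apply Finset.prod_eq_zero (Finset.mem_univ π)
    rw [eval_sub, eval_one, eval_mul, eval_C, eval_X, ← map_mul, mul_inv_cancel₀ (hg0 π), map_one,
      sub_self]
  have hder : ∀ π, IsUnit ((derivative (∏ π, (1 - C (i (gam a A π)) * X) : S[X])).eval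
      (i (gam a A π)⁻¹)) := by
    intro π
    have h1 : (derivative (∏ π, (1 - C (i (gam a A π)) * X) : S[X])).eval (i (gam a A π)⁻¹) =
        i (- gam a A π * ∏ ρ ∈ Finset.univ.erase π, (1 - gam a A ρ * (gam a A π)⁻¹)) := by
      rw [← Finset.mul_prod_erase Finset.univ (fun π => (1 - C (i (gam a A π)) * X : S[X]))
        (Finset.mem_univ π), derivative_mul, eval_add, eval_mul, eval_mul, eval_sub, eval_one,
        eval_mul, eval_C, eval_X, ← map_mul, mul_inv_cancel₀ (hg0 π), map_one, sub_self, zero_mul,
        add_zero, derivative_sub, derivative_one, derivative_mul, derivative_C, derivative_X,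
        zero_mul, zero_add, mul_one, zero_sub, eval_neg, eval_C, eval_prod, map_mul, map_neg,
        map_prod]
      congr 1
      refine Finset.prod_congr rfl fun ρ _ => ?_
      rw [eval_sub, eval_one, eval_mul, eval_C, eval_X, map_sub, map_one, map_mul]
    rw [h1]
    apply IsUnit.map
    rw [isUnit_iff_ne_zero]
    refine mul_ne_zero (neg_ne_zero.2 (hg0 π)) (Finset.prod_ne_zero_iff.2 fun ρ hρ => ?_)
    rw [sub_ne_zero]
    intro h
    apply (Finset.mem_erase.1 hρ).1
    apply hg
    field_simp [hg0 π] at h
    exact h.symm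
  have key : ∀ π, ∃ r : PowerSeries S, PowerSeries.constantCoeff r = i (gam a A π)⁻¹ ∧
      P.eval r = 0 := by
    intro π
    apply hensel_ps
    · rw [← eval_map_apply, hzero, PowerSeries.constantCoeff_C]
      exact hroot π
    · rw [← eval_map_apply, ← derivative_map, hzero, PowerSeries.constantCoeff_C]
      exact hder π
  choose η h1 h2 using key
  refine ⟨η, h1, h2, ?_⟩
  have hηinj : Function.Injective η := by
    intro π ρ h
    apply hg
    apply inv_injective
    apply i.injective
    rw [← h1, ← h1, h]
  have hdeg : P.natDegree ≤ Fintype.card (Equiv.Perm (Option κ)) :=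
    (natDegree_map_le).trans (Psi_natDegree _ _ _)
  have hlead : P.coeff (Fintype.card (Equiv.Perm (Option κ))) =
      PowerSeries.C (i (∏ π, (- gam a A π))) := by
    have : ∀ b : S, toPS S (C b) = PowerSeries.C b := fun b => Polynomial.coe_C b
    rw [hP, coeff_map, Psi_lead _ _ _ hai, this, map_prod i]
    congr 1
    refine Finset.prod_congr rfl fun π _ => ?_
    rw [hgi, map_neg]
  have h3 := eq_prod_of_roots P η hηinj hdeg h2
  rw [hlead] at h3
  exact h3

/-- uniqueness of the roots -/
theorem roots_unique (i : k →+* S) (a : κ → k) (A : Option κ → k) (β : κ → S)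
    (hg : Function.Injective (gam a A)) (c : PowerSeries S) (hc : c ≠ 0)
    (η : Equiv.Perm (Option κ) → PowerSeries S)
    (h0 : ∀ π, PowerSeries.constantCoeff (η π) = i (gam a A π)⁻¹)
    (h2 : (Psi (fun l => i (a l)) β (fun l => i (A l))).map (toPS S) = C c * ∏ π, (X - C (η π)))
    (r : PowerSeries S) (π : Equiv.Perm (Option κ))
    (hr : PowerSeries.constantCoeff r = i (gam a A π)⁻¹)
    (hr0 : ((Psi (fun l => i (a l)) β (fun l => i (A l))).map (toPS S)).eval r = 0) : r = η π := by
  rw [h2, eval_mul, eval_C, eval_prod] at hr0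
  rcases mul_eq_zero.1 hr0 with h | h
  · exact absurd h hc
  · obtain ⟨ρ, -, hρ⟩ := Finset.prod_eq_zero_iff.1 h
    rw [eval_sub, eval_X, eval_C, sub_eq_zero] at hρ
    have : ρ = π := by
      apply hg
      apply inv_injective
      apply i.injective
      rw [← h0, ← hρ, hr]
    rw [hρ, this]

end

end Pool.Agent.K7.H18.NH
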