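import Mathlib

/-!
# A transposition in a Galois group, from a local computation
-/

set_option autoImplicit false

namespace Pool.Agent.K7.H18.NH

open Polynomial

section
variable {D L1 L2 P : Type} [CommRing D] [IsDomain D] [Field L1] [Field L2] [Fintype P]
  [DecidableEq P]

theorem swap_rel (f1 : D →+* L1) (f2 : D →+* L2) (h1 : Function.Injective f1)
    (h2 : Function.Injective f2) (η : P → L1) (π π' : P) (hne : π ≠ π') (q : P → D[X])
    (hq0 : ∀ ρ, q ρ ≠ 0) (hq : ∀ ρ, (q ρ).eval₂ f1 (η ρ) = 0)
    (hs : ∀ ρ, ρ ≠ π → ρ ≠ π' → ((q ρ).map f2).Splits)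
    (hdeg : (q π).natDegree = 2) (hno : ∀ x, (q π).eval₂ f2 x ≠ 0)
    (hπ' : (q π).eval₂ f1 (η π') = 0) (hηne : η π ≠ η π')
    (F : MvPolynomial P D) (hF : F.eval₂ f1 η = 0) :
    F.eval₂ f1 (fun ρ => η (Equiv.swap π π' ρ)) = 0 := by
  classical
  let B := FractionRing D
  let b1 : B →+* L1 := IsFractionRing.lift h1
  let b2 : B →+* L2 := IsFractionRing.lift h2
  have hb1 : b1.comp (algebraMap D B) = f1 := RingHom.ext fun d => IsFractionRing.lift_algebraMap h1 d
  have hb2 : b2.comp (algebraMap D B) = f2 := RingHom.ext fun d => IsFractionRing.lift_algebraMap h2 d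
  let _ : Algebra B L1 := b1.toAlgebra
  let _ : Algebra B L2 := b2.toAlgebra
  have hDB : Function.Injective (algebraMap D B) := IsFractionRing.injective D B
  let S : Set L1 := {x | ∃ ρ, ρ ≠ π ∧ ρ ≠ π' ∧ x = η ρ}
  let M := IntermediateField.adjoin B S
  have hqB0 : ∀ ρ, (q ρ).map (algebraMap D B) ≠ 0 := fun ρ =>
    (Polynomial.map_ne_zero_iff hDB).2 (hq0 ρ)
  have hM : Nonempty (M →ₐ[B] L2) := by
    apply IntermediateField.nonempty_algHom_adjoin_of_splits
    rintro x ⟨ρ, hρ1, hρ2, rfl⟩
    have e1 : aeval (η ρ) ((q ρ).map (algebraMap D B)) = 0 := by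
      have e : algebraMap B L1 = b1 := rfl
      rw [aeval_def, eval₂_map, e, hb1, hq]
    have e2 : IsIntegral B (η ρ) := by
      rw [← isAlgebraic_iff_isIntegral]
      exact ⟨_, hqB0 ρ, e1⟩
    refine ⟨e2, ?_⟩
    have e3 := Polynomial.map_dvd (algebraMap B L2) (minpoly.dvd B (η ρ) e1)
    refine Splits.of_dvd ?_ ?_ e3
    · have e : algebraMap B L2 = b2 := rfl
      rw [Polynomial.map_map, e, hb2]
      exact hs ρ hρ1 hρ2
    · exact (Polynomial.map_ne_zero_iff (algebraMap B L2).injective).2 (hqB0 ρ)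
  obtain ⟨φ⟩ := hM
  let g : D →+* M := (algebraMap B M).comp (algebraMap D B)
  have hg1 : (algebraMap M L1).comp g = f1 := by
    rw [← hb1]; rfl
  have hg2 : (φ : M →+* L2).comp g = f2 := by
    rw [← hb2]
    apply RingHom.ext
    intro x
    exact φ.commutes _
  set q' := (q π).map g with hq'
  have hginj : Function.Injective g := by
    have : Function.Injective ((algebraMap M L1) ∘ g) := by
      rw [← RingHom.coe_comp, hg1]; exact h1
    exact Function.Injective.of_comp this
  have hq'deg : q'.natDegree = 2 := by rw [hq', natDegree_map_eq_of_injective hginj, hdeg]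
  have hirr : Irreducible q' := by
    apply irreducible_of_degree_le_three_of_not_isRoot
    · rw [hq'deg]; decide
    · intro x hx
      apply hno (φ x)
      rw [← hg2, ← eval₂_map]
      have := congrArg φ hx.eq_zero
      rw [map_zero] at this
      rw [← this]
      exact (hom_eval₂ q' (RingHom.id M) (φ : M →+* L2) x).symm
  have hr1 : aeval (η π) q' = 0 := by
    rw [aeval_def, hq', eval₂_map, hg1, hq]
  have hr2 : aeval (η π') q' = 0 := by
    rw [aeval_def, hq', eval₂_map, hg1, hπ']
  -- the sum of the two roots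
  obtain ⟨s, hs⟩ : ∃ s : M, algebraMap M L1 s = η π + η π' := by
    have e1 : q'.map (algebraMap M L1) = C ((q'.map (algebraMap M L1)).coeff 2) *
        ((X - C (η π)) * (X - C (η π'))) := by
      have e2 : (X - C (η π)) * (X - C (η π')) ∣ q'.map (algebraMap M L1) := by
        apply IsCoprime.mul_dvd
        · apply isCoprime_X_sub_C_of_isUnit_sub
          rw [isUnit_iff_ne_zero, sub_ne_zero]
          exact hηne
        · rw [dvd_iff_isRoot, IsRoot.def, eval_map_algebraMap]; exact hr1
        · rw [dvd_iff_isRoot, IsRoot.def, eval_map_algebraMap]; exact hr2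
      obtain ⟨r, hr⟩ := e2
      have e3 : (q'.map (algebraMap M L1)).natDegree = 2 := by
        rw [natDegree_map_eq_of_injective (algebraMap M L1).injective, hq'deg]
      have e4 : ((X - C (η π)) * (X - C (η π')) : L1[X]).Monic :=
        (monic_X_sub_C _).mul (monic_X_sub_C _)
      have e5 : ((X - C (η π)) * (X - C (η π')) : L1[X]).natDegree = 2 := by
        rw [(monic_X_sub_C (η π)).natDegree_mul (monic_X_sub_C _), natDegree_X_sub_C,
          natDegree_X_sub_C]
      have hr0 : r ≠ 0 := by
        rintro rfl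
        rw [mul_zero] at hr
        rw [hr, natDegree_zero] at e3
        exact absurd e3 (by norm_num)
      have e6 : r.natDegree = 0 := by
        rw [hr, e4.natDegree_mul' hr0, e5] at e3
        omega
      rw [eq_C_of_natDegree_eq_zero e6] at hr
      have e7 : (q'.map (algebraMap M L1)).coeff 2 = r.coeff 0 := by
        rw [hr, coeff_mul_C]
        have := e4.coeff_natDegree
        rw [e5] at this
        rw [this, one_mul]
      rw [e7]
      rw [hr]
      ring
    have e8 := congrArg (fun p => p.coeff 1) e1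
    simp only [coeff_C_mul] at e8
    have e9 : ((X - C (η π)) * (X - C (η π')) : L1[X]).coeff 1 = -(η π + η π') := by
      have : ((X - C (η π)) * (X - C (η π')) : L1[X]) =
          X ^ 2 - C (η π + η π') * X + C (η π * η π') := by
        rw [C_add, C_mul]; ring
      rw [this, coeff_add, coeff_sub, coeff_C_mul, coeff_X_one, coeff_C_of_ne_zero one_ne_zero,
        coeff_X_pow, if_neg (by norm_num)]
      ring
    rw [e9, coeff_map (algebraMap M L1), coeff_map (algebraMap M L1)] at e8
    have e10 : q'.coeff 2 ≠ 0 := by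
      have : q' ≠ 0 := hirr.ne_zero
      rw [← hq'deg]
      exact leadingCoeff_ne_zero.2 this
    have e11 : algebraMap M L1 (q'.coeff 2) ≠ 0 := (_root_.map_ne_zero _).2 e10
    refine ⟨- q'.coeff 1 / q'.coeff 2, ?_⟩
    rw [map_div₀, map_neg, e8, div_eq_iff e11]
    ring
  -- the polynomial in one variable
  have hmem : ∀ ρ, ρ ≠ π → ρ ≠ π' → η ρ ∈ M := fun ρ e1 e2 =>
    IntermediateField.subset_adjoin B S ⟨ρ, e1, e2, rfl⟩
  let v : P → M[X] := fun ρ => if e1 : ρ = π then X else if e2 : ρ = π' then C s - X else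
    C ⟨η ρ, hmem ρ e1 e2⟩
  let p : M[X] := F.eval₂ (C.comp g) v
  have hp : ∀ x y : L1, x + y = η π + η π' → aeval x p =
      F.eval₂ f1 (fun ρ => if ρ = π then x else if ρ = π' then y else η ρ) := by
    intro x y hxy
    have e1 := MvPolynomial.eval₂_comp_left ((aeval x : M[X] →ₐ[M] L1) : M[X] →+* L1) (C.comp g) v F
    have e2 : ((aeval x : M[X] →ₐ[M] L1) : M[X] →+* L1).comp (C.comp g) = f1 := by
      rw [← hg1]
      apply RingHom.ext
      intro d
      exact aeval_C x (g d)
    rw [e2] at e1
    refine e1.trans ?_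
    congr 1
    funext ρ
    show aeval x (v ρ) = _
    by_cases c1 : ρ = π
    · simp only [v, dif_pos c1, if_pos c1, aeval_X]
    · by_cases c2 : ρ = π'
      · simp only [v, dif_neg c1, if_neg c1, dif_pos c2, if_pos c2]
        rw [map_sub, aeval_C, aeval_X, hs, ← hxy, add_sub_cancel_left]
      · simp only [v, dif_neg c1, if_neg c1, dif_neg c2, if_neg c2]
        rw [aeval_C]; rfl
  have hη : (fun ρ => if ρ = π then η π else if ρ = π' then η π' else η ρ) = η := by
    funext ρ
    by_cases c1 : ρ = π
    · rw [if_pos c1, c1]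
    · by_cases c2 : ρ = π'
      · rw [if_neg c1, if_pos c2, c2]
      · rw [if_neg c1, if_neg c2]
  have hη' : (fun ρ => if ρ = π then η π' else if ρ = π' then η π else η ρ) =
      fun ρ => η (Equiv.swap π π' ρ) := by
    funext ρ
    by_cases c1 : ρ = π
    · rw [if_pos c1, c1, Equiv.swap_apply_left]
    · by_cases c2 : ρ = π'
      · rw [if_neg c1, if_pos c2, c2, Equiv.swap_apply_right]
      · rw [if_neg c1, if_neg c2, Equiv.swap_apply_of_ne_of_ne c1 c2]
  have hp1 : aeval (η π) p = 0 := by
    rw [hp (η π) (η π') rfl, hη, hF]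
  have hdvd : q' ∣ p := by
    have e1 := minpoly.dvd M (η π) hp1
    rw [← minpoly.eq_of_irreducible hirr hr1] at e1
    exact dvd_of_mul_right_dvd e1
  obtain ⟨r, hr⟩ := hdvd
  have hp2 : aeval (η π') p = 0 := by
    rw [hr, map_mul, hr2, zero_mul]
  rw [hp (η π') (η π) (add_comm _ _), hη'] at hp2
  exact hp2

end

end Pool.Agent.K7.H18.NH
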