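import Pool.Agent.K7.H18.NH.Local
import Pool.Agent.K7.H18.NH.SwapRel

/-!
# The special member of the family
-/

set_option autoImplicit false

namespace Pool.Agent.K7.H18.NH

open Polynomial

section
variable {κ : Type} [Fintype κ] [DecidableEq κ]

/-- the product over the other indices -/
def kap {S : Type} [CommRing S] (a : κ → S) (A : Option κ → S) (i : κ)
    (π : Equiv.Perm (Option κ)) : S := ∏ l ∈ Finset.univ.erase i, (A (π (some l)) - a l)

/-- the parameters of the special member -/
def bet {S : Type} [CommRing S] (i : κ) (b : S) : κ → S := fun l => if l = i then b else 0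

/-- the other ordering -/
def sw (i : κ) (π : Equiv.Perm (Option κ)) : Equiv.Perm (Option κ) :=
  π * Equiv.swap none (some i)

omit [Fintype κ] in
theorem sw_none (i : κ) (π : Equiv.Perm (Option κ)) : sw i π none = π (some i) := by
  simp [sw]

omit [Fintype κ] in
theorem sw_some (i : κ) (π : Equiv.Perm (Option κ)) : sw i π (some i) = π none := by
  simp [sw]

omit [Fintype κ] in
theorem sw_other (i l : κ) (h : l ≠ i) (π : Equiv.Perm (Option κ)) :
    sw i π (some l) = π (some l) := by
  show π (Equiv.swap none (some i) (some l)) = π (some l)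
  rw [Equiv.swap_apply_of_ne_of_ne (by simp) (by simpa using h)]

omit [Fintype κ] in
theorem sw_ne (i : κ) (π : Equiv.Perm (Option κ)) : sw i π ≠ π := by
  intro h
  have h1 := sw_none i π
  rw [h] at h1
  exact absurd (π.injective h1) (by simp)

omit [Fintype κ] in
theorem sw_sw (i : κ) (π : Equiv.Perm (Option κ)) : sw i (sw i π) = π := by
  unfold sw
  rw [mul_assoc, Equiv.swap_mul_self, mul_one]

theorem kap_sw {S : Type} [CommRing S] (a : κ → S) (A : Option κ → S) (i : κ)
    (π : Equiv.Perm (Option κ)) : kap a A i (sw i π) = kap a A i π := by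
  unfold kap
  refine Finset.prod_congr rfl fun l hl => ?_
  rw [sw_other i l (Finset.mem_erase.1 hl).1]

theorem gam_eq {S : Type} [CommRing S] (a : κ → S) (A : Option κ → S) (i : κ)
    (π : Equiv.Perm (Option κ)) : gam a A π = kap a A i π * (A (π (some i)) - a i) := by
  unfold gam kap
  rw [mul_comm, Finset.mul_prod_erase Finset.univ (fun l => A (π (some l)) - a l)
    (Finset.mem_univ i)]

variable {k E : Type} [Field k] [Field E]

theorem chi_bet {S : Type} [CommRing S] (a : κ → S) (i : κ) (y s r : S) (hy : s + r = y + a i) :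
    chi a (bet i (s * r)) y = ∏ l : Option κ, (X + C (l.elim (s - a i)
      (fun l => if l = i then r - a i else - a l))) := by
  unfold chi
  rw [Finset.sum_eq_single i]
  · rw [Fintype.prod_option, ← Finset.mul_prod_erase Finset.univ _ (Finset.mem_univ i),
      ← Finset.mul_prod_erase Finset.univ _ (Finset.mem_univ i)]
    have h1 : ∏ l ∈ Finset.univ.erase i, (X + C ((some l).elim (s - a i)
        (fun l => if l = i then r - a i else - a l)) : S[X]) =
        ∏ l ∈ Finset.univ.erase i, (X - C (a l)) := by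
      refine Finset.prod_congr rfl fun l hl => ?_
      show X + C (if l = i then r - a i else - a l) = _
      rw [if_neg (Finset.mem_erase.1 hl).1, C_neg, sub_eq_add_neg]
    rw [h1]
    show _ = (X + C (s - a i)) * ((X + C (if i = i then r - a i else - a i)) * _)
    rw [if_pos rfl]
    have h2 : bet i (s * r) i = s * r := if_pos rfl
    rw [h2]
    have h3 : (C y : S[X]) = C s + C r - C (a i) := by
      rw [← C_add, hy, C_add, add_sub_cancel_right]
    rw [h3, C_mul, C_sub, C_sub]
    ring
  · intro l _ hl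
    have : bet i (s * r) l = 0 := if_neg hl
    rw [this, C_0, zero_mul]
  · intro h; exact absurd (Finset.mem_univ i) h

/-- the roots of the quadratic polynomial are roots of `Psi` -/
theorem Psi_root_of_qv (φ : k →+* E) (a : κ → k) (A : Option κ → k) (ha : Function.Injective a)
    (hA : Function.Injective A) (i : κ) (b : k) (π : Equiv.Perm (Option κ)) (z η : E) (hz : z ≠ 0)
    (h : qv (φ (kap a A i π)) (φ (A (π none) - a i)) (φ (A (π (some i)) - a i)) (φ (a i)) (φ b)
      z η = 0) :
    (Psi a (bet i b) A).eval₂ (eval₂RingHom φ z) η = 0 := by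
  classical
  set c := φ (kap a A i π) with hc
  set d := φ (A (π none) - a i) with hd
  set d' := φ (A (π (some i)) - a i) with hd'
  have hc0 : c ≠ 0 := by
    intro h0
    rw [h0] at h
    unfold qv at h
    simp at h
  have hdd : d' - d ≠ 0 := by
    rw [hd, hd', ← map_sub, _root_.map_ne_zero]
    intro h0
    have h1 : A (π (some i)) = A (π none) := by linear_combination h0
    exact absurd (π.injective (hA h1)) (by simp)
  set W := 1 - c * z * (φ b + d * d') with hW
  set y := z⁻¹ * η with hy
  have hη : η = z * y := by rw [hy, mul_inv_cancel_left₀ hz]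
  have hcz : c * z ≠ 0 := mul_ne_zero hc0 hz
  set s := (W - d * (c * z * (y + φ (a i)))) / ((d' - d) * (c * z)) with hs
  set r := -(W - d' * (c * z * (y + φ (a i)))) / ((d' - d) * (c * z)) with hr
  have hq : (W - d * (c * z * (y + φ (a i)))) * (W - d' * (c * z * (y + φ (a i)))) +
      c ^ 2 * z ^ 2 * (d - d') ^ 2 * φ b = 0 := by
    rw [← h, hη]
    unfold qv
    ring
  have hden : (d' - d) * (c * z) ≠ 0 := mul_ne_zero hdd hcz
  have hs1 : (d' - d) * (c * z) * s = W - d * (c * z * (y + φ (a i))) := mul_div_cancel₀ _ hden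
  have hr1 : (d' - d) * (c * z) * r = -(W - d' * (c * z * (y + φ (a i)))) :=
    mul_div_cancel₀ _ hden
  have hsum : s + r = y + φ (a i) := by
    apply mul_left_cancel₀ hden
    linear_combination hs1 + hr1
  have hprod : s * r = φ b := by
    apply mul_left_cancel₀ (pow_ne_zero 2 hden)
    have : ((d' - d) * (c * z)) ^ 2 * (s * r) =
        ((d' - d) * (c * z) * s) * ((d' - d) * (c * z) * r) := by ring
    rw [this, hs1, hr1]
    linear_combination -hq
  have hw : z⁻¹ = c * ((s + d) * (r + d')) := by
    apply mul_left_cancel₀ hz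
    rw [mul_inv_cancel₀ hz]
    apply mul_left_cancel₀ hdd
    have e1 : (d' - d) * (z * (c * ((s + d) * (r + d')))) = (d' - d) * (c * z) * (s * r) +
      d' * ((d' - d) * (c * z) * s) + d * ((d' - d) * (c * z) * r) +
      (d' - d) * (c * z) * (d * d') := by ring
    rw [e1, hs1, hr1, hprod, hW]
    ring
  rw [hη, Psi_eval φ a _ A ha z z⁻¹ y (mul_inv_cancel₀ hz), Phi_eval]
  have hchi : chi (fun l => φ (a l)) (fun l => φ (bet i b l)) y =
      ∏ l : Option κ, (X + C (l.elim (s - φ (a i))
      (fun l => if l = i then r - φ (a i) else - φ (a l)))) := by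
    rw [← chi_bet (fun l => φ (a l)) i y s r hsum, hprod]
    congr 1
    funext l
    unfold bet
    split_ifs
    · rfl
    · exact map_zero _
  rw [hchi, V_split, Finset.prod_eq_zero (Finset.mem_univ π), mul_zero]
  rw [Fintype.prod_option, ← Finset.mul_prod_erase Finset.univ _ (Finset.mem_univ i)]
  have h1 : ∏ l ∈ Finset.univ.erase i, ((some l).elim (s - φ (a i))
        (fun l => if l = i then r - φ (a i) else - φ (a l)) + φ (A (π (some l)))) = c := by
    rw [hc]
    unfold kap
    rw [map_prod]
    refine Finset.prod_congr rfl fun l hl => ?_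
    show (if l = i then r - φ (a i) else - φ (a l)) + φ (A (π (some l))) = _
    rw [if_neg (Finset.mem_erase.1 hl).1, map_sub]
    ring
  rw [h1]
  show z⁻¹ - (s - φ (a i) + φ (A (π none))) *
    (((if i = i then r - φ (a i) else - φ (a i)) + φ (A (π (some i)))) * c) = 0
  rw [if_pos rfl, hw, hd, hd', map_sub, map_sub]
  ring

/-- the power series root is a root of the quadratic polynomial -/
theorem qv_root (a : κ → k) (A : Option κ → k) (ha : Function.Injective a)
    (hA : Function.Injective A) (hg0 : ∀ π, gam a A π ≠ 0) (hg : Function.Injective (gam a A))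
    (i : κ) (b : k) (c : PowerSeries k) (hc : c ≠ 0)
    (η : Equiv.Perm (Option κ) → PowerSeries k)
    (h0 : ∀ π, PowerSeries.constantCoeff (η π) = (gam a A π)⁻¹)
    (h2 : (Psi a (bet i b) A).map (toPS k) = C c * ∏ π, (X - C (η π)))
    (π : Equiv.Perm (Option κ)) :
    qv (PowerSeries.C (kap a A i π)) (PowerSeries.C (A (π none) - a i))
      (PowerSeries.C (A (π (some i)) - a i)) (PowerSeries.C (a i)) (PowerSeries.C b)
      PowerSeries.X (η π) = 0 := by
  classical
  set K := kap a A i π with hK
  set d := A (π none) - a i with hd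
  set d' := A (π (some i)) - a i with hd'
  have hgπ : gam a A π = K * d' := gam_eq a A i π
  have hgπ' : gam a A (sw i π) = K * d := by
    rw [gam_eq a A i, kap_sw, sw_some]
  have hK0 : K ≠ 0 := left_ne_zero_of_mul (by rw [← hgπ]; exact hg0 π)
  have hd0 : d ≠ 0 := right_ne_zero_of_mul (by rw [← hgπ']; exact hg0 _)
  have hd'0 : d' ≠ 0 := right_ne_zero_of_mul (by rw [← hgπ]; exact hg0 _)
  have hdd : d ≠ d' := by
    intro h
    apply sw_ne i π
    apply hg
    rw [hgπ, hgπ', h]
  let f : (PowerSeries k)[X] := (qt K d d' (a i) b).map (toPS k)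
  have hCC : ∀ x : k, toPS k (C x) = PowerSeries.C x := fun x => Polynomial.coe_C x
  have hXX : toPS k X = PowerSeries.X := Polynomial.coe_X
  have hf : ∀ x, f.eval x = qv (PowerSeries.C K) (PowerSeries.C d) (PowerSeries.C d')
      (PowerSeries.C (a i)) (PowerSeries.C b) PowerSeries.X x := by
    intro x
    rw [eval_map, qt_eval]
    simp only [hCC, hXX]
  have hfc : f.map PowerSeries.constantCoeff = C (d * d' * K ^ 2) * X ^ 2 +
      C (-(K * (d + d'))) * X + C 1 := by
    rw [Polynomial.map_map, qt_eq]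
    have h1 : (PowerSeries.constantCoeff).comp (toPS k) = evalRingHom (0 : k) :=
      RingHom.ext fun p => toPS_const p
    rw [h1]
    simp only [Polynomial.map_add, Polynomial.map_mul, Polynomial.map_C, Polynomial.map_pow,
      Polynomial.map_X]
    rw [qm_map (evalRingHom (0 : k)), qc_map (evalRingHom (0 : k))]
    simp only [coe_evalRingHom, eval_C, eval_X]
    congr 2
    · congr 2
      unfold qm; ring
    · unfold qc; ring
  obtain ⟨r, hr0, hr⟩ := hensel_ps f (K * d')⁻¹ (by
    rw [← eval_map_apply, hfc, PowerSeries.constantCoeff_C]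
    simp only [eval_add, eval_mul, eval_C, eval_pow, eval_X]
    field_simp
    ring) (by
    rw [← eval_map_apply, ← derivative_map, hfc, PowerSeries.constantCoeff_C, isUnit_iff_ne_zero]
    simp only [derivative_add, derivative_mul, derivative_C, derivative_X_pow, derivative_X,
      eval_add, eval_mul, eval_C, eval_X, zero_mul, zero_add, mul_one, add_zero,
      Nat.cast_ofNat, Nat.add_one_sub_one, pow_one]
    intro h
    have h' : d * d' * K ^ 2 * (2 * (K * d')⁻¹) + -(K * (d + d')) = 0 := h
    have e1 : d * d' * K ^ 2 * (2 * (K * d')⁻¹) = 2 * d * K := by field_simp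
    rw [e1] at h'
    have e2 : K * (d - d') = 0 := by linear_combination h'
    rcases mul_eq_zero.1 e2 with h3 | h3
    · exact hK0 h3
    · exact hdd (sub_eq_zero.1 h3))
  have hinj : Function.Injective (inc k) := HahnSeries.ofPowerSeries_injective
  have hP : ((Psi a (bet i b) A).map (toPS k)).eval r = 0 := by
    apply hinj
    rw [map_zero]
    have e1 : inc k (((Psi a (bet i b) A).map (toPS k)).eval r) =
        (Psi a (bet i b) A).eval₂ (eval₂RingHom ((inc k).comp PowerSeries.C)
          (inc k PowerSeries.X)) (inc k r) := by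
      rw [← eval_map_apply, Polynomial.map_map, eval_map]
      congr 1
      apply Polynomial.ringHom_ext
      · intro x
        rw [RingHom.comp_apply, hCC, coe_eval₂RingHom, eval₂_C, RingHom.comp_apply]
      · rw [RingHom.comp_apply, hXX, coe_eval₂RingHom, eval₂_X]
    rw [e1]
    apply Psi_root_of_qv _ a A ha hA i b π
    · intro h
      rw [← map_zero (inc k)] at h
      exact PowerSeries.X_ne_zero (hinj h)
    · have := congrArg (inc k) (hf r)
      rw [hr, map_zero, qv_map] at this
      exact this.symm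
  have hrη := roots_unique (RingHom.id k) a A (bet i b) hg c hc η h0 h2 r π
    (by rw [hr0, hgπ]; rfl) hP
  rw [← hrη, ← hf, hr]

/-- the conditions on `ε` -/
def Good (a : κ → k) (A : Option κ → k) (i : κ) (b : k) (π : Equiv.Perm (Option κ)) : Prop :=
  ∃ ε : k, b = ε ^ 2 * ((A (π none) - a i) * (A (π (some i)) - a i)) ∧ ε ≠ 0 ∧ 1 + ε ≠ 0 ∧
    ∀ ρ, ρ ≠ π → ρ ≠ sw i π →
      (kap a A i π * ((A (π none) - a i) * (A (π (some i)) - a i)) * (1 + ε) ^ 2 -
        kap a A i ρ * (b + (A (ρ none) - a i) * (A (ρ (some i)) - a i))) ^ 2 -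
        4 * ((A (ρ none) - a i) * (A (ρ (some i)) - a i)) * kap a A i ρ ^ 2 * b ≠ 0

/-- the transposition in the Galois group of the special member -/
theorem spec_swap [IsAlgClosed k] (a : κ → k) (A : Option κ → k) (ha : Function.Injective a)
    (hA : Function.Injective A) (hg0 : ∀ π, gam a A π ≠ 0) (hg : Function.Injective (gam a A))
    (i : κ) (b : k) (c : PowerSeries k) (hc : c ≠ 0)
    (η : Equiv.Perm (Option κ) → PowerSeries k)
    (h0 : ∀ π, PowerSeries.constantCoeff (η π) = (gam a A π)⁻¹)
    (h2 : (Psi a (bet i b) A).map (toPS k) = C c * ∏ π, (X - C (η π)))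
    (π : Equiv.Perm (Option κ)) (hgood : Good a A i b π)
    (F : MvPolynomial (Equiv.Perm (Option κ)) k[X])
    (hF : F.eval₂ ((inc k).comp (toPS k)) (fun ρ => inc k (η ρ)) = 0) :
    F.eval₂ ((inc k).comp (toPS k)) (fun ρ => inc k (η (Equiv.swap π (sw i π) ρ))) = 0 := by
  classical
  obtain ⟨ε, hb, hε, hε1, hdisc⟩ := hgood
  have hinj : Function.Injective (inc k) := HahnSeries.ofPowerSeries_injective
  have hCC : ∀ x : k, toPS k (C x) = PowerSeries.C x := fun x => Polynomial.coe_C x
  have hXX : toPS k X = PowerSeries.X := Polynomial.coe_X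
  have hroot := qv_root a A ha hA hg0 hg i b c hc η h0 h2
  have hK0 : ∀ ρ, kap a A i ρ ≠ 0 := fun ρ =>
    left_ne_zero_of_mul (by rw [← gam_eq]; exact hg0 ρ)
  have hd'0 : ∀ ρ : Equiv.Perm (Option κ), A (ρ (some i)) - a i ≠ 0 := fun ρ =>
    right_ne_zero_of_mul (by rw [← gam_eq]; exact hg0 ρ)
  have hd0 : ∀ ρ : Equiv.Perm (Option κ), A (ρ none) - a i ≠ 0 := fun ρ => by
    rw [← sw_some i ρ]; exact hd'0 _
  have hη0 : Function.Injective η := by
    intro ρ ρ' h
    apply hg
    apply inv_injective
    rw [← h0, ← h0, h]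
  set w1 := kap a A i π * ((A (π none) - a i) * (A (π (some i)) - a i)) * (1 + ε) ^ 2 with hw1
  have hw10 : w1 ≠ 0 := mul_ne_zero (mul_ne_zero (hK0 π) (mul_ne_zero (hd0 π) (hd'0 π)))
    (pow_ne_zero 2 hε1)
  set z1 := w1⁻¹ with hz1
  let q : Equiv.Perm (Option κ) → k[X][X] := fun ρ =>
    qt (kap a A i ρ) (A (ρ none) - a i) (A (ρ (some i)) - a i) (a i) b
  let g2 : k[X] →+* PowerSeries k :=
    eval₂RingHom PowerSeries.C (PowerSeries.C z1 + PowerSeries.X)
  have hg2C : ∀ x, g2 (C x) = PowerSeries.C x := fun x => by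
    show (C x).eval₂ _ _ = _
    rw [eval₂_C]
  have hg2X : g2 X = PowerSeries.C z1 + PowerSeries.X := by
    show X.eval₂ _ _ = _
    rw [eval₂_X]
  have hqdeg : ∀ ρ, (q ρ).natDegree = 2 := fun ρ =>
    qt_natDegree _ _ _ _ _ (mul_ne_zero (mul_ne_zero (hd0 ρ) (hd'0 ρ)) (pow_ne_zero 2 (hK0 ρ)))
  have hqe : ∀ ρ (x : PowerSeries k), (q ρ).eval₂ ((inc k).comp (toPS k)) (inc k x) =
      inc k (qv (PowerSeries.C (kap a A i ρ)) (PowerSeries.C (A (ρ none) - a i))
      (PowerSeries.C (A (ρ (some i)) - a i)) (PowerSeries.C (a i)) (PowerSeries.C b)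
      PowerSeries.X x) := by
    intro ρ x
    rw [qt_eval, qv_map]
    simp only [RingHom.comp_apply, hCC, hXX]
  refine swap_rel ((inc k).comp (toPS k)) ((inc k).comp g2) ?_ ?_ (fun ρ => inc k (η ρ)) π (sw i π)
    (sw_ne i π).symm q ?_ ?_ ?_ (hqdeg π) ?_ ?_ ?_ F hF
  · rw [RingHom.coe_comp]
    exact hinj.comp toPS_inj
  · rw [RingHom.coe_comp]
    exact hinj.comp (taylor_k_inj z1)
  · intro ρ h
    have := hqdeg ρ
    rw [h, natDegree_zero] at this
    exact absurd this (by norm_num)
  · intro ρ
    rw [hqe, hroot ρ, map_zero]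
  · intro ρ hρ1 hρ2
    have e1 : (q ρ).map ((inc k).comp g2) =
        (C (g2 (C ((A (ρ none) - a i) * (A (ρ (some i)) - a i) * kap a A i ρ ^ 2))) * X ^ 2 +
          C (g2 (qm (C (kap a A i ρ)) (C (A (ρ none) - a i)) (C (A (ρ (some i)) - a i))
            (C (a i)) (C b) X)) * X +
          C (g2 (qc (C (kap a A i ρ)) (C (A (ρ none) - a i)) (C (A (ρ (some i)) - a i))
            (C (a i)) (C b) X)) : (PowerSeries k)[X]).map (inc k) := by
      show (qt _ _ _ _ _).map ((inc k).comp g2) = _
      rw [qt_eq, ← Polynomial.map_map]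
      simp only [Polynomial.map_add, Polynomial.map_mul, Polynomial.map_C, Polynomial.map_pow,
        Polynomial.map_X]
    rw [e1]
    apply quad_splits
    · rw [hg2C, PowerSeries.constantCoeff_C]
      exact mul_ne_zero (mul_ne_zero (hd0 ρ) (hd'0 ρ)) (pow_ne_zero 2 (hK0 ρ))
    · rw [hg2C, PowerSeries.constantCoeff_C, qm_map, qm_map, qc_map, qc_map]
      simp only [hg2C, hg2X, PowerSeries.constantCoeff_C, map_add, PowerSeries.constantCoeff_X,
        add_zero]
      rw [q_disc]
      refine mul_ne_zero (mul_ne_zero (pow_ne_zero 2 (hK0 ρ)) (pow_ne_zero 2 ?_)) ?_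
      · intro h
        have h1 : A (ρ none) = A (ρ (some i)) := by linear_combination h
        exact absurd (ρ.injective (hA h1)) (by simp)
      · intro h
        apply hdisc ρ hρ1 hρ2
        have h3 : w1 * z1 = 1 := mul_inv_cancel₀ hw10
        have h4 : (w1 - kap a A i ρ * (b + (A (ρ none) - a i) * (A (ρ (some i)) - a i))) ^ 2 -
          4 * ((A (ρ none) - a i) * (A (ρ (some i)) - a i)) * kap a A i ρ ^ 2 * b =
          w1 ^ 2 * ((1 - kap a A i ρ * z1 * (b + (A (ρ none) - a i) * (A (ρ (some i)) - a i))) ^ 2 -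
          4 * ((A (ρ none) - a i) * (A (ρ (some i)) - a i)) * kap a A i ρ ^ 2 * z1 ^ 2 * b) := by
          have h5 : w1 ^ 2 * z1 ^ 2 = 1 := by rw [← mul_pow, h3, one_pow]
          set KK := kap a A i ρ
          set dd := (A (ρ none) - a i) * (A (ρ (some i)) - a i)
          linear_combination (2 * w1 * KK * (b + dd) - (w1 * z1 + 1) * (KK * (b + dd)) ^ 2) * h3 +
            4 * dd * KK ^ 2 * b * h5
        rw [h4, h, mul_zero]
  · intro x hx
    rw [qt_eval] at hx
    simp only [RingHom.comp_apply, hg2C, hg2X, map_add (inc k)] at hx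
    set ι' : k →+* LaurentSeries k := (inc k).comp PowerSeries.C with hι'
    have hι : ∀ t : k, inc k (PowerSeries.C t) = ι' t := fun t => rfl
    simp only [hι] at hx
    have hz : ι' z1 * (ι' (kap a A i π) * (ι' (A (π none) - a i) * ι' (A (π (some i)) - a i)) *
        (1 + ι' ε) ^ 2) = 1 := by
      have h3 : z1 * w1 = 1 := inv_mul_cancel₀ hw10
      have := congrArg ι' h3
      rw [map_mul, hw1, map_mul, map_mul, map_mul, map_pow, map_add, map_one] at this
      exact this
    have e1 := qv_expand (ι' (kap a A i π)) (ι' (A (π none) - a i)) (ι' (A (π (some i)) - a i))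
      (ι' (a i)) (ι' ε) (ι' z1) (inc k PowerSeries.X) (x - ι' z1 * (ι' ε * (ι' (A (π none) - a i) +
        ι' (A (π (some i)) - a i)) - ι' (a i))) hz
    rw [add_sub_cancel] at e1
    have e2 : ι' b = ι' ε ^ 2 * (ι' (A (π none) - a i) * ι' (A (π (some i)) - a i)) := by
      rw [hb, map_mul, map_pow, map_mul]
    rw [← e2, hx] at e1
    set d := A (π none) - a i with hd
    set d' := A (π (some i)) - a i with hd'
    set K := kap a A i π with hK
    refine no_root (d * d' * K ^ 2) ((d + d') * (K * (ε ^ 2 * (d * d') + d * d')) * K +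
        2 * (d * d') * K ^ 2 * a i) (K * ε * (d - d') ^ 2) ((K * (ε ^ 2 * (d * d') + d * d')) ^ 2 +
        (d + d') * (K * (ε ^ 2 * (d * d') + d * d')) * K * a i + d * d' * K ^ 2 * a i ^ 2 +
        K ^ 2 * (d - d') ^ 2 * (ε ^ 2 * (d * d'))) ?_ ?_ (x - ι' z1 * (ι' ε * (ι' d +
        ι' d') - ι' (a i))) ?_
    · exact mul_ne_zero (mul_ne_zero (hd0 π) (hd'0 π)) (pow_ne_zero 2 (hK0 π))
    · refine mul_ne_zero (mul_ne_zero (hK0 π) hε) (pow_ne_zero 2 ?_)
      intro h
      have h1 : A (π none) = A (π (some i)) := by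
        rw [hd, hd'] at h
        linear_combination h
      exact absurd (π.injective (hA h1)) (by simp)
    · simp only [hι]
      have e3 : ι' 2 = 2 := map_ofNat ι' 2
      simp only [map_add, map_mul, map_sub, map_pow, e3]
      rw [e2, map_sub, map_sub] at e1
      rw [hd, hd', map_sub, map_sub]
      exact e1.symm
  · have := hroot (sw i π)
    rw [kap_sw, sw_none, sw_some, qv_symm] at this
    rw [hqe, this, map_zero]
  · intro h
    exact sw_ne i π (hη0 (hinj h)).symm

end

end Pool.Agent.K7.H18.NH
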