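import Pool.Agent.K7.H18.NH.Fix

/-!
# A fibre which splits completely
-/

set_option autoImplicit false

namespace Pool.Agent.K7.H18.NH

open Polynomial NG

section
variable {P : Type} [Fintype P] [DecidableEq P]

/-- the resolvent of a polynomial -/
noncomputable def hQ {S : Type} [CommRing S] (Q : S[X][X]) (cw : P → S) : S[X][X] :=
  H (Q.map C) (fun π => C (C (cw π))) X

theorem hQ_map {S S' : Type} [CommRing S] [CommRing S'] (φ : S →+* S') (Q : S[X][X])
    (cw : P → S) : (hQ Q cw).map (mapRingHom φ) = hQ (Q.map (mapRingHom φ)) (fun π => φ (cw π)) := by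
  unfold hQ
  rw [← coe_mapRingHom, H_map, coe_mapRingHom, Polynomial.map_map, Polynomial.map_X]
  congr 1
  · rw [Polynomial.map_map]
    congr 1
    apply RingHom.ext
    intro p
    rw [RingHom.comp_apply, RingHom.comp_apply, coe_mapRingHom, map_C]
  · funext π
    rw [map_C, coe_mapRingHom, map_C]

theorem hQ_split {S E : Type} [CommRing S] [CommRing E] (ψ : S[X] →+* E) (Q : S[X][X])
    (cw : P → S) (η : P → E) (h : Q.map ψ = ∏ π, (X - C (η π))) :
    (hQ Q cw).map ψ = ∏ g : Equiv.Perm P, (X - C (∑ π, ψ (C (cw π)) * η (g π))) := by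
  unfold hQ
  rw [← coe_mapRingHom, H_map, coe_mapRingHom, Polynomial.map_map, Polynomial.map_X]
  have h1 : Q.map ((mapRingHom ψ).comp C) = ∏ π, (X - C (C (η π))) := by
    have h2 : (mapRingHom ψ).comp C = (C : E →+* E[X]).comp ψ := by
      apply RingHom.ext
      intro p
      rw [RingHom.comp_apply, RingHom.comp_apply, coe_mapRingHom, map_C]
    rw [h2, ← Polynomial.map_map, h, Polynomial.map_prod]
    refine Finset.prod_congr rfl fun π _ => ?_
    rw [Polynomial.map_sub, map_X, map_C]
  rw [h1, H_split]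
  refine Finset.prod_congr rfl fun g _ => ?_
  rw [map_sum]
  congr 1
  refine Finset.sum_congr rfl fun π _ => ?_
  rw [map_C, C_mul]

theorem inj_of_sums {L : Type} [Field L] (c r : P → L)
    (h : Function.Injective (fun g : Equiv.Perm P => ∑ π, c π * r (g π))) :
    Function.Injective r := by
  intro π ρ hr
  by_contra hne
  have h1 : (fun g : Equiv.Perm P => ∑ π, c π * r (g π)) 1 =
      (fun g : Equiv.Perm P => ∑ π, c π * r (g π)) (Equiv.swap π ρ) := by
    refine Finset.sum_congr rfl fun x _ => ?_
    congr 1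
    show r x = r (Equiv.swap π ρ x)
    by_cases h1 : x = π
    · rw [h1, Equiv.swap_apply_left, hr]
    · by_cases h2 : x = ρ
      · rw [h2, Equiv.swap_apply_right, hr]
      · rw [Equiv.swap_apply_of_ne_of_ne h1 h2]
  have h2 := h h1
  have h3 := congrArg (fun g : Equiv.Perm P => g π) h2
  simp only [Equiv.Perm.one_apply, Equiv.swap_apply_left] at h3
  exact hne h3

theorem sep_denoms' {D F ι B : Type} [CommRing D] [IsDomain D] [Field F] [Fintype ι]
    [Field B] [Algebra D B] [IsFractionRing D B]
    (f1 : D →+* F) (hf1 : Function.Injective f1) (h : D[X]) (θ : ι → F)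
    (hθ : Function.Injective θ) (hsp : h.map f1 = ∏ i, (X - C (θ i))) :
    IsCoprime (h.map (algebraMap D B)) ((derivative h).map (algebraMap D B)) := by
  have hf2 : (IsFractionRing.lift hf1 : B →+* F).comp (algebraMap D B) = f1 :=
    RingHom.ext fun d => IsFractionRing.lift_algebraMap hf1 d
  have h1 : ((h.map (algebraMap D B)).map (IsFractionRing.lift hf1 : B →+* F)).Separable := by
    rw [Polynomial.map_map, hf2, hsp]
    exact separable_prod_X_sub_C_iff.2 hθ
  have h3 : (h.map (algebraMap D B)).Separable := (separable_map _).1 h1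
  rw [← derivative_map]
  exact h3

theorem sep_denoms {D F ι : Type} [CommRing D] [IsDomain D] [Field F] [Fintype ι]
    (f1 : D →+* F) (hf1 : Function.Injective f1) (h : D[X]) (θ : ι → F)
    (hθ : Function.Injective θ) (hsp : h.map f1 = ∏ i, (X - C (θ i))) :
    ∃ (A' B' : D[X]) (d : D), d ≠ 0 ∧ A' * h + B' * derivative h = C d :=
  clear_denoms (B := FractionRing D) h (derivative h) (sep_denoms' f1 hf1 h θ hθ hsp)

theorem split_fibre {K F : Type} [Field K] [Field F] [Algebra K F] (hPAC : PAC K)
    (Q : K[X][X]) (cw : P → K) (hQm : Q.Monic) (hQd : Q.natDegree = Fintype.card P)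
    (η : P → PowerSeries F)
    (hη : Q.map ((toPS F).comp (mapRingHom (algebraMap K F))) = ∏ π, (X - C (η π)))
    (hcw : Function.Injective (fun g : Equiv.Perm P =>
      ∑ π, algebraMap K F (cw π) * PowerSeries.constantCoeff (η (g π))))
    (hirr : ∀ (W : Type) [Field W] [Algebra K W],
      Irreducible ((hQ Q cw).map (mapRingHom (algebraMap K W))))
    (E : K[X]) (hE : E ≠ 0) :
    ∃ z0 : K, E.eval z0 ≠ 0 ∧ ∃ r : P → K, Function.Injective r ∧
      Q.map (evalRingHom z0) = ∏ π, (X - C (r π)) := by
  classical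
  set h := hQ Q cw with hh
  have hinjF : Function.Injective (mapRingHom (algebraMap K F)) := by
    rw [coe_mapRingHom]; exact map_injective _ (algebraMap K F).injective
  let f0 : K[X] →+* PowerSeries F := (toPS F).comp (mapRingHom (algebraMap K F))
  have hf0 : Function.Injective f0 := by
    show Function.Injective ((toPS F) ∘ (mapRingHom (algebraMap K F)))
    exact toPS_inj.comp hinjF
  have hf0C : ∀ x, f0 (C x) = PowerSeries.C (algebraMap K F x) := by
    intro x
    show toPS F (mapRingHom (algebraMap K F) (C x)) = _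
    rw [coe_mapRingHom, map_C]
    exact Polynomial.coe_C _
  have hsp := hQ_split f0 Q cw η hη
  rw [← hh] at hsp
  have hmon : h.Monic := by
    apply monic_of_injective hf0
    rw [hsp]
    exact monic_prod_X_sub_C _ _
  have hdeg : 0 < h.natDegree := by
    rw [← natDegree_map_eq_of_injective hf0, hsp, natDegree_finsetProd_X_sub_C_eq_card,
      Finset.card_univ]
    exact Fintype.card_pos
  -- separability
  obtain ⟨A', B', D, hD, hAB⟩ : ∃ (A' B' : K[X][X]) (D : K[X]), D ≠ 0 ∧
      A' * h + B' * derivative h = C D := by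
    have hinc : Function.Injective (inc F) := HahnSeries.ofPowerSeries_injective
    have hf1 : Function.Injective ((inc F).comp f0) := by
      rw [RingHom.coe_comp]; exact hinc.comp hf0
    refine sep_denoms ((inc F).comp f0) hf1 h
      (fun g : Equiv.Perm P => inc F (∑ π, f0 (C (cw π)) * η (g π))) ?_ ?_
    · intro g g' hgg
      apply hcw
      have h2 := congrArg PowerSeries.constantCoeff (hinc hgg)
      simp only [map_sum, map_mul, hf0C, PowerSeries.constantCoeff_C] at h2
      exact h2
    · rw [← Polynomial.map_map, hsp, Polynomial.map_prod]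
      simp only [Polynomial.map_sub, map_X, map_C]
  obtain ⟨z0, s0, hzs, hDE⟩ := hPAC h A' B' D hmon hdeg hAB hD hirr (D * E) (mul_ne_zero hD hE)
  rw [eval_mul] at hDE
  refine ⟨z0, right_ne_zero_of_mul hDE, ?_⟩
  have hD0 := left_ne_zero_of_mul hDE
  let Kb := AlgebraicClosure K
  set q := Q.map (evalRingHom z0) with hq
  obtain ⟨r, hr⟩ := exists_split (ι := P) (q.map (algebraMap K Kb)) ((hQm.map _).map _) (by
    rw [(hQm.map _).natDegree_map, hQm.natDegree_map, hQd])
  set ψ : K[X] →+* Kb := (algebraMap K Kb).comp (evalRingHom z0) with hψ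
  have hψC : ∀ x, ψ (C x) = algebraMap K Kb x := fun x => by
    rw [hψ, RingHom.comp_apply, coe_evalRingHom, eval_C]
  have hsp2 : h.map ψ = ∏ g : Equiv.Perm P, (X - C (∑ π, ψ (C (cw π)) * r (g π))) := by
    apply hQ_split
    rw [hψ, ← Polynomial.map_map]
    exact hr
  have hsum : Function.Injective (fun g : Equiv.Perm P => ∑ π, ψ (C (cw π)) * r (g π)) := by
    rw [← separable_prod_X_sub_C_iff, ← hsp2]
    have h1 := congrArg (fun p => p.map ψ) hAB
    simp only [Polynomial.map_add, Polynomial.map_mul, map_C, ← derivative_map] at h1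
    have h2 : ψ D ≠ 0 := by
      rw [hψ, RingHom.comp_apply, coe_evalRingHom]
      exact (_root_.map_ne_zero _).2 hD0
    refine ⟨C (ψ D)⁻¹ * A'.map ψ, C (ψ D)⁻¹ * B'.map ψ, ?_⟩
    have h3 : (C (ψ D)⁻¹ * C (ψ D) : Kb[X]) = 1 := by
      rw [← C_mul, inv_mul_cancel₀ h2, C_1]
    rw [← h3, ← h1]
    ring
  have hrinj := inj_of_sums _ r hsum
  obtain ⟨g0, hg0⟩ : ∃ g0 : Equiv.Perm P, algebraMap K Kb s0 = ∑ π, ψ (C (cw π)) * r (g0 π) := by
    have h1 : (h.map ψ).eval (algebraMap K Kb s0) = 0 := by
      rw [hψ, ← Polynomial.map_map, eval_map_apply, map_evalRingHom_eval, hzs, map_zero]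
    rw [hsp2, eval_prod] at h1
    obtain ⟨g0, -, h2⟩ := Finset.prod_eq_zero_iff.1 h1
    rw [eval_sub, eval_X, eval_C, sub_eq_zero] at h2
    exact ⟨g0, h2⟩
  have key : ∀ π, ∃ x : K, algebraMap K Kb x = r (g0 π) := by
    intro π
    refine fix_of_unique q (fun π => r (g0 π)) (hrinj.comp g0.injective) ?_
      (fun v => algebraMap K Kb s0 = ∑ π, ψ (C (cw π)) * v π) hg0 ?_ ?_ π
    · rw [hr]
      exact (Equiv.prod_comp g0 (fun π => (X - C (r π) : Kb[X]))).symm
    · intro φ v hv
      have h1 := congrArg φ hv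
      rw [φ.commutes, map_sum] at h1
      refine h1.trans (Finset.sum_congr rfl fun π _ => ?_)
      rw [map_mul, hψC, φ.commutes]
    · intro g hg
      have h1 : g0 * g = g0 := by
        apply hsum
        show ∑ π, ψ (C (cw π)) * r (g0 (g π)) = ∑ π, ψ (C (cw π)) * r (g0 π)
        rw [← hg0]
        exact hg.symm
      exact mul_eq_left.1 h1
  choose x hx using key
  refine ⟨x, ?_, ?_⟩
  · intro π ρ hxx
    apply g0.injective
    apply hrinj
    rw [← hx, ← hx, hxx]
  · apply map_injective _ (algebraMap K Kb).injective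
    rw [hr, Polynomial.map_prod, ← Equiv.prod_comp g0 (fun π => (X - C (r π) : Kb[X]))]
    refine Finset.prod_congr rfl fun π _ => ?_
    rw [Polynomial.map_sub, map_X, map_C, hx]

end

end Pool.Agent.K7.H18.NH
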