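import Mathlib

/-!
# Evaluating symmetric polynomials at the roots of a polynomial
-/

set_option autoImplicit false

namespace Pool.Agent.K7.H18.NH

open MvPolynomial

section
variable {ι Q : Type} [Fintype ι] [DecidableEq ι]

/-- the polynomial in the elementary symmetric functions -/
noncomputable def symU (G : MvPolynomial ι (MvPolynomial Q ℤ)) (hG : G.IsSymmetric) :
    MvPolynomial (Fin (Fintype.card ι)) (MvPolynomial Q ℤ) :=
  (esymmAlgEquiv ι (MvPolynomial Q ℤ) rfl).symm ⟨G, hG⟩

theorem symU_spec (G : MvPolynomial ι (MvPolynomial Q ℤ)) (hG : G.IsSymmetric) :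
    aeval (fun i : Fin (Fintype.card ι) => esymm ι (MvPolynomial Q ℤ) (i + 1)) (symU G hG) = G := by
  have h1 := (esymmAlgEquiv ι (MvPolynomial Q ℤ) rfl).apply_symm_apply ⟨G, hG⟩
  rw [← esymmAlgHom_apply]
  exact congrArg Subtype.val h1

/-- The value of the symmetric polynomial `G` at the negatives of the roots of the polynomial `p`,
with parameters `q`. -/
noncomputable def symV (G : MvPolynomial ι (MvPolynomial Q ℤ)) (hG : G.IsSymmetric) {E : Type}
    [CommRing E] (p : Polynomial E) (q : Q → E) : E :=
  eval₂ (eval₂Hom (Int.castRingHom E) q) (fun i => p.coeff (Fintype.card ι - (i.val + 1)))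
    (symU G hG)

variable (G : MvPolynomial ι (MvPolynomial Q ℤ)) (hG : G.IsSymmetric)

theorem symV_map {E E' : Type} [CommRing E] [CommRing E'] (φ : E →+* E') (p : Polynomial E)
    (q : Q → E) : φ (symV G hG p q) = symV G hG (p.map φ) (fun s => φ (q s)) := by
  unfold symV
  rw [eval₂_comp_left]
  congr 1
  · apply MvPolynomial.ringHom_ext
    · intro n; simp
    · intro s; simp
  · funext i
    rw [Function.comp_apply, Polynomial.coeff_map]

theorem symV_split {E : Type} [CommRing E] (x : ι → E) (q : Q → E) :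
    symV G hG (∏ l, (Polynomial.X + Polynomial.C (x l))) q =
      eval₂ (eval₂Hom (Int.castRingHom E) q) x G := by
  conv_rhs => rw [← symU_spec G hG]
  unfold symV
  set f : MvPolynomial Q ℤ →+* E := eval₂Hom (Int.castRingHom E) q with hf
  have h1 : eval₂ f x (aeval (fun i : Fin (Fintype.card ι) => esymm ι (MvPolynomial Q ℤ) (i + 1))
      (symU G hG)) = eval₂ f (fun i : Fin (Fintype.card ι) => eval₂ f x
        (esymm ι (MvPolynomial Q ℤ) (i + 1))) (symU G hG) := by
    have h2 := eval₂_comp_left (eval₂Hom f x) (algebraMap _ _)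
      (fun i : Fin (Fintype.card ι) => esymm ι (MvPolynomial Q ℤ) (i + 1)) (symU G hG)
    rw [aeval_def, ← coe_eval₂Hom f x, h2]
    congr 1
    apply MvPolynomial.ringHom_ext
    · intro n; simp
    · intro s; simp
  rw [h1]
  congr 1
  funext i
  rw [Finset.prod_X_add_C_coeff _ _ (by rw [Finset.card_univ]; omega), Finset.card_univ]
  rw [show Fintype.card ι - (Fintype.card ι - (i.val + 1)) = i.val + 1 by omega]
  unfold esymm
  rw [← coe_eval₂Hom, map_sum]
  refine Finset.sum_congr rfl fun t _ => ?_
  rw [map_prod]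
  refine Finset.prod_congr rfl fun l _ => ?_
  simp

end

end Pool.Agent.K7.H18.NH
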