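import Pool.Agent.K7.H18.NH.Sym

/-!
# The universal polynomials
-/

set_option autoImplicit false

namespace Pool.Agent.K7.H18.NH

open MvPolynomial (C X eval₂ eval₂Hom rename)

section
variable {ι : Type} [Fintype ι] [DecidableEq ι]

/-- the product over all orderings -/
noncomputable def GV (ι : Type) [Fintype ι] [DecidableEq ι] :
    MvPolynomial ι (MvPolynomial (Option ι) ℤ) :=
  ∏ π : Equiv.Perm ι, (C (X none) - ∏ l, (X l + C (X (some (π l)))))

theorem GV_symm : (GV ι).IsSymmetric := by
  intro s
  unfold GV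
  rw [map_prod]
  refine Fintype.prod_equiv (Equiv.mulRight s⁻¹) _ _ fun π => ?_
  rw [map_sub, MvPolynomial.rename_C, map_prod]
  congr 1
  refine Fintype.prod_equiv s _ _ fun l => ?_
  rw [map_add, MvPolynomial.rename_C, MvPolynomial.rename_X]
  simp

/-- the linear resolvent -/
noncomputable def GH (ι : Type) [Fintype ι] [DecidableEq ι] :
    MvPolynomial ι (MvPolynomial (Option ι) ℤ) :=
  ∏ g : Equiv.Perm ι, (C (X none) + ∑ π, C (X (some π)) * X (g π))

theorem GH_symm : (GH ι).IsSymmetric := by
  intro s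
  unfold GH
  rw [map_prod]
  refine Fintype.prod_equiv (Equiv.mulLeft s) _ _ fun g => ?_
  rw [map_add, MvPolynomial.rename_C, map_sum]
  congr 1
  refine Finset.sum_congr rfl fun π _ => ?_
  rw [map_mul, MvPolynomial.rename_C, MvPolynomial.rename_X]
  simp

/-- the polynomial `∏_π (w - ∏_l (x_l + A_(π l)))`, where `p = ∏ (T + x_l)` -/
noncomputable def V {E : Type} [CommRing E] (p : Polynomial E) (A : ι → E) (w : E) : E :=
  symV (GV ι) GV_symm p (fun o => o.elim w A)

/-- the resolvent `∏_g (S - ∑_π c_π η_(g π))`, where `p = ∏ (T - η_π)` -/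
noncomputable def H {E : Type} [CommRing E] (p : Polynomial E) (c : ι → E) (S : E) : E :=
  symV (GH ι) GH_symm p (fun o => o.elim S c)

variable {E E' : Type} [CommRing E] [CommRing E']

theorem V_map (φ : E →+* E') (p : Polynomial E) (A : ι → E) (w : E) :
    φ (V p A w) = V (p.map φ) (fun l => φ (A l)) (φ w) := by
  unfold V
  rw [symV_map]
  congr 1
  funext o
  cases o <;> rfl

theorem H_map (φ : E →+* E') (p : Polynomial E) (c : ι → E) (S : E) :
    φ (H p c S) = H (p.map φ) (fun l => φ (c l)) (φ S) := by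
  unfold H
  rw [symV_map]
  congr 1
  funext o
  cases o <;> rfl

theorem V_split (x : ι → E) (A : ι → E) (w : E) :
    V (∏ l, (Polynomial.X + Polynomial.C (x l))) A w =
      ∏ π : Equiv.Perm ι, (w - ∏ l, (x l + A (π l))) := by
  unfold V
  rw [symV_split]
  unfold GV
  rw [← MvPolynomial.coe_eval₂Hom, map_prod]
  refine Finset.prod_congr rfl fun π _ => ?_
  simp

theorem H_split (η : ι → E) (c : ι → E) (S : E) :
    H (∏ l, (Polynomial.X - Polynomial.C (η l))) c S =
      ∏ g : Equiv.Perm ι, (S - ∑ π, c π * η (g π)) := by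
  have h1 : ∏ l, (Polynomial.X - Polynomial.C (η l)) =
      ∏ l, (Polynomial.X + Polynomial.C (-η l)) := by
    refine Finset.prod_congr rfl fun l _ => ?_
    rw [Polynomial.C_neg, sub_eq_add_neg]
  unfold H
  rw [h1, symV_split]
  unfold GH
  rw [← MvPolynomial.coe_eval₂Hom, map_prod]
  refine Finset.prod_congr rfl fun g _ => ?_
  simp [sub_eq_add_neg]

end

/-! ### the family of polynomials -/

section
open Polynomial

variable {κ : Type} [Fintype κ] [DecidableEq κ]

/-- the polynomial `(T + y) ∏ (T - a_l) + ∑_i β_i ∏_{l ≠ i} (T - a_l)` -/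
noncomputable def chi {E : Type} [CommRing E] (a β : κ → E) (y : E) : E[X] :=
  (Polynomial.X + Polynomial.C y) * ∏ l, (Polynomial.X - Polynomial.C (a l)) +
    ∑ i, Polynomial.C (β i) * ∏ l ∈ Finset.univ.erase i, (Polynomial.X - Polynomial.C (a l))

theorem chi_map {E E' : Type} [CommRing E] [CommRing E'] (φ : E →+* E') (a β : κ → E) (y : E) :
    (chi a β y).map φ = chi (fun l => φ (a l)) (fun l => φ (β l)) (φ y) := by
  unfold chi
  simp only [Polynomial.map_add, Polynomial.map_mul, Polynomial.map_prod, Polynomial.map_sub,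
    Polynomial.map_X, Polynomial.map_C, Polynomial.map_sum]

variable {S S' : Type} [CommRing S] [CommRing S']

/-- the polynomial in `w` over `S[y]` -/
noncomputable def Phi (a β : κ → S) (A : Option κ → S) : S[X][X] :=
  V (chi (fun l => Polynomial.C (Polynomial.C (a l))) (fun l => Polynomial.C (Polynomial.C (β l)))
    (Polynomial.C Polynomial.X)) (fun l => Polynomial.C (Polynomial.C (A l))) Polynomial.X

theorem Phi_map (φ : S →+* S') (a β : κ → S) (A : Option κ → S) :
    (Phi a β A).map (mapRingHom φ) = Phi (fun l => φ (a l)) (fun l => φ (β l)) (fun l => φ (A l)) := by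
  unfold Phi
  rw [← coe_mapRingHom, V_map, chi_map]
  simp only [coe_mapRingHom, Polynomial.map_C, Polynomial.map_X]

theorem Phi_eval {E : Type} [CommRing E] (φ : S →+* E) (a β : κ → S) (A : Option κ → S) (y w : E) :
    (Phi a β A).eval₂ (eval₂RingHom φ y) w =
      V (chi (fun l => φ (a l)) (fun l => φ (β l)) y) (fun l => φ (A l)) w := by
  unfold Phi
  rw [← coe_eval₂RingHom, V_map, chi_map]
  simp only [coe_eval₂RingHom, eval₂_C, eval₂_X]

/-- the number of orderings -/
abbrev NN (κ : Type) [Fintype κ] [DecidableEq κ] : ℕ := Fintype.card (Equiv.Perm (Option κ))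

/-- the coefficients -/
noncomputable def cc (a β : κ → S) (A : Option κ → S) (j : ℕ) : S[X] :=
  (Phi a β A).coeff (NN κ - j)

theorem cc_map (φ : S →+* S') (a β : κ → S) (A : Option κ → S) (j : ℕ) :
    (cc a β A j).map φ = cc (fun l => φ (a l)) (fun l => φ (β l)) (fun l => φ (A l)) j := by
  unfold cc
  rw [← Phi_map, coeff_map, coe_mapRingHom]

/-- the homogenised polynomial in `η` over `S[z]` -/
noncomputable def Psi (a β : κ → S) (A : Option κ → S) : S[X][X] :=
  ∑ j ∈ Finset.range (NN κ + 1), ∑ r ∈ Finset.range (j + 1),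
    Polynomial.C (Polynomial.C ((cc a β A j).coeff r) * Polynomial.X ^ (j - r)) * Polynomial.X ^ r

theorem Psi_map (φ : S →+* S') (a β : κ → S) (A : Option κ → S) :
    (Psi a β A).map (mapRingHom φ) = Psi (fun l => φ (a l)) (fun l => φ (β l)) (fun l => φ (A l)) := by
  unfold Psi
  rw [Polynomial.map_sum]
  refine Finset.sum_congr rfl fun j _ => ?_
  rw [Polynomial.map_sum]
  refine Finset.sum_congr rfl fun r _ => ?_
  rw [← cc_map, Polynomial.coeff_map]
  simp only [Polynomial.map_mul, Polynomial.map_C, Polynomial.map_pow, Polynomial.map_X,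
    coe_mapRingHom]

end

end Pool.Agent.K7.H18.NH
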